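import Mathlib

/-!
# LCG/Auto: embeddings of `ℝ` in `ℂ` which move algebraically independent numbers to given places
-/

namespace Pool.Agent.LCG

open Cardinal Algebra AlgebraicIndependent Set

/-- Bijections of transcendence bases extend to isomorphisms. -/
theorem exists_ringEquiv {K ι κ : Type} [Field K] [IsAlgClosed K] [Algebra ℚ K] (e : ι ≃ κ)
    {v : ι → K} {w : κ → K} (hv : IsTranscendenceBasis ℚ v) (hw : IsTranscendenceBasis ℚ w) :
    ∃ φ : K ≃+* K, ∀ i, φ (v i) = w (e i) := by
  have i1 := IsAlgClosed.isAlgClosure_of_transcendence_basis v hv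
  have i2 := IsAlgClosed.isAlgClosure_of_transcendence_basis w hw
  obtain ⟨e', he'⟩ : ∃ e' : Algebra.adjoin ℚ (Set.range v) ≃+* Algebra.adjoin ℚ (Set.range w),
      ∀ i, e' ⟨v i, Algebra.subset_adjoin ⟨i, rfl⟩⟩ = ⟨w (e i), Algebra.subset_adjoin ⟨e i, rfl⟩⟩ := by
    refine ⟨(hv.1.aevalEquiv.symm.trans ((MvPolynomial.renameEquiv ℚ e).trans hw.1.aevalEquiv)).toRingEquiv,
      fun i => ?_⟩
    apply Subtype.ext
    have h1 : hv.1.aevalEquiv.symm ⟨v i, Algebra.subset_adjoin ⟨i, rfl⟩⟩ = MvPolynomial.X i := by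
      rw [AlgEquiv.symm_apply_eq]
      apply Subtype.ext
      simp
    show ((hw.1.aevalEquiv ((MvPolynomial.renameEquiv ℚ e) (hv.1.aevalEquiv.symm _)) : Algebra.adjoin ℚ _) : K) = _
    rw [h1]
    simp
  refine ⟨IsAlgClosure.equivOfEquiv K K e', fun i => ?_⟩
  have h1 : v i = algebraMap (Algebra.adjoin ℚ (Set.range v)) K ⟨v i, Algebra.subset_adjoin ⟨i, rfl⟩⟩ := rfl
  rw [h1, IsAlgClosure.equivOfEquiv_algebraMap, he']
  rfl

/-- A finite algebraically independent family extends to a transcendence basis with an index set of the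
cardinality of the continuum. -/
theorem exists_basis {ι : Type} [Finite ι] {y : ι → ℂ} (hy : AlgebraicIndependent ℚ y) :
    ∃ (R : Type) (r : R → ℂ), IsTranscendenceBasis ℚ (Sum.elim y r) ∧ #R = #ℂ := by
  classical
  obtain ⟨B, hB, hBt⟩ := exists_isTranscendenceBasis_superset (R := ℚ) (s := Set.range y) hy.to_subtype_range
  have hbas : IsTranscendenceBasis ℚ (Sum.elim y ((↑) : ↥(B \ Set.range y) → ℂ)) := by
    let e : ι ⊕ ↥(B \ Set.range y) ≃ B :=
      (Equiv.sumCongr (Equiv.ofInjective y hy.injective) (Equiv.refl _)).trans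
        ((Equiv.Set.union disjoint_sdiff_right).symm.trans (Equiv.setCongr (by
          rw [Set.union_sdiff_cancel hB])))
    refine (isTranscendenceBasis_equiv' e ?_).mpr hBt
    funext x
    rcases x with x | x <;> rfl
  refine ⟨↥(B \ Set.range y), Subtype.val, hbas, ?_⟩
  have h1 : #ℂ = #(ι ⊕ ↥(B \ Set.range y)) :=
    IsAlgClosed.cardinal_eq_cardinal_transcendence_basis_of_aleph0_lt' _ hbas (by simp) (by simp [aleph0_lt_continuum])
  rw [mk_sum, lift_id, lift_id] at h1
  refine eq_of_add_eq_of_aleph0_le h1.symm ?_ ?_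
  · refine (lt_aleph0_of_finite ι).trans ?_
    simp [aleph0_lt_continuum]
  · simp [aleph0_le_continuum]

theorem exists_auto {ι : Type} [Finite ι] {y y' : ι → ℂ} (hy : AlgebraicIndependent ℚ y)
    (hy' : AlgebraicIndependent ℚ y') : ∃ φ : ℂ ≃+* ℂ, ∀ i, φ (y i) = y' i := by
  obtain ⟨R, r, hr, hR⟩ := exists_basis hy
  obtain ⟨R', r', hr', hR'⟩ := exists_basis hy'
  obtain ⟨e⟩ := Cardinal.eq.mp (hR.trans hR'.symm)
  obtain ⟨φ, hφ⟩ := exists_ringEquiv (Equiv.sumCongr (Equiv.refl ι) e) hr hr'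
  exact ⟨φ, fun i => hφ (Sum.inl i)⟩

/-- There are algebraically independent families near every family. -/
theorem exists_near {ι : Type} [Fintype ι] [DecidableEq ι] (c : ι → ℂ) {δ : ℝ} (hδ : 0 < δ) :
    ∃ y : ι → ℂ, AlgebraicIndependent ℚ y ∧ ∀ i, ‖y i - c i‖ < δ := by
  suffices h : ∀ s : Finset ι, ∃ y : ι → ℂ, AlgebraicIndepOn ℚ y (s : Set ι) ∧ ∀ i, ‖y i - c i‖ < δ by
    obtain ⟨y, hy, hyc⟩ := h Finset.univ
    refine ⟨y, ?_, hyc⟩
    have h1 : AlgebraicIndependent ℚ (fun i : (((Finset.univ : Finset ι) : Set ι)) => y i) := hy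
    rw [Finset.coe_univ] at h1
    exact (algebraicIndependent_equiv' (Equiv.Set.univ ι) (f := y) rfl).mp h1
  intro s
  induction s using Finset.induction_on with
  | empty =>
    refine ⟨c, ?_, fun i => by simpa using hδ⟩
    rw [Finset.coe_empty]
    exact algebraicIndependent_empty_type_iff.mpr (algebraMap ℚ ℂ).injective
  | insert i s hi ih =>
    obtain ⟨y, hy, hyc⟩ := ih
    have hcnt : Countable (Algebra.adjoin ℚ (y '' (s : Set ι))) := by
      apply Cardinal.mk_le_aleph0_iff.mp
      refine (Algebra.cardinalMk_adjoin_le ℚ _).trans ?_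
      simp only [sup_le_iff]
      refine ⟨⟨by simp, ?_⟩, le_rfl⟩
      exact Cardinal.mk_le_aleph0_iff.mpr ((s.finite_toSet.image y).countable.to_subtype)
    have hcount : Set.Countable {x : ℂ | IsAlgebraic (Algebra.adjoin ℚ (y '' (s : Set ι))) x} :=
      Algebraic.countable _ _
    obtain ⟨t, ht, htc⟩ : ∃ t : ℂ, ¬ IsAlgebraic (Algebra.adjoin ℚ (y '' (s : Set ι))) t ∧ ‖t - c i‖ < δ := by
      have hdense := hcount.dense_compl ℝ
      obtain ⟨t, ht, ht'⟩ := hdense.exists_mem_open Metric.isOpen_ball ⟨c i, Metric.mem_ball_self hδ⟩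
      exact ⟨t, ht, by rwa [Metric.mem_ball, dist_eq_norm] at ht'⟩
    refine ⟨Function.update y i t, ?_, ?_⟩
    · rw [Finset.coe_insert]
      have himg : Function.update y i t '' (s : Set ι) = y '' (s : Set ι) := by
        apply Set.image_congr
        intro j hj
        rw [Function.update_of_ne]
        rintro rfl
        exact hi hj
      apply AlgebraicIndepOn.insert
      · have h1 : (fun j : (s : Set ι) => Function.update y i t j) = fun j : (s : Set ι) => y j := by
          funext j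
          rw [Function.update_of_ne]
          rintro h0
          exact hi (h0 ▸ j.2)
        show AlgebraicIndependent ℚ (fun j : (s : Set ι) => Function.update y i t j)
        rw [h1]
        exact hy
      · rw [himg, Function.update_self]
        exact ht
    · intro j
      by_cases hj : j = i
      · rw [hj, Function.update_self]
        exact htc
      · rw [Function.update_of_ne hj]
        exact hyc j

/-- An embedding of `ℝ` in `ℂ` moves an algebraically independent family to any given place. -/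
theorem exists_hom {ι : Type} [Fintype ι] {y : ι → ℝ} (hy : AlgebraicIndependent ℚ y) (c : ι → ℂ) {δ : ℝ}
    (hδ : 0 < δ) : ∃ τ : ℝ →+* ℂ, ∀ i, ‖τ (y i) - c i‖ < δ := by
  classical
  obtain ⟨y', hy', hc⟩ := exists_near c hδ
  have hyC : AlgebraicIndependent ℚ (fun i => (y i : ℂ)) :=
    hy.map' (f := Complex.ofRealHom.toRatAlgHom) (RingHom.injective _)
  obtain ⟨φ, hφ⟩ := exists_auto hyC hy'
  refine ⟨(φ : ℂ →+* ℂ).comp Complex.ofRealHom, fun i => ?_⟩
  have h1 : ((φ : ℂ →+* ℂ).comp Complex.ofRealHom) (y i) = y' i := hφ i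
  rw [h1]
  exact hc i

end Pool.Agent.LCG
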