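import Pool.Agent.LCG.Gram

/-!
# LCG/Bochi: traces of products of matrices with bounded traces

A finite set of `2 × 2` complex matrices all of whose products of two elements have bounded traces is, up to an
automorphism of the matrix algebra, bounded by an absolute constant.
-/

namespace Pool.Agent.LCG

open Matrix

/-- half of the trace -/
noncomputable def tt (M : Matrix (Fin 2) (Fin 2) ℂ) : ℂ := (M 0 0 + M 1 1) / 2

/-- the coordinates of the traceless part in the basis of the Pauli matrices -/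
noncomputable def vc (M : Matrix (Fin 2) (Fin 2) ℂ) : Fin 3 → ℂ :=
  ![(M 0 1 + M 1 0) / 2, Complex.I * (M 0 1 - M 1 0) / 2, (M 0 0 - M 1 1) / 2]

/-- the matrix with given coordinates -/
noncomputable def mt (t : ℂ) (x : Fin 3 → ℂ) : Matrix (Fin 2) (Fin 2) ℂ :=
  !![t + x 2, x 0 - Complex.I * x 1; x 0 + Complex.I * x 1, t - x 2]

/-- the vector product -/
def cr (x y : Fin 3 → ℂ) : Fin 3 → ℂ :=
  ![x 1 * y 2 - x 2 * y 1, x 2 * y 0 - x 0 * y 2, x 0 * y 1 - x 1 * y 0]

theorem mt_mul (t s : ℂ) (x y : Fin 3 → ℂ) :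
    mt t x * mt s y = mt (t * s + x ⬝ᵥ y) (t • y + s • x + Complex.I • cr x y) := by
  have hI := Complex.I_mul_I
  ext i j
  fin_cases i <;> fin_cases j <;>
    simp [mt, cr, Matrix.mul_apply, Fin.sum_univ_two, dotProduct, Fin.sum_univ_three]
  · linear_combination (-x 1 * y 1) * hI
  · linear_combination (x 2 * y 0 - x 0 * y 2) * hI
  · linear_combination (-x 2 * y 0 + x 0 * y 2) * hI
  · linear_combination (-x 1 * y 1) * hI

theorem mt_self (M : Matrix (Fin 2) (Fin 2) ℂ) : mt (tt M) (vc M) = M := by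
  have hI := Complex.I_mul_I
  ext i j
  fin_cases i <;> fin_cases j <;> simp [mt, tt, vc]
  · ring
  · linear_combination (-(M 0 1 - M 1 0) / 2) * hI
  · linear_combination ((M 0 1 - M 1 0) / 2) * hI
  · ring

theorem tt_mt (t : ℂ) (x : Fin 3 → ℂ) : tt (mt t x) = t := by
  simp [tt, mt]

theorem vc_mt (t : ℂ) (x : Fin 3 → ℂ) : vc (mt t x) = x := by
  have hI := Complex.I_mul_I
  ext i
  fin_cases i <;> simp [vc, mt]
  · linear_combination (-x 1) * hI

theorem tt_mul (M N : Matrix (Fin 2) (Fin 2) ℂ) : tt (M * N) = tt M * tt N + vc M ⬝ᵥ vc N := by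
  conv_lhs => rw [← mt_self M, ← mt_self N, mt_mul, tt_mt]

theorem vc_mul (M N : Matrix (Fin 2) (Fin 2) ℂ) :
    vc (M * N) = tt M • vc N + tt N • vc M + Complex.I • cr (vc M) (vc N) := by
  conv_lhs => rw [← mt_self M, ← mt_self N, mt_mul, vc_mt]

section

variable {g : Matrix (Fin 3) (Fin 3) ℂ} (hg : gᵀ * g = 1) (hd : g.det = 1)
include hg hd

theorem cr_mulVec (x y : Fin 3 → ℂ) : cr (g *ᵥ x) (g *ᵥ y) = g *ᵥ cr x y := by
  have hadj : g.adjugate = gᵀ := by
    calc g.adjugate = (gᵀ * g) * g.adjugate := by rw [hg, Matrix.one_mul]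
      _ = gᵀ * (g * g.adjugate) := by rw [Matrix.mul_assoc]
      _ = gᵀ := by rw [Matrix.mul_adjugate, hd, one_smul, Matrix.mul_one]
  rw [Matrix.adjugate_fin_three] at hadj
  have e := fun i j => congrFun (congrFun hadj i) j
  have e00 := e 0 0
  have e01 := e 0 1
  have e02 := e 0 2
  have e10 := e 1 0
  have e11 := e 1 1
  have e12 := e 1 2
  have e20 := e 2 0
  have e21 := e 2 1
  have e22 := e 2 2
  simp at e00 e01 e02 e10 e11 e12 e20 e21 e22
  ext i
  fin_cases i <;> simp [cr, Matrix.mulVec, dotProduct, Fin.sum_univ_three]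
  · linear_combination (x 1 * y 2 - x 2 * y 1) * e00 + (x 2 * y 0 - x 0 * y 2) * e10 +
      (x 0 * y 1 - x 1 * y 0) * e20
  · linear_combination (x 1 * y 2 - x 2 * y 1) * e01 + (x 2 * y 0 - x 0 * y 2) * e11 +
      (x 0 * y 1 - x 1 * y 0) * e21
  · linear_combination (x 1 * y 2 - x 2 * y 1) * e02 + (x 2 * y 0 - x 0 * y 2) * e12 +
      (x 0 * y 1 - x 1 * y 0) * e22

omit hd in
theorem dot_mulVec (x y : Fin 3 → ℂ) : (g *ᵥ x) ⬝ᵥ (g *ᵥ y) = x ⬝ᵥ y := by
  rw [Matrix.dotProduct_mulVec, ← Matrix.mulVec_transpose, Matrix.mulVec_mulVec, hg, Matrix.one_mulVec]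

end

/-- The automorphism of the algebra of matrices defined by an orthogonal matrix. -/
noncomputable def Ph (g : Matrix (Fin 3) (Fin 3) ℂ) (M : Matrix (Fin 2) (Fin 2) ℂ) : Matrix (Fin 2) (Fin 2) ℂ :=
  mt (tt M) (g *ᵥ vc M)

theorem Ph_mul {g : Matrix (Fin 3) (Fin 3) ℂ} (hg : gᵀ * g = 1) (hd : g.det = 1)
    (M N : Matrix (Fin 2) (Fin 2) ℂ) : Ph g (M * N) = Ph g M * Ph g N := by
  unfold Ph
  rw [mt_mul, tt_mul, vc_mul, dot_mulVec hg, cr_mulVec hg hd]
  simp only [Matrix.mulVec_add, Matrix.mulVec_smul]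

theorem Ph_one (g : Matrix (Fin 3) (Fin 3) ℂ) : Ph g 1 = 1 := by
  have h1 : vc (1 : Matrix (Fin 2) (Fin 2) ℂ) = 0 := by
    ext i
    fin_cases i <;> simp [vc]
  have h2 : tt (1 : Matrix (Fin 2) (Fin 2) ℂ) = 1 := by
    simp [tt]
  rw [Ph, h1, h2, Matrix.mulVec_zero]
  ext i j
  fin_cases i <;> fin_cases j <;> simp [mt]

theorem Ph_prod {g : Matrix (Fin 3) (Fin 3) ℂ} (hg : gᵀ * g = 1) (hd : g.det = 1)
    (L : List (Matrix (Fin 2) (Fin 2) ℂ)) : Ph g L.prod = (L.map (Ph g)).prod := by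
  induction L with
  | nil => simp [Ph_one]
  | cons a L ih => rw [List.prod_cons, Ph_mul hg hd, ih, List.map_cons, List.prod_cons]

theorem trace_Ph (g : Matrix (Fin 3) (Fin 3) ℂ) (M : Matrix (Fin 2) (Fin 2) ℂ) : (Ph g M).trace = M.trace := by
  rw [Ph, Matrix.trace_fin_two, Matrix.trace_fin_two]
  simp [mt, tt]

theorem list_bound {E : ℝ} (hE : 1 ≤ E) (L : List (Matrix (Fin 2) (Fin 2) ℂ))
    (hL : ∀ s ∈ L, ∀ i j, ‖s i j‖ ≤ E) : ∀ i j, ‖L.prod i j‖ ≤ (2 * E) ^ L.length := by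
  induction L with
  | nil =>
    intro i j
    rw [List.prod_nil, List.length_nil, pow_zero, Matrix.one_apply]
    split_ifs <;> simp
  | cons a L ih =>
    intro i j
    have h1 := ih (fun s hs => hL s (List.mem_cons_of_mem _ hs))
    have h2 := hL a List.mem_cons_self
    rw [List.prod_cons, Matrix.mul_apply, Fin.sum_univ_two, List.length_cons, pow_succ]
    have h3 : ∀ k, ‖a i k * L.prod k j‖ ≤ E * (2 * E) ^ L.length := by
      intro k
      rw [norm_mul]
      exact mul_le_mul (h2 i k) (h1 k j) (norm_nonneg _) (by linarith)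
    refine (norm_add_le _ _).trans ?_
    have := h3 0
    have := h3 1
    linarith

end Pool.Agent.LCG
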