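import Pool.Agent.LCG.Bochi

/-!
# LCG/Bound: the absolute bound for traces of products
-/

namespace Pool.Agent.LCG

open Matrix

/-- the rows are the traceless parts -/
noncomputable def rows (f : Fin 3 → Matrix (Fin 2) (Fin 2) ℂ) : Matrix (Fin 3) (Fin 3) ℂ :=
  Matrix.of fun i => vc (f i)

theorem trace_eq_tt (M : Matrix (Fin 2) (Fin 2) ℂ) : M.trace = 2 * tt M := by
  rw [Matrix.trace_fin_two, tt]
  ring

theorem exists_bound : ∃ C₀ : ℝ, 1 < C₀ ∧ ∀ S : Set (Matrix (Fin 2) (Fin 2) ℂ), S.Finite → 1 ∈ S →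
    (∀ a ∈ S, ∀ b ∈ S, ‖(a * b).trace‖ ≤ 3) → (∃ f : Fin 3 → Matrix (Fin 2) (Fin 2) ℂ, (∀ i, f i ∈ S) ∧
      (rows f).det ≠ 0) → ∀ L : List (Matrix (Fin 2) (Fin 2) ℂ), (∀ s ∈ L, s ∈ S) →
      ‖L.prod.trace‖ ≤ C₀ ^ (L.length + 1) := by
  obtain ⟨K, hK0, hK⟩ := exists_gram 3
  obtain ⟨E, hE⟩ : ∃ E, E = 2 + 6 * (K * √(15 / 4)) := ⟨_, rfl⟩
  have hE1 : 1 ≤ E := by
    have : 0 ≤ K * √(15 / 4) := by positivity
    linarith
  refine ⟨2 * E, by linarith, fun S hS h1S htr hex L hL => ?_⟩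
  -- bounds
  have hta : ∀ a ∈ S, ‖tt a‖ ≤ 3 / 2 := by
    intro a ha
    have h1 := htr a ha 1 h1S
    rw [Matrix.mul_one, trace_eq_tt, norm_mul] at h1
    norm_num at h1
    linarith
  have hdot : ∀ a ∈ S, ∀ b ∈ S, ‖vc a ⬝ᵥ vc b‖ ≤ 15 / 4 := by
    intro a ha b hb
    have h1 := htr a ha b hb
    rw [trace_eq_tt, norm_mul] at h1
    norm_num at h1
    have h2 : vc a ⬝ᵥ vc b = tt (a * b) - tt a * tt b := by rw [tt_mul]; ring
    rw [h2]
    refine (norm_sub_le _ _).trans ?_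
    rw [norm_mul]
    have h3 : ‖tt a‖ * ‖tt b‖ ≤ 3 / 2 * (3 / 2) := mul_le_mul (hta a ha) (hta b hb) (norm_nonneg _) (by norm_num)
    linarith
  -- a triple with maximal determinant
  have hSf : Finite S := hS.to_subtype
  obtain ⟨f₀, hf₀S, hf₀⟩ := hex
  have hne : Nonempty (Fin 3 → S) := ⟨fun i => ⟨f₀ i, hf₀S i⟩⟩
  obtain ⟨F, hF⟩ := Finite.exists_max (fun F : Fin 3 → S => ‖(rows fun i => (F i : Matrix (Fin 2) (Fin 2) ℂ)).det‖)
  obtain ⟨W, hW⟩ : ∃ W, W = rows fun i => (F i : Matrix (Fin 2) (Fin 2) ℂ) := ⟨_, rfl⟩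
  rw [← hW] at hF
  have hWdet : W.det ≠ 0 := by
    intro h0
    have h1 := hF (fun i => ⟨f₀ i, hf₀S i⟩)
    rw [h0, norm_zero] at h1
    exact hf₀ (norm_le_zero_iff.mp h1)
  -- coefficients
  have hcoef : ∀ a ∈ S, ∃ c : Fin 3 → ℂ, vc a = Wᵀ *ᵥ c ∧ ∀ i, ‖c i‖ ≤ 1 := by
    intro a ha
    refine ⟨fun i => Matrix.cramer Wᵀ (vc a) i / W.det, ?_, fun i => ?_⟩
    · have h1 := Matrix.mulVec_cramer Wᵀ (vc a)
      rw [Matrix.det_transpose] at h1
      have h2 : (fun i => Matrix.cramer Wᵀ (vc a) i / W.det) = (W.det)⁻¹ • Matrix.cramer Wᵀ (vc a) := by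
        funext i
        rw [Pi.smul_apply, smul_eq_mul, div_eq_inv_mul]
      rw [h2, Matrix.mulVec_smul, h1, smul_smul, inv_mul_cancel₀ hWdet, one_smul]
    · rw [norm_div, div_le_one (norm_pos_iff.mpr hWdet), Matrix.cramer_transpose_apply]
      have h1 := hF (Function.update F i ⟨a, ha⟩)
      have h2 : W.updateRow i (vc a) = rows fun j => ((Function.update F i ⟨a, ha⟩ j : S) :
          Matrix (Fin 2) (Fin 2) ℂ) := by
        ext j k
        rw [Matrix.updateRow_apply, hW]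
        by_cases hj : j = i
        · rw [if_pos hj, hj]
          simp [rows]
        · rw [if_neg hj]
          simp [rows, Function.update_of_ne hj]
      rw [h2]
      exact h1
  -- the factorization of the Gram matrix
  obtain ⟨V, hV, hVb⟩ := hK (15 / 4) (W * Wᵀ) (by norm_num) (fun i j => by
      have h1 : (W * Wᵀ)ᵀ = W * Wᵀ := by rw [Matrix.transpose_mul, Matrix.transpose_transpose]
      rw [← h1, Matrix.transpose_apply, h1]) (fun i j => by
      have h1 : (W * Wᵀ) i j = vc (F i) ⬝ᵥ vc (F j) := by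
        rw [hW, Matrix.mul_apply]
        simp [rows, dotProduct]
      rw [h1]
      exact hdot _ (F i).2 _ (F j).2)
  obtain ⟨V', hV', hV'b, hV'd⟩ : ∃ V' : Matrix (Fin 3) (Fin 3) ℂ, V'ᵀ * V' = W * Wᵀ ∧
      (∀ i j, ‖V' i j‖ ≤ K * √(15 / 4)) ∧ V'.det = W.det := by
    have h1 : (V.det - W.det) * (V.det + W.det) = 0 := by
      have h2 := congrArg Matrix.det hV
      rw [Matrix.det_mul, Matrix.det_mul, Matrix.det_transpose, Matrix.det_transpose] at h2
      linear_combination h2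
    rcases mul_eq_zero.mp h1 with h2 | h2
    · exact ⟨V, hV, hVb, by linear_combination h2⟩
    · refine ⟨-V, by simpa using hV, fun i j => by simpa using hVb i j, ?_⟩
      rw [Matrix.det_neg]
      simp
      linear_combination -h2
  -- the orthogonal matrix
  obtain ⟨g, hg⟩ : ∃ g, g = V' * (Wᵀ)⁻¹ := ⟨_, rfl⟩
  have hWt : IsUnit (Wᵀ).det := by
    rw [Matrix.det_transpose]
    exact isUnit_iff_ne_zero.mpr hWdet
  have hgW : g * Wᵀ = V' := by
    rw [hg, Matrix.mul_assoc, Matrix.nonsing_inv_mul _ hWt, Matrix.mul_one]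
  have hgo : gᵀ * g = 1 := by
    have h1 : W * (gᵀ * g) * Wᵀ = W * Wᵀ := by
      calc W * (gᵀ * g) * Wᵀ = (g * Wᵀ)ᵀ * (g * Wᵀ) := by
            rw [Matrix.transpose_mul, Matrix.transpose_transpose]
            simp only [Matrix.mul_assoc]
        _ = W * Wᵀ := by rw [hgW, hV']
    have hWu : IsUnit W.det := isUnit_iff_ne_zero.mpr hWdet
    calc gᵀ * g = W⁻¹ * (W * (gᵀ * g) * Wᵀ) * (Wᵀ)⁻¹ := by
          have k1 := Matrix.nonsing_inv_mul _ hWu
          have k2 := Matrix.mul_nonsing_inv _ hWt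
          calc gᵀ * g = (W⁻¹ * W) * (gᵀ * g) * (Wᵀ * (Wᵀ)⁻¹) := by rw [k1, k2, Matrix.one_mul, Matrix.mul_one]
            _ = _ := by simp only [Matrix.mul_assoc]
      _ = 1 := by
        rw [h1, ← Matrix.mul_assoc, Matrix.nonsing_inv_mul _ hWu, Matrix.one_mul, Matrix.mul_nonsing_inv _ hWt]
  have hgd : g.det = 1 := by
    have h1 := congrArg Matrix.det hgW
    rw [Matrix.det_mul, Matrix.det_transpose, hV'd] at h1
    exact mul_right_cancel₀ hWdet (by rw [h1, one_mul])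
  -- the bound
  have hPh : ∀ a ∈ S, ∀ i j, ‖Ph g a i j‖ ≤ E := by
    intro a ha
    obtain ⟨c, hc, hc1⟩ := hcoef a ha
    have h1 : ∀ i, ‖(g *ᵥ vc a) i‖ ≤ 3 * (K * √(15 / 4)) := by
      intro i
      rw [hc, Matrix.mulVec_mulVec, hgW, Matrix.mulVec, dotProduct, Fin.sum_univ_three]
      have h2 : ∀ k, ‖V' i k * c k‖ ≤ K * √(15 / 4) := by
        intro k
        rw [norm_mul]
        calc ‖V' i k‖ * ‖c k‖ ≤ (K * √(15 / 4)) * 1 := by
              gcongr
              · exact hV'b i k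
              · exact hc1 k
          _ = _ := mul_one _
      have := h2 0
      have := h2 1
      have := h2 2
      have := norm_add_le (V' i 0 * c 0 + V' i 1 * c 1) (V' i 2 * c 2)
      have := norm_add_le (V' i 0 * c 0) (V' i 1 * c 1)
      linarith
    have ht := hta a ha
    have hx0 := h1 0
    have hx1 := h1 1
    have hx2 := h1 2
    have hI1 : ‖Complex.I * (g *ᵥ vc a) 1‖ ≤ 3 * (K * √(15 / 4)) := by
      rw [norm_mul, Complex.norm_I, one_mul]
      exact hx1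
    have hK' : 0 ≤ K * √(15 / 4) := by positivity
    intro i j
    fin_cases i <;> fin_cases j
    · show ‖tt a + (g *ᵥ vc a) 2‖ ≤ E
      have := norm_add_le (tt a) ((g *ᵥ vc a) 2)
      linarith
    · show ‖(g *ᵥ vc a) 0 - Complex.I * (g *ᵥ vc a) 1‖ ≤ E
      have := norm_sub_le ((g *ᵥ vc a) 0) (Complex.I * (g *ᵥ vc a) 1)
      linarith
    · show ‖(g *ᵥ vc a) 0 + Complex.I * (g *ᵥ vc a) 1‖ ≤ E
      have := norm_add_le ((g *ᵥ vc a) 0) (Complex.I * (g *ᵥ vc a) 1)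
      linarith
    · show ‖tt a - (g *ᵥ vc a) 2‖ ≤ E
      have := norm_sub_le (tt a) ((g *ᵥ vc a) 2)
      linarith
  have h1 := list_bound hE1 (L.map (Ph g)) (by
    intro s hs
    obtain ⟨a, ha, rfl⟩ := List.mem_map.mp hs
    exact hPh a (hL a ha))
  rw [List.length_map] at h1
  rw [← trace_Ph g, Ph_prod hgo hgd, Matrix.trace_fin_two, pow_succ]
  have h2 := h1 0 0
  have h3 := h1 1 1
  have h4 := norm_add_le ((L.map (Ph g)).prod 0 0) ((L.map (Ph g)).prod 1 1)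
  have h5 : 0 ≤ (2 * E) ^ L.length := by positivity
  nlinarith

end Pool.Agent.LCG
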