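import Pool.Agent.LCG.Generic

/-!
# LCG/Coll: generic surfaces with punctures are collapsing, conclusion
-/

namespace Pool.Agent.LCG

open Matrix Filter Topology Cardinal Pool.Agent.LCC
open scoped MatrixGroups commutatorElement

section

variable {g n : ℕ} {A B C : ℕ → SL(2, ℝ)} {x y ζ : ℝ}

/-- The coordinates together with `y` and `ζ` are independent. -/
theorem NF.ind' (h : NF g n A B C x y ζ)
    (htd : ((6 * g + 2 * n + 2 : ℕ) : Cardinal) ≤ td (adj (K1 g n A B C y ζ) x)) :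
    AlgebraicIndependent ℚ (Sum.elim (pW g n A B C) ![y, ζ]) := by
  apply algInd_of_td
  have h1 : td (adj (K1 g n A B C y ζ) x) ≤ td (K1 g n A B C y ζ) := h.td_le_of_ne (h.ne (h.ind htd))
  have h2 : K1 g n A B C y ζ ≤ fld (Sum.elim (pW g n A B C) ![y, ζ]) := by
    have hK0 : K0 g n A B C ≤ fld (Sum.elim (pW g n A B C) ![y, ζ]) := by
      show IntermediateField.adjoin ℚ _ ≤ _
      rw [IntermediateField.adjoin_le_iff]
      rintro _ ⟨i, rfl⟩
      exact mem_fld (Sum.elim (pW g n A B C) ![y, ζ]) (Sum.inl i)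
    have hadj : ∀ {M N : IntermediateField ℚ ℝ} {c : ℝ}, M ≤ N → c ∈ N → adj M c ≤ N := by
      intro M N c hM hc
      have h3 : IntermediateField.adjoin M ({c} : Set ℝ) ≤
          (IntermediateField.extendScalars hM : IntermediateField M ℝ) := by
        rw [IntermediateField.adjoin_le_iff]
        rintro _ rfl
        exact hc
      intro a ha
      exact h3 ha
    exact hadj (hadj hK0 (mem_fld (Sum.elim (pW g n A B C) ![y, ζ]) (Sum.inr 0)))
      (mem_fld (Sum.elim (pW g n A B C) ![y, ζ]) (Sum.inr 1))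
  refine le_trans ?_ ((htd.trans h1).trans (td_mono h2))
  have h3 : Fintype.card (Kap g n ⊕ Fin 2) = 6 * g + 2 * n + 2 := by
    rw [Fintype.card_sum, card_Kap, Fintype.card_fin]
  rw [h3]

/-- the norm bound for the roots of the quadratic equation -/
theorem norm_root_le {a b c z : ℂ} (ha : 1 / 2 ≤ ‖a‖) (hb : ‖b‖ ≤ 1) (hc : ‖c‖ ≤ 5) (h : a * z ^ 2 + b * z + c = 0) :
    ‖z‖ ≤ 5 := by
  by_contra hz
  push Not at hz
  have h1 : a * z ^ 2 = -(b * z + c) := by linear_combination h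
  have h2 : ‖a‖ * ‖z‖ ^ 2 = ‖b * z + c‖ := by
    rw [← norm_pow, ← norm_mul, h1, norm_neg]
  have h3 : ‖b * z + c‖ ≤ ‖b‖ * ‖z‖ + ‖c‖ := by
    rw [← norm_mul]
    exact norm_add_le _ _
  have h4 : ‖b‖ * ‖z‖ ≤ ‖z‖ := by nlinarith [norm_nonneg z]
  nlinarith

theorem NF.collapsing (h : NF g n A B C x y ζ)
    (htd : ((6 * g + 2 * n + 2 : ℕ) : Cardinal) ≤ td (adj (K1 g n A B C y ζ) x)) :
    ∃ (τ : ℕ → ℝ →+* ℂ) (l : Filter ℕ) (G : Subgroup SL(2, ℂ)), l.NeBot ∧
      (∀ M ∈ G, ∃ e : ℂ, ‖e‖ = 1 ∧ (M : Matrix (Fin 2) (Fin 2) ℂ).trace = e + e⁻¹) ∧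
      (∀ i < g + 1, A i ∈ limSub τ l G) ∧ (∀ i < g + 1, B i ∈ limSub τ l G) ∧ (∀ j < n + 1, C j ∈ limSub τ l G) := by
  have hind := h.ind htd
  obtain ⟨τ, hτ⟩ := exists_seq (h.ind' htd) (Sum.elim (cW g n) ![0, Complex.I])
  obtain ⟨l, hl⟩ : ∃ l : Ultrafilter ℕ, l = hyperfilter ℕ := ⟨_, rfl⟩
  have hle : (l : Filter ℕ) ≤ atTop := by rw [hl]; exact Nat.hyperfilter_le_atTop
  have hτW : ∀ i, Tendsto (fun k => τ k (pW g n A B C i)) l (𝓝 (cW g n i)) := fun i =>
    (hτ (Sum.inl i)).mono_left hle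
  have hτy : Tendsto (fun k => τ k y) l (𝓝 0) := (hτ (Sum.inr 0)).mono_left hle
  have hτζ : Tendsto (fun k => τ k ζ) l (𝓝 Complex.I) := (hτ (Sum.inr 1)).mono_left hle
  obtain ⟨lA, lB, lC⟩ := h.lim hind hτW
  obtain ⟨η, hη, w00, w01, w10, w11⟩ := h.limW hind hτW
  have hI2 := Complex.I_sq
  have hτζi : Tendsto (fun k => τ k ζ⁻¹) l (𝓝 (-Complex.I)) := by
    have h1 := hτζ.inv₀ Complex.I_ne_zero
    rw [Complex.inv_I] at h1
    refine h1.congr fun k => ?_
    rw [map_inv₀]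
  -- the coefficients of the quadratic equation
  have hβ : Tendsto (fun k => τ k (-y * (ζ + ζ⁻¹) * (WW g n A B C) 0 0 + (WW g n A B C) 1 0 * ζ ^ 2 +
      (WW g n A B C) 0 1)) l (𝓝 0) := by
    have h1 := (((hτy.neg.mul (hτζ.add hτζi)).mul w00).add (w10.mul (hτζ.pow 2))).add w01
    have e : -(0 : ℂ) * (Complex.I + -Complex.I) * η + 0 * Complex.I ^ 2 + 0 = 0 := by ring
    rw [e] at h1
    refine h1.congr fun k => ?_
    simp only [map_add, map_mul, map_neg, map_pow]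
  have hT : ∀ k, τ k (tr (C n)) = (tr (C n) : ℂ) := by
    intro k
    rcases sign_of_sq (h.par n (by omega)) with h1 | h1
    · rw [h1, map_ofNat]; simp
    · rw [h1, map_neg, map_ofNat]; simp
  have hγ : Tendsto (fun k => τ k ((y ^ 2 + ζ⁻¹ ^ 2) * (WW g n A B C) 0 0 - y * ζ * ((WW g n A B C) 1 0 +
      (WW g n A B C) 0 1) + (WW g n A B C) 1 1 * ζ ^ 2 - tr (C n))) l (𝓝 (-2 * η - tr (C n))) := by
    have h1 := (((((hτy.pow 2).add (hτζi.pow 2)).mul w00).sub ((hτy.mul hτζ).mul (w10.add w01))).add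
      (w11.mul (hτζ.pow 2))).sub (tendsto_const_nhds (x := (tr (C n) : ℂ)))
    have e : (0 ^ 2 + (-Complex.I) ^ 2) * η - 0 * Complex.I * (0 + 0) + η * Complex.I ^ 2 - (tr (C n) : ℂ) =
        -2 * η - tr (C n) := by
      linear_combination 2 * η * hI2
    rw [e] at h1
    refine h1.congr fun k => ?_
    simp only [map_add, map_sub, map_mul, map_pow, hT]
  have hηn : ‖η‖ = 1 := by
    rcases hη with rfl | rfl <;> simp
  have hTn : ‖(tr (C n) : ℂ)‖ = 2 := by
    rcases sign_of_sq (h.par n (by omega)) with h1 | h1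
    · rw [h1]; simp
    · rw [h1]; simp
  -- boundedness of `x`
  have hbd : ∀ᶠ k in (l : Filter ℕ), ‖τ k x‖ ≤ 5 := by
    have e1 := w00.norm.eventually (lt_mem_nhds (show (1 : ℝ) / 2 < ‖η‖ by rw [hηn]; norm_num))
    have e2 := hβ.norm.eventually (gt_mem_nhds (show ‖(0 : ℂ)‖ < 1 by simp))
    have e3 := hγ.norm.eventually (gt_mem_nhds (show ‖-2 * η - (tr (C n) : ℂ)‖ < 5 by
      have h1 := norm_sub_le (-2 * η) (tr (C n) : ℂ)
      have h2 : ‖(-2 : ℂ) * η‖ = 2 := by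
        rw [norm_mul, hηn, norm_neg]
        norm_num
      rw [h2, hTn] at h1
      linarith))
    filter_upwards [e1, e2, e3] with k k1 k2 k3
    refine norm_root_le k1.le k2.le k3.le ?_
    have h1 := congrArg (τ k) h.eqn
    rw [map_zero, map_add, map_add, map_mul, map_mul, map_pow] at h1
    exact h1
  obtain ⟨xi, -, hxi⟩ := (isCompact_closedBall (0 : ℂ) 5).ultrafilter_le_nhds (l.map fun k => τ k x) (by
    rw [Ultrafilter.coe_map, le_principal_iff, mem_map]
    filter_upwards [hbd] with k hk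
    rw [Set.mem_preimage, mem_closedBall_zero_iff]
    exact hk)
  have hx : Tendsto (fun k => τ k x) l (𝓝 xi) := hxi
  have heq : η * xi ^ 2 + 0 * xi + (-2 * η - tr (C n)) = 0 := by
    have h1 := ((w00.mul (hx.pow 2)).add (hβ.mul hx)).add hγ
    refine tendsto_nhds_unique h1 ?_
    have h2 : ∀ k, τ k ((WW g n A B C) 0 0) * τ k x ^ 2 + τ k (-y * (ζ + ζ⁻¹) * (WW g n A B C) 0 0 +
      (WW g n A B C) 1 0 * ζ ^ 2 + (WW g n A B C) 0 1) * τ k x + τ k ((y ^ 2 + ζ⁻¹ ^ 2) * (WW g n A B C) 0 0 -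
        y * ζ * ((WW g n A B C) 1 0 + (WW g n A B C) 0 1) + (WW g n A B C) 1 1 * ζ ^ 2 - tr (C n)) = 0 := by
      intro k
      have h1 := congrArg (τ k) h.eqn
      rw [map_zero, map_add, map_add, map_mul, map_mul, map_pow] at h1
      exact h1
    simp only [h2]
    exact tendsto_const_nhds
  have hxi2 : xi ^ 2 = 0 ∨ xi ^ 2 = 4 := by
    rcases sign_of_sq (h.par n (by omega)) with h1 | h1 <;> rcases hη with h2 | h2
    · right
      rw [h1, h2] at heq
      push_cast at heq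
      linear_combination heq
    · left
      rw [h1, h2] at heq
      push_cast at heq
      linear_combination -heq
    · left
      rw [h1, h2] at heq
      push_cast at heq
      linear_combination heq
    · right
      rw [h1, h2] at heq
      push_cast at heq
      linear_combination -heq
  -- the limits of `A 0` and `B 0`
  obtain ⟨MA, hMA⟩ : ∃ MA : SL(2, ℂ), (MA : Matrix (Fin 2) (Fin 2) ℂ) = !![xi, -1; 1, 0] :=
    ⟨⟨!![xi, -1; 1, 0], by rw [Matrix.det_fin_two_of]; ring⟩, rfl⟩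
  obtain ⟨MB, hMB⟩ : ∃ MB : SL(2, ℂ), (MB : Matrix (Fin 2) (Fin 2) ℂ) = !![0, Complex.I; Complex.I, 0] :=
    ⟨⟨!![0, Complex.I; Complex.I, 0], by rw [Matrix.det_fin_two_of]; simp⟩, rfl⟩
  have hLA : Lim τ l (A 0) MA := by
    rw [hMA]
    obtain ⟨a1, a2, a3, a4⟩ := h.entA
    intro i j
    fin_cases i <;> fin_cases j
    · show Tendsto (fun k => τ k (A 0 0 0)) l (𝓝 xi)
      rw [a1]; exact hx
    · show Tendsto (fun k => τ k (A 0 0 1)) l (𝓝 (-1))
      rw [a2]
      simp only [map_neg, map_one]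
      exact tendsto_const_nhds
    · show Tendsto (fun k => τ k (A 0 1 0)) l (𝓝 1)
      rw [a3]
      simp only [map_one]
      exact tendsto_const_nhds
    · show Tendsto (fun k => τ k (A 0 1 1)) l (𝓝 0)
      rw [a4]
      simp only [map_zero]
      exact tendsto_const_nhds
  have hLB : Lim τ l (B 0) MB := by
    rw [hMB]
    obtain ⟨a1, a2, a3, a4⟩ := h.entB
    intro i j
    fin_cases i <;> fin_cases j
    · show Tendsto (fun k => τ k (B 0 0 0)) l (𝓝 0)
      rw [a1]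
      simp only [map_zero]
      exact tendsto_const_nhds
    · show Tendsto (fun k => τ k (B 0 0 1)) l (𝓝 Complex.I)
      rw [a2]; exact hτζ
    · show Tendsto (fun k => τ k (B 0 1 0)) l (𝓝 Complex.I)
      rw [a3]
      simpa using hτζi.neg
    · show Tendsto (fun k => τ k (B 0 1 1)) l (𝓝 0)
      rw [a4]; exact hτy
  -- the limit group
  obtain ⟨G, hG, hpm, hGA, hGB⟩ : ∃ G : Subgroup SL(2, ℂ),
      (∀ M ∈ G, ∃ e : ℂ, ‖e‖ = 1 ∧ (M : Matrix (Fin 2) (Fin 2) ℂ).trace = e + e⁻¹) ∧ pm ≤ G ∧ MA ∈ G ∧ MB ∈ G := by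
    rcases hxi2 with h0 | h4
    · have hxi0 : xi = 0 := by simpa using h0
      refine ⟨su2, fun M hM => su2_trace hM, pm_le_su2, ⟨?_, ?_⟩, ⟨?_, ?_⟩⟩
      · rw [hMA, hxi0]; simp
      · rw [hMA, hxi0]; simp
      · rw [hMB]; simp
      · rw [hMB]; simp
    · obtain ⟨s, hs, hxs⟩ : ∃ s : ℂ, s ^ 2 = 1 ∧ xi = 2 * s := ⟨xi / 2, by
        rw [div_pow, h4]; norm_num, by ring⟩
      have hsn : ‖s‖ = 1 := by
        have h5 : ‖s‖ ^ 2 = 1 := by rw [← norm_pow, hs, norm_one]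
        nlinarith [norm_nonneg s]
      refine ⟨fixG s, fun M hM => fixG_trace hM, pm_le_fixG s, ⟨s, hsn, ?_, ?_⟩, ⟨Complex.I * s, by
        rw [norm_mul, hsn, Complex.norm_I, one_mul], ?_, ?_⟩⟩
      · rw [hMA, hxs]; simp; ring
      · rw [hMA]; simp
        linear_combination -hs
      · rw [hMB]; simp
      · rw [hMB]; simp
        linear_combination -Complex.I * hs
  have hpmG : limSub τ l pm ≤ limSub τ l G := by
    rintro γ ⟨M, hM, hlim⟩
    exact ⟨M, hpm hM, hlim⟩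
  have hA0 : A 0 ∈ limSub τ l G := ⟨MA, hGA, hLA⟩
  have hB0 : B 0 ∈ limSub τ l G := ⟨MB, hGB, hLB⟩
  refine ⟨τ, l, G, inferInstance, hG, ?_, ?_, ?_⟩
  · intro i hi
    rcases Nat.eq_zero_or_pos i with h0 | h0
    · rw [h0]; exact hA0
    · have h1 := hpmG (lA (i - 1) (by omega))
      rwa [Nat.sub_add_cancel h0] at h1
  · intro i hi
    rcases Nat.eq_zero_or_pos i with h0 | h0
    · rw [h0]; exact hB0
    · have h1 := hpmG (lB (i - 1) (by omega))
      rwa [Nat.sub_add_cancel h0] at h1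
  · intro j hj
    rcases Nat.lt_or_ge j n with h0 | h0
    · exact hpmG (lC j h0)
    · have h1 : j = n := by omega
      have h2 : C n = (⁅A 0, B 0⁆ * WW g n A B C)⁻¹ := eq_inv_of_mul_eq_one_right h.rel
      rw [h1, h2]
      apply Subgroup.inv_mem
      apply Subgroup.mul_mem
      · rw [commutatorElement_def]
        exact mul_mem (mul_mem (mul_mem hA0 hB0) (inv_mem hA0)) (inv_mem hB0)
      · exact hpmG (WW_mem lA lB lC)

end

end Pool.Agent.LCG
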