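import Pool.Agent.LCG.Contract
import Pool.Agent.LCC.Diag

/-!
# LCG/Collapse: a group with a cusp whose traces can be moved to `[-2, 2]` is not length-commensurable to a
cocompact group
-/

namespace Pool.Agent.LCG

open Matrix Pool.Agent.LCC
open scoped MatrixGroups commutatorElement

/-- The translation lengths of finitely many elements can be made small by a field embedding. -/
def Collapsing (Γ : Subgroup SL(2, ℝ)) : Prop :=
  ∀ F : Set SL(2, ℝ), F.Finite → (∀ g ∈ F, g ∈ Γ) → ∀ δ : ℝ, 0 < δ → ∃ τ : ℝ →+* ℂ, ∀ g ∈ F, ∀ l : ℝ, 1 < l →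
    |tr g| = l + l⁻¹ → |Real.log ‖τ l‖| ≤ δ

theorem exists_eigen {g : SL(2, ℝ)} (h : 2 < |tr g|) : ∃ x : ℝ, 0 < x ∧ |tr g| = 2 * Real.cosh x := by
  refine ⟨Real.arcosh (|tr g| / 2), Real.arcosh_pos (by linarith), ?_⟩
  rw [Real.cosh_arcosh (by linarith)]
  ring

theorem two_cosh (x : ℝ) : 2 * Real.cosh x = Real.exp x + (Real.exp x)⁻¹ := by
  rw [Real.cosh_eq, Real.exp_neg]
  ring

theorem not_lengthComm {Γ₁ Γ₂ : Subgroup SL(2, ℝ)} (hΓ₁ : CompactSurface Γ₁) (hcol : Collapsing Γ₂)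
    {u γ : SL(2, ℝ)} (hu : u ∈ Γ₂) (hγ : γ ∈ Γ₂) (hu2 : tr u = 2) (hb : 0 < bb u γ) : ¬ LengthComm Γ₁ Γ₂ := by
  intro hcomm
  have hsub : ∀ {A B : Set ℝ}, ratMul A = ratMul B → A ⊆ ratMul B := by
    intro A B h x hx
    rw [← h]
    exact ⟨1, x, hx, by simp⟩
  have h12 : lengths Γ₁ ⊆ ratMul (lengths Γ₂) := hsub hcomm
  have h21 : lengths Γ₂ ⊆ ratMul (lengths Γ₁) := hsub hcomm.symm
  obtain ⟨F, hF, hFΓ, hcon⟩ := contract hΓ₁
  -- the relations
  have hrel : ∀ g : SL(2, ℝ), ∃ (g' : SL(2, ℝ)) (p q : ℕ) (M l : ℝ), g' ∈ Γ₂ ∧ 0 < p ∧ (g ∈ F → g ≠ 1 →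
      1 < M ∧ |tr g| = M + M⁻¹ ∧ 1 < l ∧ |tr g'| = l + l⁻¹ ∧ M ^ p = l ^ q) := by
    intro g
    by_cases hg : g ∈ F ∧ g ≠ 1
    · obtain ⟨x, hx0, hx⟩ := exists_eigen (hΓ₁.hyperbolic g (hFΓ g hg.1) hg.2)
      have hmem : 2 * x ∈ lengths Γ₁ := by
        rw [mem_lengths_iff]
        refine ⟨by positivity, g, hFΓ g hg.1, ?_⟩
        rw [mul_div_cancel_left₀ _ (two_ne_zero), hx]
      obtain ⟨r, ℓ, hℓ, hr⟩ := h12 hmem
      obtain ⟨hℓ0, w, hw, hwt⟩ := mem_lengths_iff.mp hℓ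
      have hr0 : 0 < r := by
        have : (0 : ℝ) < r * ℓ := by rw [← hr]; positivity
        exact_mod_cast (mul_pos_iff_of_pos_right hℓ0).mp this
      refine ⟨w, r.den, r.num.toNat, Real.exp x, Real.exp (ℓ / 2), hw, r.den_pos, fun _ _ =>
        ⟨Real.one_lt_exp_iff.mpr hx0, by rw [hx, two_cosh], Real.one_lt_exp_iff.mpr (by positivity),
          by rw [hwt, two_cosh], ?_⟩⟩
      rw [← Real.exp_nat_mul, ← Real.exp_nat_mul]
      congr 1
      have h1 : ((r.num.toNat : ℕ) : ℝ) = (r.num : ℝ) := by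
        have : ((r.num.toNat : ℕ) : ℤ) = r.num := Int.toNat_of_nonneg (Rat.num_pos.mpr hr0).le
        exact_mod_cast this
      have h2 : (r : ℝ) * r.den = r.num := by exact_mod_cast Rat.mul_den_eq_num r
      rw [h1]
      linear_combination (r.den : ℝ) / 2 * hr + ℓ / 2 * h2
    · exact ⟨1, 1, 1, 1, 1, Γ₂.one_mem, one_pos, fun h1 h2 => absurd ⟨h1, h2⟩ hg⟩
  choose g' p q M l hg' hp hrel using hrel
  obtain ⟨D, hD⟩ : ∃ D : ℝ, ∀ g ∈ F, (q g : ℝ) / p g ≤ D := by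
    obtain ⟨D, hD⟩ := (hF.image fun g => (q g : ℝ) / p g).bddAbove
    exact ⟨D, fun g hg => hD ⟨g, hg, rfl⟩⟩
  have hD0 : 0 < 2 * (|D| + 1) := by positivity
  obtain ⟨τ, hτ⟩ := hcol (g' '' F) (hF.image g') (by
    rintro _ ⟨g, -, rfl⟩
    exact hg' g) (1 / (2 * (|D| + 1))) (by positivity)
  have hsmall : ∀ g ∈ F, ‖τ (tr g)‖ ≤ 3 := by
    intro g hg
    by_cases hg1 : g = 1
    · rw [hg1, tr_eq]
      simp
      norm_num
    obtain ⟨hM, hMt, hl, hlt, hpow⟩ := hrel g hg hg1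
    have h1 := hτ (g' g) ⟨g, hg, rfl⟩ (l g) hl hlt
    have hM0 : τ (M g) ≠ 0 := by
      rw [Ne, map_eq_zero]
      linarith
    have hpos : (0 : ℝ) < p g := by exact_mod_cast hp g
    have h2 : p g * |Real.log ‖τ (M g)‖| = q g * |Real.log ‖τ (l g)‖| := by
      have h3 : p g * Real.log ‖τ (M g)‖ = q g * Real.log ‖τ (l g)‖ := by
        rw [← Real.log_pow, ← Real.log_pow, ← norm_pow, ← norm_pow, ← map_pow, ← map_pow, hpow]
      have h4 : |(p g : ℝ) * Real.log ‖τ (M g)‖| = |(q g : ℝ) * Real.log ‖τ (l g)‖| := by rw [h3]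
      rwa [abs_mul, abs_mul, Nat.abs_cast, Nat.abs_cast] at h4
    have h3 : |Real.log ‖τ (M g)‖| ≤ 1 / 2 := by
      have h4 : |Real.log ‖τ (M g)‖| = q g / p g * |Real.log ‖τ (l g)‖| := by
        field_simp
        linarith
      rw [h4]
      calc (q g : ℝ) / p g * |Real.log ‖τ (l g)‖| ≤ (|D| + 1) * (1 / (2 * (|D| + 1))) := by
            have h5 := hD g hg
            have h6 := le_abs_self D
            gcongr
            linarith
        _ = 1 / 2 := by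
          field_simp
    have hn : 0 < ‖τ (M g)‖ := norm_pos_iff.mpr hM0
    have habs : ‖τ (tr g)‖ = ‖τ |tr g|‖ := by
      rcases abs_choice (tr g) with h | h
      · rw [h]
      · rw [h, map_neg, norm_neg]
    rw [habs, hMt, map_add, map_inv₀]
    refine (norm_add_le _ _).trans ?_
    rw [norm_inv]
    have h5 : ‖τ (M g)‖ ≤ Real.exp (1 / 2) := by
      rw [← Real.log_le_iff_le_exp hn]
      exact (abs_le.mp h3).2
    have h6 : ‖τ (M g)‖⁻¹ ≤ Real.exp (1 / 2) := by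
      rw [← Real.log_le_iff_le_exp (inv_pos.mpr hn), Real.log_inv]
      linarith [(abs_le.mp h3).1]
    -- convexity is not needed: both terms are at most `e^(1/2)`, but the sum is at most `2 cosh (1/2)`
    have h7 : ‖τ (M g)‖ + ‖τ (M g)‖⁻¹ = 2 * Real.cosh (Real.log ‖τ (M g)‖) := by
      rw [Real.cosh_log hn]
      ring
    rw [h7, ← Real.cosh_abs]
    have h8 : Real.cosh |Real.log ‖τ (M g)‖| ≤ Real.cosh (1 / 2) := by
      rw [Real.cosh_le_cosh, abs_abs, abs_of_pos (by norm_num : (0 : ℝ) < 1 / 2)]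
      exact h3
    have h9 : Real.cosh (1 / 2) ≤ 3 / 2 := by
      have h10 : Real.cosh (1 / 2) = (Real.exp (1 / 2) + Real.exp (-(1 / 2))) / 2 := Real.cosh_eq _
      have h11 : Real.exp (-(1 / 2)) ≤ 1 := Real.exp_le_one_iff.mpr (by norm_num)
      have h12 : Real.exp (1 / 2) ≤ 2 := by
        have h13 : Real.exp (1 / 2) ^ 2 ≤ 2 ^ 2 := by
          rw [← Real.exp_nat_mul]
          have := Real.exp_one_lt_d9
          norm_num
          linarith
        exact le_of_sq_le_sq h13 (by norm_num)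
      rw [h10]
      linarith
    linarith
  have hcon' := hcon τ hsmall
  obtain ⟨w, hw, M, hM1, hMt, hdiag⟩ := exists_diag h21 hu hγ hu2 hb (ι := Unit)
    (fun _ => τ.comp (algebraMap (kf Γ₁) ℝ)) (show (0 : ℝ) < 1 / 4 by norm_num)
  have hM0 : M ≠ 0 := by linarith
  have hlogM : 0 < Real.log M := Real.log_pos hM1
  have h1 := hcon' (w ^ 2) (Γ₁.pow_mem hw 2) M hM1 (by
    rw [← hMt, abs_of_pos]
    have : 0 < M := by linarith
    positivity)
  have h2 := (hdiag () (τ M) (by rwa [Ne, map_eq_zero]) (by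
    show τ M + (τ M)⁻¹ = τ (tr (w ^ 2))
    rw [← hMt, map_add, map_inv₀])).1
  linarith

end Pool.Agent.LCG
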