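import Pool.Agent.LCG.Par
import Pool.Agent.LCC.Surf

/-!
# LCG/Conj: a normal form for pairs of matrices with hyperbolic product
-/

namespace Pool.Agent.LCG

open Matrix Pool.Agent.LCC
open scoped MatrixGroups commutatorElement

/-- Conjugation by a real matrix. -/
noncomputable def cj (P : Mat) (hP : IsUnit P.det) : SL(2, ℝ) →* SL(2, ℝ) where
  toFun g := ⟨P⁻¹ * (g : Mat) * P, by
    rw [Matrix.det_mul, Matrix.det_mul, g.2, mul_one, ← Matrix.det_mul, Matrix.nonsing_inv_mul _ hP,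
      Matrix.det_one]⟩
  map_one' := by
    apply Subtype.ext
    show P⁻¹ * (1 : Mat) * P = 1
    rw [Matrix.mul_one, Matrix.nonsing_inv_mul _ hP]
  map_mul' a b := by
    apply Subtype.ext
    show P⁻¹ * ((a : Mat) * (b : Mat)) * P = (P⁻¹ * (a : Mat) * P) * (P⁻¹ * (b : Mat) * P)
    calc P⁻¹ * ((a : Mat) * (b : Mat)) * P = P⁻¹ * (a : Mat) * 1 * (b : Mat) * P := by
          simp only [Matrix.mul_one, Matrix.mul_assoc]
      _ = _ := by
        rw [← Matrix.mul_nonsing_inv _ hP]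
        simp only [Matrix.mul_assoc]

theorem tr_cj (P : Mat) (hP : IsUnit P.det) (g : SL(2, ℝ)) : tr (cj P hP g) = tr g := by
  show (P⁻¹ * (g : Mat) * P).trace = (g : Mat).trace
  rw [Matrix.trace_mul_comm, ← Matrix.mul_assoc, Matrix.mul_nonsing_inv _ hP, Matrix.one_mul]

theorem cj_eq {P : Mat} (hP : IsUnit P.det) {g : SL(2, ℝ)} {N : Mat} (h : (g : Mat) * P = P * N) :
    ((cj P hP g : SL(2, ℝ)) : Mat) = N := by
  show P⁻¹ * (g : Mat) * P = N
  rw [Matrix.mul_assoc, h, ← Matrix.mul_assoc, Matrix.nonsing_inv_mul _ hP, Matrix.one_mul]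

theorem exists_normal {A B : SL(2, ℝ)} (hirr : tr ⁅A, B⁆ ≠ 2) (hhyp : 2 ≤ |tr (A * B)|) :
    ∃ (P : Mat) (hP : IsUnit P.det) (x y ζ : ℝ), ζ ≠ 0 ∧ ((cj P hP A : SL(2, ℝ)) : Mat) = !![x, -1; 1, 0] ∧
      ((cj P hP B : SL(2, ℝ)) : Mat) = !![0, ζ; -ζ⁻¹, y] := by
  have hA := det_eq A
  have hB := det_eq B
  -- an eigenvalue of `B A`
  obtain ⟨κ, hκ⟩ : ∃ κ : ℝ, κ ^ 2 - tr (A * B) * κ + 1 = 0 := by
    have hd : 0 ≤ tr (A * B) ^ 2 - 4 := by
      rw [← sq_abs]
      nlinarith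
    refine ⟨(tr (A * B) + √(tr (A * B) ^ 2 - 4)) / 2, ?_⟩
    have := Real.mul_self_sqrt hd
    linear_combination this / 4
  have hκ0 : κ ≠ 0 := by
    rintro rfl
    norm_num at hκ
  rw [tr_eq, mul_entries, mul_entries] at hκ
  obtain ⟨v, hv0, hv⟩ := (Matrix.exists_mulVec_eq_zero_iff (M := (!![B 0 0 * A 0 0 + B 0 1 * A 1 0 - κ,
    B 0 0 * A 0 1 + B 0 1 * A 1 1; B 1 0 * A 0 0 + B 1 1 * A 1 0, B 1 0 * A 0 1 + B 1 1 * A 1 1 - κ] : Mat))).mpr (by
      rw [Matrix.det_fin_two_of]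
      linear_combination hκ + (B 0 0 * B 1 1 - B 0 1 * B 1 0) * hA + hB)
  have hv1 := congrFun hv 0
  have hv2 := congrFun hv 1
  simp [Matrix.mulVec, dotProduct, Fin.sum_univ_two] at hv1 hv2
  obtain ⟨P, hPd⟩ : ∃ P : Mat, P = !![-(A 0 0 * v 0 + A 0 1 * v 1), v 0; -(A 1 0 * v 0 + A 1 1 * v 1), v 1] := ⟨_, rfl⟩
  have hP : IsUnit P.det := by
    rw [isUnit_iff_ne_zero, hPd, Matrix.det_fin_two_of]
    intro h0
    apply hirr
    have h1 : ((A : Mat) * B - (B : Mat) * A).det = 0 := by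
      apply Matrix.exists_mulVec_eq_zero_iff.mp
      refine ⟨v, hv0, ?_⟩
      -- `A v = c v`
      obtain ⟨c, hc1, hc2⟩ : ∃ c, A 0 0 * v 0 + A 0 1 * v 1 = c * v 0 ∧ A 1 0 * v 0 + A 1 1 * v 1 = c * v 1 := by
        by_cases h2 : v 0 = 0
        · have h3 : v 1 ≠ 0 := by
            intro h3
            apply hv0
            funext i
            fin_cases i
            · exact h2
            · exact h3
          refine ⟨(A 1 0 * v 0 + A 1 1 * v 1) / v 1, ?_, ?_⟩
          · field_simp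
            linear_combination -h0
          · field_simp
        · refine ⟨(A 0 0 * v 0 + A 0 1 * v 1) / v 0, ?_, ?_⟩
          · field_simp
          · field_simp
            linear_combination h0
      have hc0 : c ≠ 0 := by
        rintro rfl
        rw [zero_mul] at hc1 hc2
        apply hv0
        funext i
        fin_cases i
        · show v 0 = 0
          linear_combination A 1 1 * hc1 - A 0 1 * hc2 - v 0 * hA
        · show v 1 = 0
          linear_combination - A 1 0 * hc1 + A 0 0 * hc2 - v 1 * hA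
      have hb1 : B 0 0 * v 0 + B 0 1 * v 1 = κ / c * v 0 := by
        field_simp
        linear_combination hv1 - B 0 0 * hc1 - B 0 1 * hc2
      have hb2 : B 1 0 * v 0 + B 1 1 * v 1 = κ / c * v 1 := by
        field_simp
        linear_combination hv2 - B 1 0 * hc1 - B 1 1 * hc2
      funext i
      fin_cases i
      · simp [Matrix.mulVec, dotProduct, Fin.sum_univ_two, Matrix.mul_apply]
        linear_combination A 0 0 * hb1 + A 0 1 * hb2 + κ / c * hc1 - B 0 0 * hc1 - B 0 1 * hc2 - c * hb1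
      · simp [Matrix.mulVec, dotProduct, Fin.sum_univ_two, Matrix.mul_apply]
        linear_combination A 1 0 * hb1 + A 1 1 * hb2 + κ / c * hc2 - B 1 0 * hc1 - B 1 1 * hc2 - c * hb2
    rw [det_comm_SL] at h1
    linarith
  refine ⟨P, hP, A 0 0 + A 1 1, B 0 0 + B 1 1, κ⁻¹, inv_ne_zero hκ0, cj_eq hP ?_, cj_eq hP ?_⟩
  · rw [hPd]
    ext i j
    fin_cases i <;> fin_cases j <;> simp [Matrix.mul_apply, Fin.sum_univ_two]
    · linear_combination v 0 * hA
    · linear_combination v 1 * hA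
  · rw [hPd]
    ext i j
    fin_cases i <;> fin_cases j <;> simp [Matrix.mul_apply, Fin.sum_univ_two]
    · linear_combination - hv1
    · field_simp
      linear_combination B 1 1 * hv1 - B 0 1 * hv2 - (A 0 0 * v 0 + A 0 1 * v 1) * hB
    · linear_combination - hv2
    · field_simp
      linear_combination B 0 0 * hv2 - B 1 0 * hv1 - (A 1 0 * v 0 + A 1 1 * v 1) * hB

end Pool.Agent.LCG
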