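import Pool.Agent.LCG.Conj

/-!
# LCG/Conj0: a normal form for pairs of parabolic matrices
-/

namespace Pool.Agent.LCG

open Matrix Pool.Agent.LCC
open scoped MatrixGroups commutatorElement

/-- A common eigenvector forces the trace of the commutator to be two. -/
theorem tr_comm_of_eigen {A B : SL(2, ℝ)} {v : Fin 2 → ℝ} (hv : v ≠ 0) {c d : ℝ}
    (hA : (A : Mat).mulVec v = c • v) (hB : (B : Mat).mulVec v = d • v) : tr ⁅A, B⁆ = 2 := by
  have h1 : ((A : Mat) * B - (B : Mat) * A).det = 0 := by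
    apply Matrix.exists_mulVec_eq_zero_iff.mp
    refine ⟨v, hv, ?_⟩
    rw [Matrix.sub_mulVec, ← Matrix.mulVec_mulVec, ← Matrix.mulVec_mulVec, hA, hB, Matrix.mulVec_smul,
      Matrix.mulVec_smul, hA, hB, smul_comm, sub_self]
  rw [det_comm_SL] at h1
  linarith

/-- If `det [u, v] = 0` and `v ≠ 0` then `u` is a multiple of `v`. -/
theorem exists_smul {u0 u1 v0 v1 : ℝ} (hv : v0 ≠ 0 ∨ v1 ≠ 0) (h : u0 * v1 - u1 * v0 = 0) :
    ∃ c, u0 = c * v0 ∧ u1 = c * v1 := by
  rcases hv with hv | hv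
  · refine ⟨u0 / v0, ?_, ?_⟩
    · field_simp
    · field_simp
      linear_combination -h
  · refine ⟨u1 / v1, ?_, ?_⟩
    · field_simp
      linear_combination h
    · field_simp

/-- coordinates of a parabolic -/
theorem exists_coord {A : SL(2, ℝ)} (hA : tr A ^ 2 = 4) : ∃ ε x y z : ℝ, ε = tr A / 2 ∧ ε ^ 2 = 1 ∧ x ^ 2 + y * z = 0 ∧
    A 0 0 = ε * (1 + x) ∧ A 0 1 = ε * y ∧ A 1 0 = ε * z ∧ A 1 1 = ε * (1 - x) := by
  obtain ⟨ε, hε⟩ : ∃ ε, ε = tr A / 2 := ⟨_, rfl⟩
  have hε2 : ε ^ 2 = 1 := by rw [hε]; linarith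
  have hd := det_eq A
  have ht : A 0 0 + A 1 1 = 2 * ε := by rw [← tr_eq, hε]; ring
  have h11 : A 1 1 = 2 * ε - A 0 0 := by linarith
  refine ⟨ε, ε * A 0 0 - 1, ε * A 0 1, ε * A 1 0, hε, hε2, ?_, ?_, ?_, ?_, ?_⟩
  · rw [h11] at hd
    linear_combination (A 0 0 ^ 2 + A 0 1 * A 1 0) * hε2 - hd
  · linear_combination - A 0 0 * hε2
  · linear_combination - A 0 1 * hε2
  · linear_combination - A 1 0 * hε2
  · rw [h11]
    linear_combination A 0 0 * hε2

theorem exists_normal0 {A B : SL(2, ℝ)} (hA : tr A ^ 2 = 4) (hB : tr B ^ 2 = 4) (hirr : tr ⁅A, B⁆ ≠ 2) :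
    ∃ (P : Mat) (hP : IsUnit P.det) (s a : ℝ), (s = 1 ∨ s = -1) ∧
      ((cj P hP A : SL(2, ℝ)) : Mat) = (tr A / 2) • !![1, a; 0, 1] ∧
      ((cj P hP B : SL(2, ℝ)) : Mat) = (tr B / 2) • !![1, 0; s * a, 1] := by
  obtain ⟨ε, x, y, z, hε, hε2, hxyz, a1, a2, a3, a4⟩ := exists_coord hA
  obtain ⟨η, x', y', z', hη, hη2, hxyz', b1, b2, b3, b4⟩ := exists_coord hB
  rw [← hε, ← hη]
  -- the eigenvector of `B`
  obtain ⟨v, hv0, hv⟩ := (Matrix.exists_mulVec_eq_zero_iff (M := (!![x', y'; z', -x'] : Mat))).mpr (by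
    rw [Matrix.det_fin_two_of]
    linear_combination -hxyz')
  have hv1 := congrFun hv 0
  have hv2 := congrFun hv 1
  simp [Matrix.mulVec, dotProduct, Fin.sum_univ_two] at hv1 hv2
  have hv0' : v 0 ≠ 0 ∨ v 1 ≠ 0 := by
    by_contra h
    push Not at h
    apply hv0
    funext i
    fin_cases i
    · exact h.1
    · exact h.2
  have hBv : (B : Mat).mulVec v = η • v := by
    funext i
    fin_cases i
    · simp [Matrix.mulVec, dotProduct, Fin.sum_univ_two, b1, b2]
      linear_combination η * hv1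
    · simp [Matrix.mulVec, dotProduct, Fin.sum_univ_two, b3, b4]
      linear_combination η * hv2
  obtain ⟨u0, hu0⟩ : ∃ u0, u0 = x * v 0 + y * v 1 := ⟨_, rfl⟩
  obtain ⟨u1, hu1⟩ : ∃ u1, u1 = z * v 0 - x * v 1 := ⟨_, rfl⟩
  have hdet : u0 * v 1 - u1 * v 0 ≠ 0 := by
    intro h
    obtain ⟨c, hc0, hc1⟩ := exists_smul hv0' h
    apply hirr
    refine tr_comm_of_eigen hv0 (c := ε * (1 + c)) ?_ hBv
    funext i
    fin_cases i
    · simp [Matrix.mulVec, dotProduct, Fin.sum_univ_two, a1, a2]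
      linear_combination ε * hc0 - ε * hu0
    · simp [Matrix.mulVec, dotProduct, Fin.sum_univ_two, a3, a4]
      linear_combination ε * hc1 - ε * hu1
  -- `N u = c v`
  obtain ⟨c, hc0, hc1⟩ : ∃ c, x' * u0 + y' * u1 = c * v 0 ∧ z' * u0 - x' * u1 = c * v 1 := by
    apply exists_smul hv0'
    linear_combination u1 * hv1 - u0 * hv2
  have hcne : c ≠ 0 := by
    rintro rfl
    -- then `u` is a multiple of `v`
    apply hirr
    have hu : (![u0, u1] : Fin 2 → ℝ) ≠ 0 := by
      intro h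
      have h0 := congrFun h 0
      have h1 := congrFun h 1
      simp at h0 h1
      apply hdet
      rw [h0, h1]
      ring
    refine tr_comm_of_eigen hu (c := ε) (d := η) ?_ ?_
    · funext i
      fin_cases i
      · simp [Matrix.mulVec, dotProduct, Fin.sum_univ_two, a1, a2]
        rw [hu0, hu1]
        linear_combination ε * v 0 * hxyz
      · simp [Matrix.mulVec, dotProduct, Fin.sum_univ_two, a3, a4]
        rw [hu0, hu1]
        linear_combination ε * v 1 * hxyz
    · funext i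
      fin_cases i
      · simp [Matrix.mulVec, dotProduct, Fin.sum_univ_two, b1, b2]
        linear_combination η * hc0
      · simp [Matrix.mulVec, dotProduct, Fin.sum_univ_two, b3, b4]
        linear_combination η * hc1
  -- the scaling
  obtain ⟨s, α, hs, hα, hsα⟩ : ∃ s α : ℝ, (s = 1 ∨ s = -1) ∧ α ≠ 0 ∧ α ^ 2 * c = s := by
    rcases lt_or_gt_of_ne hcne with h | h
    · refine ⟨-1, √((-c)⁻¹), Or.inr rfl, ?_, ?_⟩
      · have : 0 < (-c)⁻¹ := inv_pos.mpr (by linarith)
        exact (Real.sqrt_pos.mpr this).ne'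
      · rw [Real.sq_sqrt (inv_pos.mpr (by linarith)).le]
        field_simp
    · refine ⟨1, √(c⁻¹), Or.inl rfl, ?_, ?_⟩
      · exact (Real.sqrt_pos.mpr (inv_pos.mpr h)).ne'
      · rw [Real.sq_sqrt (inv_pos.mpr h).le]
        field_simp
  obtain ⟨P, hPd⟩ : ∃ P : Mat, P = !![α * u0, v 0; α * u1, v 1] := ⟨_, rfl⟩
  have hP : IsUnit P.det := by
    rw [isUnit_iff_ne_zero, hPd, Matrix.det_fin_two_of]
    intro h
    have h1 : α * (u0 * v 1 - u1 * v 0) = 0 := by linear_combination h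
    rcases mul_eq_zero.mp h1 with h2 | h2
    · exact hα h2
    · exact hdet h2
  refine ⟨P, hP, s, α⁻¹, hs, cj_eq hP ?_, cj_eq hP ?_⟩
  · rw [hPd]
    ext i j
    fin_cases i <;> fin_cases j <;> simp [Matrix.mul_apply, Fin.sum_univ_two, a1, a2, a3, a4]
    · rw [hu0, hu1]
      linear_combination ε * α * v 0 * hxyz
    · field_simp
      linear_combination -ε * hu0
    · rw [hu0, hu1]
      linear_combination ε * α * v 1 * hxyz
    · field_simp
      linear_combination -ε * hu1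
  · rw [hPd]
    ext i j
    fin_cases i <;> fin_cases j <;> simp [Matrix.mul_apply, Fin.sum_univ_two, b1, b2, b3, b4]
    · field_simp
      linear_combination η * α ^ 2 * hc0 + η * v 0 * hsα
    · linear_combination η * hv1
    · field_simp
      linear_combination η * α ^ 2 * hc1 + η * v 1 * hsα
    · linear_combination η * hv2

end Pool.Agent.LCG
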