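import Pool.Agent.LCG.Svarc
import Pool.Agent.LCG.Bound
import Pool.Agent.LCC.Surf

/-!
# LCG/Contract: an embedding with small traces on a finite set contracts a cocompact group
-/

namespace Pool.Agent.LCG

open Matrix Pool.Agent.LCC
open scoped MatrixGroups commutatorElement

/-- The image of a matrix under a field embedding. -/
noncomputable def mp (τ : ℝ →+* ℂ) (g : SL(2, ℝ)) : Matrix (Fin 2) (Fin 2) ℂ :=
  (g : Matrix (Fin 2) (Fin 2) ℝ).map τ

theorem mp_mul (τ : ℝ →+* ℂ) (g h : SL(2, ℝ)) : mp τ (g * h) = mp τ g * mp τ h := by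
  rw [mp, Matrix.SpecialLinearGroup.coe_mul, Matrix.map_mul]
  rfl

theorem mp_one (τ : ℝ →+* ℂ) : mp τ 1 = 1 := by
  rw [mp, Matrix.SpecialLinearGroup.coe_one]
  exact Matrix.map_one _ (map_zero τ) (map_one τ)

theorem trace_mp (τ : ℝ →+* ℂ) (g : SL(2, ℝ)) : (mp τ g).trace = τ (tr g) := by
  rw [mp, tr, Matrix.trace_fin_two, Matrix.trace_fin_two, map_add]
  rfl

/-- The products of at most `m` elements of `S`. -/
def Wd (S : Set SL(2, ℝ)) (m : ℕ) : Set SL(2, ℝ) :=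
  {g | ∃ L : List SL(2, ℝ), (∀ s ∈ L, s ∈ S) ∧ L.length ≤ m ∧ g = L.prod}

theorem Wd_finite {S : Set SL(2, ℝ)} (hS : S.Finite) (m : ℕ) : (Wd S m).Finite := by
  have : Finite S := hS.to_subtype
  have h1 : {L : List S | L.length ≤ m}.Finite := List.finite_length_le S m
  refine (h1.image (fun L => (L.map Subtype.val).prod)).subset ?_
  rintro g ⟨L, hL, hlen, rfl⟩
  refine ⟨L.attachWith _ hL, ?_, ?_⟩
  · show (L.attachWith _ hL).length ≤ m
    rwa [List.length_attachWith]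
  · simp

theorem Wd_mul {S : Set SL(2, ℝ)} {m n : ℕ} {g h : SL(2, ℝ)} (hg : g ∈ Wd S m) (hh : h ∈ Wd S n) :
    g * h ∈ Wd S (m + n) := by
  obtain ⟨L, hL, hlen, rfl⟩ := hg
  obtain ⟨L', hL', hlen', rfl⟩ := hh
  refine ⟨L ++ L', ?_, ?_, ?_⟩
  · intro s hs
    rcases List.mem_append.mp hs with h | h
    · exact hL s h
    · exact hL' s h
  · rw [List.length_append]
    omega
  · rw [List.prod_append]

theorem one_mem_Wd (S : Set SL(2, ℝ)) (m : ℕ) : 1 ∈ Wd S m := ⟨[], by simp, by simp, by simp⟩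

theorem mem_Wd {S : Set SL(2, ℝ)} {s : SL(2, ℝ)} (hs : s ∈ S) {m : ℕ} (hm : 1 ≤ m) : s ∈ Wd S m :=
  ⟨[s], by simpa using hs, by simpa using hm, by simp⟩

theorem chunk {S : Set SL(2, ℝ)} {m : ℕ} (τ : ℝ →+* ℂ) : ∀ (q : ℕ) (L : List SL(2, ℝ)), (∀ s ∈ L, s ∈ S) →
    L.length ≤ m * q → ∃ L' : List (Matrix (Fin 2) (Fin 2) ℂ), (∀ s ∈ L', s ∈ mp τ '' Wd S m) ∧
      L'.length = q ∧ L'.prod = mp τ L.prod := by
  intro q
  induction q with
  | zero =>
    intro L hL hlen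
    have h1 : L = [] := by
      rw [← List.length_eq_zero_iff]
      omega
    subst h1
    exact ⟨[], by simp, by simp, by simp [mp_one]⟩
  | succ q ih =>
    intro L hL hlen
    obtain ⟨L', hL', hlen', hprod⟩ := ih (L.drop m) (fun s hs => hL s (List.mem_of_mem_drop hs)) (by
      rw [List.length_drop]
      rw [Nat.mul_succ] at hlen
      omega)
    refine ⟨mp τ (L.take m).prod :: L', ?_, by rw [List.length_cons, hlen'], ?_⟩
    · intro s hs
      rcases List.mem_cons.mp hs with h | h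
      · rw [h]
        exact ⟨_, ⟨L.take m, fun s hs => hL s (List.mem_of_mem_take hs), by
          rw [List.length_take]; exact min_le_left _ _, rfl⟩, rfl⟩
      · exact hL' s h
    · rw [List.prod_cons, hprod, ← mp_mul, List.prod_take_mul_prod_drop]

/-- The determinant of the traceless parts of `a`, `b`, `a b`. -/
theorem rows_det (a b : Matrix (Fin 2) (Fin 2) ℂ) :
    (rows ![a, b, a * b]).det = Complex.I / 4 * (a * b - b * a).det := by
  have hI := Complex.I_sq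
  have hI3 : Complex.I ^ 3 = - Complex.I := by
    rw [pow_succ, hI]; ring
  rw [rows, Matrix.det_fin_three, Matrix.det_fin_two]
  simp only [Matrix.of_apply, vc, Matrix.cons_val_zero, Matrix.cons_val_one, Matrix.cons_val, Matrix.sub_apply,
    Matrix.mul_apply, Fin.sum_univ_two]
  ring_nf

theorem norm_pow_add_ge {z : ℂ} (hz : z ≠ 0) (N : ℕ) :
    Real.exp (N * |Real.log ‖z‖|) - 1 ≤ ‖z ^ N + (z ^ N)⁻¹‖ := by
  have key : ∀ y : ℂ, y ≠ 0 → 1 ≤ ‖y‖ → Real.exp (N * Real.log ‖y‖) - 1 ≤ ‖y ^ N + (y ^ N)⁻¹‖ := by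
    intro y hy h1
    have hpos : 0 < ‖y‖ := norm_pos_iff.mpr hy
    rw [Real.exp_nat_mul, Real.exp_log hpos]
    have h2 := norm_sub_norm_le (y ^ N) (-(y ^ N)⁻¹)
    rw [norm_neg, norm_inv, sub_neg_eq_add, norm_pow] at h2
    have h3 : (‖y‖ ^ N)⁻¹ ≤ 1 := inv_le_one_of_one_le₀ (one_le_pow₀ h1)
    linarith
  rcases le_total 1 ‖z‖ with h1 | h1
  · rw [abs_of_nonneg (Real.log_nonneg h1)]
    exact key z hz h1
  · have h2 := key z⁻¹ (inv_ne_zero hz) (by
      rw [norm_inv]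
      exact (one_le_inv₀ (norm_pos_iff.mpr hz)).mpr h1)
    rw [norm_inv, Real.log_inv, inv_pow, inv_inv, add_comm (z ^ N)⁻¹] at h2
    rw [abs_of_nonpos (Real.log_nonpos (norm_nonneg z) h1)]
    exact h2

theorem tr_mul_add (g h : SL(2, ℝ)) : tr (g * h) + tr (g⁻¹ * h) = tr g * tr h := by
  obtain ⟨g1, g2, g3, g4⟩ := inv_entries g
  rw [tr_eq, tr_eq, tr_eq, tr_eq]
  simp only [mul_entries, g1, g2, g3, g4]
  ring

theorem tr_pow {g : SL(2, ℝ)} {μ : ℝ} (hμ : μ ≠ 0) (h : tr g = μ + μ⁻¹) (N : ℕ) :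
    tr (g ^ N) = μ ^ N + (μ ^ N)⁻¹ := by
  induction N using Nat.strong_induction_on with
  | _ N ih =>
    match N with
    | 0 =>
      rw [pow_zero, pow_zero, tr_eq]
      simp
    | 1 => rw [pow_one, pow_one, h]
    | N + 2 =>
      have h1 := tr_mul_add g (g ^ (N + 1))
      have e1 : g⁻¹ * g ^ (N + 1) = g ^ N := by rw [pow_succ' g N, inv_mul_cancel_left]
      have e2 : g * g ^ (N + 1) = g ^ (N + 2) := by rw [← pow_succ']
      rw [e1, e2, ih N (by omega), ih (N + 1) (by omega), h] at h1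
      have : tr (g ^ (N + 2)) = (μ + μ⁻¹) * (μ ^ (N + 1) + (μ ^ (N + 1))⁻¹) - (μ ^ N + (μ ^ N)⁻¹) := by
        linarith
      rw [this]
      field_simp
      ring

/-- For a cocompact group there is a finite set of elements such that every embedding with small traces on this
set contracts all the translation lengths by a factor at least two. -/
theorem contract {Γ : Subgroup SL(2, ℝ)} (hΓ : CompactSurface Γ) :
    ∃ F : Set SL(2, ℝ), F.Finite ∧ (∀ g ∈ F, g ∈ Γ) ∧ ∀ τ : ℝ →+* ℂ, (∀ g ∈ F, ‖τ (tr g)‖ ≤ 3) →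
      ∀ w ∈ Γ, ∀ μ : ℝ, 1 < μ → |tr w| = μ + μ⁻¹ → |Real.log ‖τ μ‖| ≤ 1 / 2 * Real.log μ := by
  obtain ⟨S₀, hS₀, hS₀Γ, hwords⟩ := exists_words hΓ
  obtain ⟨a, ha, b, hb, hab⟩ := hΓ.nonabelian
  obtain ⟨C₀, hC₀, hbound⟩ := exists_bound
  have hcomm : tr ⁅a, b⁆ ≠ 2 := by
    intro h
    have h1 : ⁅a, b⁆ ≠ 1 := by
      intro h
      exact hab (commutatorElement_eq_one_iff_mul_comm.mp h)
    have h2 := hΓ.hyperbolic ⁅a, b⁆ (by
      rw [commutatorElement_def]
      exact mul_mem (mul_mem (mul_mem ha hb) (inv_mem ha)) (inv_mem hb)) h1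
    rw [h] at h2
    norm_num at h2
  have hlog : 0 < Real.log C₀ := Real.log_pos hC₀
  obtain ⟨S, hS⟩ : ∃ S, S = insert a (insert b S₀) := ⟨_, rfl⟩
  have hSfin : S.Finite := by
    rw [hS]
    exact (hS₀.insert b).insert a
  have hSΓ : ∀ s ∈ S, s ∈ Γ := by
    intro s hs
    rw [hS] at hs
    rcases hs with rfl | rfl | hs
    · exact ha
    · exact hb
    · exact hS₀Γ s hs
  have haS : a ∈ S := by rw [hS]; exact Or.inl rfl
  have hbS : b ∈ S := by rw [hS]; exact Or.inr (Or.inl rfl)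
  have hS₀S : S₀ ⊆ S := by
    rw [hS]
    intro s hs
    exact Or.inr (Or.inr hs)
  obtain ⟨m, hm2, hm⟩ : ∃ m : ℕ, 2 ≤ m ∧ 4 * Real.log C₀ ≤ m := by
    refine ⟨max 2 ⌈4 * Real.log C₀⌉₊, le_max_left _ _, (Nat.le_ceil _).trans ?_⟩
    exact_mod_cast le_max_right 2 ⌈4 * Real.log C₀⌉₊
  have hm0 : (0 : ℝ) < m := by
    have : 0 < m := by omega
    exact_mod_cast this
  refine ⟨Wd S (m + m), Wd_finite hSfin _, ?_, fun τ hτ w hw μ hμ htr => ?_⟩
  · rintro g ⟨L, hL, -, rfl⟩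
    exact Subgroup.list_prod_mem _ (fun s hs => hSΓ s (hL s hs))
  have hμ0 : 0 < μ := by linarith
  have hlogμ : 0 < Real.log μ := Real.log_pos hμ
  -- the bound for lists
  have hB := hbound (mp τ '' Wd S m) ((Wd_finite hSfin m).image _) ⟨1, one_mem_Wd S m, mp_one τ⟩ (by
    rintro _ ⟨g, hg, rfl⟩ _ ⟨h, hh, rfl⟩
    rw [← mp_mul, trace_mp]
    exact hτ _ (Wd_mul hg hh)) (by
    refine ⟨![mp τ a, mp τ b, mp τ a * mp τ b], ?_, ?_⟩
    · intro i
      fin_cases i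
      · exact ⟨a, mem_Wd haS (by omega), rfl⟩
      · exact ⟨b, mem_Wd hbS (by omega), rfl⟩
      · refine ⟨a * b, ⟨[a, b], ?_, by simpa using hm2, by simp⟩, mp_mul τ a b⟩
        intro s hs
        simp only [List.mem_cons, List.not_mem_nil, or_false] at hs
        rcases hs with rfl | rfl
        · exact haS
        · exact hbS
    · rw [rows_det]
      apply mul_ne_zero
      · simp
      · have h1 : mp τ a * mp τ b - mp τ b * mp τ a = ((a : Mat) * b - (b : Mat) * a).map τ := by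
          rw [Matrix.map_sub _ (map_sub τ), Matrix.map_mul, Matrix.map_mul]
          rfl
        rw [h1, ← RingHom.mapMatrix_apply, ← RingHom.map_det, det_comm_SL, Ne, map_eq_zero]
        intro h2
        exact hcomm (by linarith))
  -- the sign of the trace
  obtain ⟨μ', hμ', hμ'0, hμ't⟩ : ∃ μ' : ℝ, ‖τ μ'‖ = ‖τ μ‖ ∧ μ' ≠ 0 ∧ tr w = μ' + μ'⁻¹ := by
    rcases abs_choice (tr w) with h1 | h1
    · exact ⟨μ, rfl, hμ0.ne', by rw [← h1, htr]⟩
    · refine ⟨-μ, by rw [map_neg, norm_neg], neg_ne_zero.mpr hμ0.ne', ?_⟩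
      rw [inv_neg]
      linarith
  have hτμ' : τ μ' ≠ 0 := by rwa [Ne, map_eq_zero]
  obtain ⟨ℓ, hℓ⟩ : ∃ ℓ, ℓ = 2 * Real.log μ := ⟨_, rfl⟩
  have hcosh : |tr w| = 2 * Real.cosh (ℓ / 2) := by
    rw [htr, hℓ, mul_div_cancel_left₀ _ (two_ne_zero), Real.cosh_log hμ0]
    ring
  have key : ∀ N : ℕ, N * (|Real.log ‖τ μ'‖| - ℓ / m * Real.log C₀) ≤ Real.log 2 + 3 * Real.log C₀ := by
    intro N
    obtain ⟨h, hh, L, hL, hlen, hprod⟩ := hwords w hw ℓ (by rw [hℓ]; positivity) hcosh N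
    obtain ⟨q, hq⟩ : ∃ q : ℕ, q = ⌈(N * ℓ + 1) / m⌉₊ := ⟨_, rfl⟩
    have hNℓ : 0 ≤ N * ℓ + 1 := by
      have : 0 ≤ ℓ := by rw [hℓ]; positivity
      positivity
    have hq1 : (N * ℓ + 1) / m ≤ q := by rw [hq]; exact Nat.le_ceil _
    have hq2 : (q : ℝ) < (N * ℓ + 1) / m + 1 := by rw [hq]; exact Nat.ceil_lt_add_one (by positivity)
    have hLq : L.length ≤ m * q := by
      rw [div_le_iff₀ hm0] at hq1
      have : (L.length : ℝ) ≤ m * q := by linarith
      exact_mod_cast this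
    obtain ⟨L', hL', hlen', hprod'⟩ := chunk τ q L (fun s hs => hS₀S (hL s hs)) hLq
    have h1 := hB L' hL'
    rw [hprod', trace_mp, ← hprod, tr_conj, tr_pow hμ'0 hμ't, hlen', map_add, map_inv₀, map_pow] at h1
    have h2 := (norm_pow_add_ge hτμ' N).trans h1
    have h3 : 1 ≤ C₀ ^ (q + 1) := one_le_pow₀ hC₀.le
    have h4 : Real.exp (N * |Real.log ‖τ μ'‖|) ≤ 2 * C₀ ^ (q + 1) := by linarith
    have h5 := Real.log_le_log (Real.exp_pos _) h4
    rw [Real.log_exp, Real.log_mul two_ne_zero (by positivity), Real.log_pow] at h5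
    push_cast at h5
    have h6 : ((q : ℝ) + 1) * Real.log C₀ ≤ ((N * ℓ + 1) / m + 1 + 1) * Real.log C₀ := by gcongr
    have h7 : 1 / (m : ℝ) ≤ 1 := by
      rw [div_le_one hm0]
      have : 1 ≤ m := by omega
      exact_mod_cast this
    have h8 : ((N * ℓ + 1) / m + 1 + 1) * Real.log C₀ = N * (ℓ / m * Real.log C₀) + (1 / m + 2) * Real.log C₀ := by
      field_simp
      ring
    have h9 : (1 / (m : ℝ) + 2) * Real.log C₀ ≤ 3 * Real.log C₀ := by
      apply mul_le_mul_of_nonneg_right _ hlog.le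
      linarith
    linarith
  have hfin : |Real.log ‖τ μ'‖| ≤ ℓ / m * Real.log C₀ := by
    by_contra hcon
    push Not at hcon
    obtain ⟨N, hN⟩ := exists_nat_gt ((Real.log 2 + 3 * Real.log C₀) / (|Real.log ‖τ μ'‖| - ℓ / m * Real.log C₀))
    have hpos : 0 < |Real.log ‖τ μ'‖| - ℓ / m * Real.log C₀ := by linarith
    rw [div_lt_iff₀ hpos] at hN
    have := key N
    linarith
  rw [← hμ']
  refine hfin.trans ?_
  rw [hℓ]
  have h1 : Real.log C₀ ≤ m / 4 := by linarith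
  calc 2 * Real.log μ / m * Real.log C₀ ≤ 2 * Real.log μ / m * (m / 4) := by gcongr
    _ = 1 / 2 * Real.log μ := by
      field_simp
      norm_num

end Pool.Agent.LCG
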