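import Pool.Agent.LCG.Sphere

/-!
# LCG/Gen: generic surfaces with cusps
-/

namespace Pool.Agent.LCG

open Pool.Agent.LCC
open scoped MatrixGroups commutatorElement

/-- `Γ` is generated by the standard generators `A i, B i` (`i < g`), `C j` (`j < n`) of the fundamental group of a
surface of genus `g` with `n` punctures. The `C j` are parabolic and the product of the signs of their traces is
`(-1) ^ n`; neither `A i` and `B i`, nor `C j` and `C k` for `j ≠ k`, have a common eigenvector; `Γ` has no elliptic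
elements. All this holds for every group `Γ` in `SL(2, ℝ)` generated by lifts of the standard generators of the
fundamental group of a complete hyperbolic surface of finite area with the relation satisfied. -/
def CuspedSurface (g n : ℕ) (Γ : Subgroup SL(2, ℝ)) : Prop :=
  ∃ A B C : ℕ → SL(2, ℝ), Γ = Subgroup.closure {x | (∃ i < g, x = A i ∨ x = B i) ∨ ∃ j < n, x = C j} ∧
    ((List.range g).map fun i => ⁅A i, B i⁆).prod * ((List.range n).map C).prod = 1 ∧
    (∀ j < n, |tr (C j)| = 2 ∧ C j ≠ 1 ∧ C j ≠ -1) ∧ ((List.range n).map fun j => tr (C j) / 2).prod = (-1) ^ n ∧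
    (∀ i < g, tr ⁅A i, B i⁆ ≠ 2) ∧ (∀ j < n, ∀ k < n, j ≠ k → tr ⁅C j, C k⁆ ≠ 2) ∧ ∀ γ ∈ Γ, 2 ≤ |tr γ|

theorem CuspedSurface.collapsing {g n : ℕ} (hn : 1 ≤ n) (hgn : 1 ≤ g ∨ Even n) {Γ : Subgroup SL(2, ℝ)}
    (hΓ : CuspedSurface g n Γ) (htd : ((6 * g + 2 * n - 6 : ℕ) : Cardinal) ≤ Algebra.trdeg ℚ (kf Γ)) :
    Collapsing Γ := by
  obtain ⟨A, B, C, hcl, hrel, hpar, hsgn, hAB, hCC, hell⟩ := hΓ
  rcases Nat.eq_zero_or_pos g with h0 | h0
  · subst h0
    have heven : Even n := by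
      rcases hgn with h | h
      · omega
      · exact h
    have hn2 : 2 ≤ n := by
      obtain ⟨m, hm⟩ := heven
      omega
    have hirr := hCC 0 (by omega) 1 (by omega) (by omega)
    rcases Nat.lt_or_ge n 4 with h4 | h4
    · -- `n = 2` is impossible
      exfalso
      have h2 : n = 2 := by
        obtain ⟨m, hm⟩ := heven
        omega
      subst h2
      apply hirr
      have h1 : C 0 * C 1 = 1 := by
        have h2 : (List.range 2).map C = [C 0, C 1] := rfl
        rw [h2] at hrel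
        simpa using hrel
      have h2 : C 1 = (C 0)⁻¹ := eq_inv_of_mul_eq_one_right h1
      have h3 : ⁅C 0, C 1⁆ = 1 := by
        rw [commutatorElement_eq_one_iff_mul_comm, h2, mul_inv_cancel, inv_mul_cancel]
      rw [h3, tr_eq]
      simp
      norm_num
    · refine sphere_collapsing h4 heven ⟨C, ?_, ?_, hpar, hsgn, hirr⟩ ?_
      · rw [hcl]
        congr 1
        ext x
        simp
      · simpa using hrel
      · have h5 : 6 * 0 + 2 * n - 6 = 2 * n - 6 := by omega
        rwa [h5] at htd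
  · refine cusped_collapsing h0 hn ⟨A, B, C, hcl, hrel, hpar, hAB 0 h0, ?_⟩ ?_
    · apply hell
      rw [hcl]
      exact mul_mem (Subgroup.subset_closure (Or.inl ⟨0, h0, Or.inl rfl⟩))
        (Subgroup.subset_closure (Or.inl ⟨0, h0, Or.inr rfl⟩))
    · have h5 : 6 * g - 6 + 2 * n = 6 * g + 2 * n - 6 := by omega
      rwa [h5]

theorem CuspedSurface.exists_bb {g n : ℕ} (hn : 1 ≤ n) (hgn : 1 ≤ g ∨ Even n) {Γ : Subgroup SL(2, ℝ)}
    (hΓ : CuspedSurface g n Γ) : ∃ u ∈ Γ, ∃ γ ∈ Γ, tr u = 2 ∧ 0 < bb u γ := by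
  obtain ⟨A, B, C, hcl, -, hpar, -, hAB, hCC, -⟩ := hΓ
  have hC : ∀ j < n, C j ∈ Γ := fun j hj => by
    rw [hcl]
    exact Subgroup.subset_closure (Or.inr ⟨j, hj, rfl⟩)
  obtain ⟨h1, h2, h3⟩ := hpar 0 hn
  obtain ⟨u, hu, hu2, hu1⟩ := exists_unipotent (hC 0 hn) h1 h2 h3
  have hfix : NoFix Γ := by
    rcases Nat.eq_zero_or_pos g with h0 | h0
    · have hn2 : 2 ≤ n := by
        rcases hgn with h | ⟨m, hm⟩
        · omega
        · omega
      exact noFix_of_comm (hC 0 hn) (hC 1 hn2) (hCC 0 hn 1 hn2 (by omega))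
    · refine noFix_of_comm (a := A 0) (b := B 0) ?_ ?_ (hAB 0 h0)
      · rw [hcl]
        exact Subgroup.subset_closure (Or.inl ⟨0, h0, Or.inl rfl⟩)
      · rw [hcl]
        exact Subgroup.subset_closure (Or.inl ⟨0, h0, Or.inr rfl⟩)
  obtain ⟨γ, hγ, hb⟩ := exists_bb_pos hfix hu2 hu1
  exact ⟨u, hu, γ, hγ, hu2, hb⟩

end Pool.Agent.LCG
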