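import Pool.Agent.LCG.Par

/-!
# LCG/Gps: two groups of matrices with traces in `[-2, 2]`
-/

namespace Pool.Agent.LCG

open Matrix Filter Topology Pool.Agent.LCC ComplexConjugate
open scoped MatrixGroups commutatorElement

theorem mul_entries' (g h : SL(2, ℂ)) (i j : Fin 2) :
    (g * h : SL(2, ℂ)) i j = g i 0 * h 0 j + g i 1 * h 1 j := by
  rw [Matrix.SpecialLinearGroup.coe_mul, Matrix.mul_apply, Fin.sum_univ_two]

theorem inv_entries' (g : SL(2, ℂ)) : (g⁻¹ : SL(2, ℂ)) 0 0 = g 1 1 ∧ (g⁻¹ : SL(2, ℂ)) 0 1 = - g 0 1 ∧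
    (g⁻¹ : SL(2, ℂ)) 1 0 = - g 1 0 ∧ (g⁻¹ : SL(2, ℂ)) 1 1 = g 0 0 := by
  rw [Matrix.SpecialLinearGroup.SL2_inv_expl]
  exact ⟨rfl, rfl, rfl, rfl⟩

theorem det_eq' (g : SL(2, ℂ)) : g 0 0 * g 1 1 - g 0 1 * g 1 0 = 1 := by
  have h := g.2
  rwa [Matrix.det_fin_two] at h

/-- The special unitary group. -/
def su2 : Subgroup SL(2, ℂ) where
  carrier := {M | M 1 1 = conj (M 0 0) ∧ M 1 0 = - conj (M 0 1)}
  mul_mem' := by
    rintro a b ⟨h1, h2⟩ ⟨h3, h4⟩
    constructor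
    · rw [mul_entries', mul_entries', h1, h2, h3, h4, map_add, map_mul, map_mul, map_neg, Complex.conj_conj]
      ring
    · rw [mul_entries', mul_entries', h1, h2, h3, h4, map_add, map_mul, map_mul, Complex.conj_conj]
      ring
  one_mem' := by
    constructor <;> simp
  inv_mem' := by
    rintro a ⟨h1, h2⟩
    obtain ⟨g1, g2, g3, g4⟩ := inv_entries' a
    constructor
    · rw [g1, g4, h1, Complex.conj_conj]
    · rw [g2, g3, h2, map_neg]

/-- The matrices with eigenvector `(1, s)` and eigenvalue of norm one. -/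
def fixG (s : ℂ) : Subgroup SL(2, ℂ) where
  carrier := {M | ∃ e : ℂ, ‖e‖ = 1 ∧ M 0 0 + M 0 1 * s = e ∧ M 1 0 + M 1 1 * s = e * s}
  mul_mem' := by
    rintro a b ⟨e, he, h1, h2⟩ ⟨e', he', h3, h4⟩
    refine ⟨e * e', by rw [norm_mul, he, he', one_mul], ?_, ?_⟩
    · rw [mul_entries', mul_entries']
      linear_combination a 0 0 * h3 + a 0 1 * h4 + e' * h1
    · rw [mul_entries', mul_entries']
      linear_combination a 1 0 * h3 + a 1 1 * h4 + e' * h2
  one_mem' := ⟨1, by simp, by simp, by simp⟩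
  inv_mem' := by
    rintro a ⟨e, he, h1, h2⟩
    obtain ⟨g1, g2, g3, g4⟩ := inv_entries' a
    have hd := det_eq' a
    have he0 : e ≠ 0 := by
      rintro rfl
      norm_num at he
    refine ⟨e⁻¹, by rw [norm_inv, he, inv_one], ?_, ?_⟩
    · rw [g1, g2]
      field_simp
      linear_combination - a 1 1 * h1 + a 0 1 * h2 + hd
    · rw [g3, g4]
      field_simp
      linear_combination a 1 0 * h1 - a 0 0 * h2 + s * hd

theorem su2_trace {M : SL(2, ℂ)} (hM : M ∈ su2) :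
    ∃ e : ℂ, ‖e‖ = 1 ∧ (M : Matrix (Fin 2) (Fin 2) ℂ).trace = e + e⁻¹ := by
  obtain ⟨h1, h2⟩ := hM
  have hd := det_eq' M
  rw [h1, h2] at hd
  have h3 : (M 0 0).re ^ 2 ≤ 1 := by
    have h4 := congrArg Complex.re hd
    simp at h4
    nlinarith [sq_nonneg (M 0 0).im, sq_nonneg (M 0 1).im, sq_nonneg (M 0 1).re]
  have h5 : 0 ≤ 1 - (M 0 0).re ^ 2 := by linarith
  have h6 := Real.mul_self_sqrt h5
  obtain ⟨e, he⟩ : ∃ e : ℂ, e = ⟨(M 0 0).re, √(1 - (M 0 0).re ^ 2)⟩ := ⟨_, rfl⟩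
  have he1 : ‖e‖ = 1 := by
    have : ‖e‖ ^ 2 = 1 := by
      rw [Complex.sq_norm, Complex.normSq_apply, he]
      simp only
      linarith
    have h7 := norm_nonneg e
    nlinarith
  refine ⟨e, he1, ?_⟩
  have hinv : e⁻¹ = conj e := by
    rw [Complex.inv_def, Complex.normSq_eq_norm_sq, he1]
    simp
  rw [hinv, Matrix.trace_fin_two, h1, Complex.add_conj, Complex.add_conj, he]

theorem fixG_trace {s : ℂ} {M : SL(2, ℂ)} (hM : M ∈ fixG s) :
    ∃ e : ℂ, ‖e‖ = 1 ∧ (M : Matrix (Fin 2) (Fin 2) ℂ).trace = e + e⁻¹ := by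
  obtain ⟨e, he, h1, h2⟩ := hM
  have hd := det_eq' M
  have he0 : e ≠ 0 := by
    rintro rfl
    norm_num at he
  refine ⟨e, he, ?_⟩
  rw [Matrix.trace_fin_two]
  field_simp
  linear_combination -(M 1 1 - e) * h1 + M 0 1 * h2 + hd

theorem pm_le_su2 : pm ≤ su2 := by
  rintro M (rfl | rfl)
  · exact su2.one_mem
  · constructor <;> simp

theorem pm_le_fixG (s : ℂ) : pm ≤ fixG s := by
  rintro M (rfl | rfl)
  · exact (fixG s).one_mem
  · exact ⟨-1, by simp, by simp, by simp⟩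

end Pool.Agent.LCG
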