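import Pool.Agent.LCG.Auto
import Pool.Agent.LCG.Conj
import Pool.Agent.LCG.Gps

/-!
# LCG/Generic: generic surfaces with punctures are collapsing
-/

namespace Pool.Agent.LCG

open Matrix Filter Topology Cardinal Pool.Agent.LCC
open scoped MatrixGroups commutatorElement

/-- Embeddings which move an independent family to a given place in the limit. -/
theorem exists_seq {ι : Type} [Fintype ι] {y : ι → ℝ} (hy : AlgebraicIndependent ℚ y) (c : ι → ℂ) :
    ∃ τ : ℕ → ℝ →+* ℂ, ∀ i, Tendsto (fun k => τ k (y i)) atTop (𝓝 (c i)) := by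
  have h1 : ∀ k : ℕ, ∃ τ : ℝ →+* ℂ, ∀ i, ‖τ (y i) - c i‖ < 1 / ((k : ℝ) + 1) := fun k =>
    exists_hom hy c (by positivity)
  choose τ hτ using h1
  refine ⟨τ, fun i => ?_⟩
  rw [tendsto_iff_norm_sub_tendsto_zero]
  exact squeeze_zero (fun k => norm_nonneg _) (fun k => (hτ k i).le) tendsto_one_div_add_atTop_nhds_zero_nat

/-- The index set of the coordinates. -/
abbrev Kap (g n : ℕ) : Type := (Fin g × Fin 2 × Fin 3) ⊕ (Fin n × Fin 2)

/-- The coordinates of the matrices `A 1, B 1, …, A g, B g, C 0, …, C (n - 1)`. -/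
noncomputable def pW (g n : ℕ) (A B C : ℕ → SL(2, ℝ)) : Kap g n → ℝ :=
  Sum.elim (fun p => par3 (if p.2.1 = 0 then A (p.1 + 1) else B (p.1 + 1)) p.2.2) (fun p => par2 (C p.1) p.2)

/-- The place to which the coordinates are moved. -/
noncomputable def cW (g n : ℕ) : Kap g n → ℂ := Sum.elim (fun p => if p.2.2 = 0 then 1 else 0) (fun _ => 0)

theorem card_Kap (g n : ℕ) : Fintype.card (Kap g n) = 6 * g + 2 * n := by
  simp [Kap]
  ring

/-- The product of the commutators and of the parabolics of known type. -/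
def WW (g n : ℕ) (A B C : ℕ → SL(2, ℝ)) : SL(2, ℝ) :=
  ((List.range g).map fun i => ⁅A (i + 1), B (i + 1)⁆).prod * ((List.range n).map C).prod

/-- The membership of the word in a subgroup. -/
theorem WW_mem {g n : ℕ} {A B C : ℕ → SL(2, ℝ)} {G : Subgroup SL(2, ℝ)}
    (hA : ∀ i < g, A (i + 1) ∈ G) (hB : ∀ i < g, B (i + 1) ∈ G) (hC : ∀ j < n, C j ∈ G) : WW g n A B C ∈ G := by
  apply G.mul_mem
  · apply Subgroup.list_prod_mem
    intro x hx
    obtain ⟨i, hi, rfl⟩ := List.mem_map.mp hx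
    have hi' := List.mem_range.mp hi
    rw [commutatorElement_def]
    exact G.mul_mem (G.mul_mem (G.mul_mem (hA i hi') (hB i hi')) (G.inv_mem (hA i hi'))) (G.inv_mem (hB i hi'))
  · apply Subgroup.list_prod_mem
    intro x hx
    obtain ⟨i, hi, rfl⟩ := List.mem_map.mp hx
    exact hC i (List.mem_range.mp hi)

/-- Groups of surfaces in normal form: genus `g + 1`, with `n + 1` punctures. -/
structure NF (g n : ℕ) (A B C : ℕ → SL(2, ℝ)) (x y ζ : ℝ) : Prop where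
  ζ0 : ζ ≠ 0
  A0 : (A 0 : Mat) = !![x, -1; 1, 0]
  B0 : (B 0 : Mat) = !![0, ζ; -ζ⁻¹, y]
  rel : ⁅A 0, B 0⁆ * WW g n A B C * C n = 1
  par : ∀ j < n + 1, tr (C j) ^ 2 = 4

section

variable {g n : ℕ} {A B C : ℕ → SL(2, ℝ)} {x y ζ : ℝ}

theorem NF.entA (h : NF g n A B C x y ζ) : A 0 0 0 = x ∧ A 0 0 1 = -1 ∧ A 0 1 0 = 1 ∧ A 0 1 1 = 0 := by
  rw [h.A0]
  simp

theorem NF.entB (h : NF g n A B C x y ζ) : B 0 0 0 = 0 ∧ B 0 0 1 = ζ ∧ B 0 1 0 = -ζ⁻¹ ∧ B 0 1 1 = y := by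
  rw [h.B0]
  simp

/-- the quadratic equation -/
theorem NF.eqn (h : NF g n A B C x y ζ) :
    (WW g n A B C) 0 0 * x ^ 2 + (-y * (ζ + ζ⁻¹) * (WW g n A B C) 0 0 + (WW g n A B C) 1 0 * ζ ^ 2 +
      (WW g n A B C) 0 1) * x + ((y ^ 2 + ζ⁻¹ ^ 2) * (WW g n A B C) 0 0 -
      y * ζ * ((WW g n A B C) 1 0 + (WW g n A B C) 0 1) + (WW g n A B C) 1 1 * ζ ^ 2 - tr (C n)) = 0 := by
  have h1 : tr (⁅A 0, B 0⁆ * WW g n A B C) = tr (C n) := by
    have h2 : ⁅A 0, B 0⁆ * WW g n A B C = (C n)⁻¹ := eq_inv_of_mul_eq_one_left h.rel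
    obtain ⟨g1, g2, g3, g4⟩ := inv_entries (C n)
    rw [h2, tr_eq, tr_eq, g1, g4]
    ring
  obtain ⟨a1, a2, a3, a4⟩ := h.entA
  obtain ⟨b1, b2, b3, b4⟩ := h.entB
  obtain ⟨a1', a2', a3', a4'⟩ := inv_entries (A 0)
  obtain ⟨b1', b2', b3', b4'⟩ := inv_entries (B 0)
  have hζ := h.ζ0
  rw [← h1, tr_eq, commutatorElement_def]
  simp only [mul_entries, a1, a2, a3, a4, b1, b2, b3, b4, a1', a2', a3', a4', b1', b2', b3', b4']
  field_simp
  ring

/-- The field generated by the coordinates. -/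
noncomputable abbrev K0 (g n : ℕ) (A B C : ℕ → SL(2, ℝ)) : IntermediateField ℚ ℝ := fld (pW g n A B C)

theorem K0_A (i : ℕ) (hi : i < g) : A (i + 1) ∈ entSub (K0 g n A B C) :=
  par3_mem fun k => by
    have h1 := mem_fld (pW g n A B C) (Sum.inl (⟨i, hi⟩, 0, k))
    have h2 : pW g n A B C (Sum.inl (⟨i, hi⟩, 0, k)) = par3 (A (i + 1)) k := by simp [pW]
    rwa [h2] at h1

theorem K0_B (i : ℕ) (hi : i < g) : B (i + 1) ∈ entSub (K0 g n A B C) :=
  par3_mem fun k => by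
    have h1 := mem_fld (pW g n A B C) (Sum.inl (⟨i, hi⟩, 1, k))
    have h2 : pW g n A B C (Sum.inl (⟨i, hi⟩, 1, k)) = par3 (B (i + 1)) k := by simp [pW]
    rwa [h2] at h1

theorem NF.K0_C (h : NF g n A B C x y ζ) (j : ℕ) (hj : j < n) : C j ∈ entSub (K0 g n A B C) :=
  par2_mem (h.par j (by omega)) fun k => by
    have h1 := mem_fld (pW g n A B C) (Sum.inr (⟨j, hj⟩, k))
    have h2 : pW g n A B C (Sum.inr (⟨j, hj⟩, k)) = par2 (C j) k := by simp [pW]
    rwa [h2] at h1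

theorem NF.K0_W (h : NF g n A B C x y ζ) : WW g n A B C ∈ entSub (K0 g n A B C) :=
  WW_mem (fun i hi => K0_A i hi) (fun i hi => K0_B i hi) (fun j hj => h.K0_C j hj)

/-- The field generated by the coordinates, `y` and `ζ`. -/
noncomputable abbrev K1 (g n : ℕ) (A B C : ℕ → SL(2, ℝ)) (y ζ : ℝ) : IntermediateField ℚ ℝ :=
  adj (adj (K0 g n A B C) y) ζ

theorem K0_le_K1 : K0 g n A B C ≤ K1 g n A B C y ζ := (le_adj _ _).trans (le_adj _ _)

theorem NF.coef_mem (h : NF g n A B C x y ζ) :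
    (WW g n A B C) 0 0 ∈ K1 g n A B C y ζ ∧
    (-y * (ζ + ζ⁻¹) * (WW g n A B C) 0 0 + (WW g n A B C) 1 0 * ζ ^ 2 + (WW g n A B C) 0 1) ∈ K1 g n A B C y ζ ∧
    ((y ^ 2 + ζ⁻¹ ^ 2) * (WW g n A B C) 0 0 - y * ζ * ((WW g n A B C) 1 0 + (WW g n A B C) 0 1) +
      (WW g n A B C) 1 1 * ζ ^ 2 - tr (C n)) ∈ K1 g n A B C y ζ := by
  have hW : WW g n A B C ∈ entSub (K1 g n A B C y ζ) := entSub_mono K0_le_K1 h.K0_W
  have hy : y ∈ K1 g n A B C y ζ := le_adj _ _ (mem_adj _ _)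
  have hζ : ζ ∈ K1 g n A B C y ζ := mem_adj _ _
  have hT : tr (C n) ∈ K1 g n A B C y ζ := by
    have h1 := half_mem (M := K1 g n A B C y ζ) (h.par n (by omega))
    have h2 : tr (C n) = tr (C n) / 2 + tr (C n) / 2 := by ring
    rw [h2]
    exact add_mem h1 h1
  refine ⟨hW 0 0, ?_, ?_⟩
  · exact add_mem (add_mem (mul_mem (mul_mem (neg_mem hy) (add_mem hζ (inv_mem hζ))) (hW 0 0))
      (mul_mem (hW 1 0) (pow_mem hζ 2))) (hW 0 1)
  · exact sub_mem (add_mem (sub_mem (mul_mem (add_mem (pow_mem hy 2) (pow_mem (inv_mem hζ) 2)) (hW 0 0))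
      (mul_mem (mul_mem hy hζ) (add_mem (hW 1 0) (hW 0 1)))) (mul_mem (hW 1 1) (pow_mem hζ 2))) hT

theorem NF.td_le_of_ne (h : NF g n A B C x y ζ) (h00 : (WW g n A B C) 0 0 ≠ 0) :
    td (adj (K1 g n A B C y ζ) x) ≤ td (K1 g n A B C y ζ) := by
  obtain ⟨c1, c2, c3⟩ := h.coef_mem
  exact td_adj_of_algebraic (isAlgebraic_of_quadratic c1 c2 c3 h00 h.eqn)

/-- The transcendence degree of the field generated by the entries. -/
theorem NF.td_le (h : NF g n A B C x y ζ) :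
    td (adj (K1 g n A B C y ζ) x) ≤ td (K0 g n A B C) + 1 + 1 := by
  obtain ⟨c1, c2, c3⟩ := h.coef_mem
  have h1 : td (K1 g n A B C y ζ) ≤ td (K0 g n A B C) + 1 + 1 :=
    (td_adj_le _ _).trans (add_le_add (td_adj_le _ _) le_rfl)
  by_cases h00 : (WW g n A B C) 0 0 = 0
  · have heq := h.eqn
    by_cases hβ : -y * (ζ + ζ⁻¹) * (WW g n A B C) 0 0 + (WW g n A B C) 1 0 * ζ ^ 2 + (WW g n A B C) 0 1 = 0
    · -- `ζ` is algebraic over `K0`
      rw [h00, mul_zero, zero_add] at hβ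
      have hd := det_eq (WW g n A B C)
      rw [h00] at hd
      have h10 : (WW g n A B C) 1 0 ≠ 0 := by
        intro h0
        rw [h0] at hd
        norm_num at hd
      have halg : IsAlgebraic (adj (K0 g n A B C) y) ζ := by
        have hW : WW g n A B C ∈ entSub (adj (K0 g n A B C) y) := entSub_mono (le_adj _ _) h.K0_W
        refine isAlgebraic_of_quadratic (α := (WW g n A B C) 1 0) (β := 0) (γ := (WW g n A B C) 0 1)
          (hW 1 0) (zero_mem _) (hW 0 1) h10 ?_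
        linear_combination hβ
      calc td (adj (K1 g n A B C y ζ) x) ≤ td (K1 g n A B C y ζ) + 1 := td_adj_le _ _
        _ ≤ td (adj (K0 g n A B C) y) + 1 := add_le_add (td_adj_of_algebraic halg) le_rfl
        _ ≤ td (K0 g n A B C) + 1 + 1 := add_le_add (td_adj_le _ _) le_rfl
    · -- `x` lies in `K1`
      refine le_trans ?_ h1
      apply td_adj_of_algebraic
      have hx : x ∈ K1 g n A B C y ζ := by
        have h2 : x = -(((y ^ 2 + ζ⁻¹ ^ 2) * (WW g n A B C) 0 0 - y * ζ * ((WW g n A B C) 1 0 + (WW g n A B C) 0 1) +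
            (WW g n A B C) 1 1 * ζ ^ 2 - tr (C n))) / (-y * (ζ + ζ⁻¹) * (WW g n A B C) 0 0 +
            (WW g n A B C) 1 0 * ζ ^ 2 + (WW g n A B C) 0 1) := by
          rw [eq_div_iff hβ]
          linear_combination heq - x ^ 2 * h00
        rw [h2]
        exact div_mem (neg_mem c3) c2
      exact isAlgebraic_algebraMap (⟨x, hx⟩ : K1 g n A B C y ζ)
  · exact (h.td_le_of_ne h00).trans h1

/-- The coordinates are independent. -/
theorem NF.ind (h : NF g n A B C x y ζ) (htd : ((6 * g + 2 * n + 2 : ℕ) : Cardinal) ≤ td (adj (K1 g n A B C y ζ) x)) :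
    AlgebraicIndependent ℚ (pW g n A B C) := by
  apply algInd_of_td
  have h1 := htd.trans h.td_le
  have h2 : td (K0 g n A B C) < ℵ₀ := (td_fld_le _).trans_lt (natCast_lt_aleph0)
  obtain ⟨a, ha⟩ := lt_aleph0.mp h2
  show ((Fintype.card (Kap g n) : ℕ) : Cardinal) ≤ td (K0 g n A B C)
  rw [ha] at h1 ⊢
  rw [card_Kap]
  have h3 : 6 * g + 2 * n + 2 ≤ a + 1 + 1 := by exact_mod_cast h1
  have h4 : 6 * g + 2 * n ≤ a := by omega
  exact_mod_cast h4

/-- The limit of the matrices. -/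
theorem NF.lim (h : NF g n A B C x y ζ) (hind : AlgebraicIndependent ℚ (pW g n A B C)) {τ : ℕ → ℝ →+* ℂ}
    {l : Filter ℕ} (hτ : ∀ i, Tendsto (fun k => τ k (pW g n A B C i)) l (𝓝 (cW g n i))) :
    (∀ i < g, A (i + 1) ∈ limSub τ l pm) ∧ (∀ i < g, B (i + 1) ∈ limSub τ l pm) ∧ (∀ j < n, C j ∈ limSub τ l pm) := by
  refine ⟨fun i hi => ?_, fun i hi => ?_, fun j hj => ?_⟩
  · apply par3_lim
    · have h1 := hind.ne_zero (Sum.inl (⟨i, hi⟩, 0, 0))
      simpa [pW] using h1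
    · intro k
      have h1 := hτ (Sum.inl (⟨i, hi⟩, 0, k))
      simpa [pW, cW] using h1
  · apply par3_lim
    · have h1 := hind.ne_zero (Sum.inl (⟨i, hi⟩, 1, 0))
      simpa [pW] using h1
    · intro k
      have h1 := hτ (Sum.inl (⟨i, hi⟩, 1, k))
      simpa [pW, cW] using h1
  · obtain ⟨M, hM, hlim, -⟩ := par2_lim (τ := τ) (l := l) (h.par j (by omega)) (by
      have h1 := hind.ne_zero (Sum.inr (⟨j, hj⟩, 0))
      simpa [pW] using h1) (fun k => by
      have h1 := hτ (Sum.inr (⟨j, hj⟩, k))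
      simpa [pW, cW] using h1)
    exact ⟨M, hM, hlim⟩

theorem NF.limW (h : NF g n A B C x y ζ) (hind : AlgebraicIndependent ℚ (pW g n A B C)) {τ : ℕ → ℝ →+* ℂ}
    {l : Filter ℕ} (hτ : ∀ i, Tendsto (fun k => τ k (pW g n A B C i)) l (𝓝 (cW g n i))) :
    ∃ η : ℂ, (η = 1 ∨ η = -1) ∧ Tendsto (fun k => τ k ((WW g n A B C) 0 0)) l (𝓝 η) ∧
      Tendsto (fun k => τ k ((WW g n A B C) 0 1)) l (𝓝 0) ∧ Tendsto (fun k => τ k ((WW g n A B C) 1 0)) l (𝓝 0) ∧
      Tendsto (fun k => τ k ((WW g n A B C) 1 1)) l (𝓝 η) := by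
  obtain ⟨h1, h2, h3⟩ := h.lim hind hτ
  obtain ⟨M, hM, hlim⟩ := WW_mem h1 h2 h3
  rcases hM with rfl | rfl
  · exact ⟨1, Or.inl rfl, by simpa using hlim 0 0, by simpa using hlim 0 1, by simpa using hlim 1 0,
      by simpa using hlim 1 1⟩
  · exact ⟨-1, Or.inr rfl, by simpa using hlim 0 0, by simpa using hlim 0 1, by simpa using hlim 1 0,
      by simpa using hlim 1 1⟩

theorem NF.ne (h : NF g n A B C x y ζ) (hind : AlgebraicIndependent ℚ (pW g n A B C)) :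
    (WW g n A B C) 0 0 ≠ 0 := by
  obtain ⟨τ, hτ⟩ := exists_seq hind (cW g n)
  obtain ⟨η, hη, h1, -⟩ := h.limW hind hτ
  intro h0
  simp only [h0, map_zero] at h1
  have h2 := tendsto_nhds_unique h1 tendsto_const_nhds
  rcases hη with rfl | rfl
  · norm_num at h2
  · norm_num at h2

end

end Pool.Agent.LCG
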