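import Mathlib

/-!
# LCG/Gram: bounded factorizations of symmetric complex matrices
-/

namespace Pool.Agent.LCG

open Matrix

/-- One step of the factorization with a large diagonal entry. -/
theorem gram_pivot {n : ℕ} {C : ℝ} (hC0 : 0 ≤ C)
    (hC : ∀ (β : ℝ) (G : Matrix (Fin n) (Fin n) ℂ), 0 ≤ β → (∀ i j, G i j = G j i) → (∀ i j, ‖G i j‖ ≤ β) →
      ∃ V : Matrix (Fin n) (Fin n) ℂ, Vᵀ * V = G ∧ ∀ i j, ‖V i j‖ ≤ C * √β)
    {β : ℝ} (hβ : 0 < β) {G : Matrix (Fin (n + 1)) (Fin (n + 1)) ℂ} (hG : ∀ i j, G i j = G j i)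
    (hGβ : ∀ i j, ‖G i j‖ ≤ β) (k : Fin (n + 1)) (hk : β / 4 ≤ ‖G k k‖) :
    ∃ V : Matrix (Fin (n + 1)) (Fin (n + 1)) ℂ, Vᵀ * V = G ∧ ∀ i j, ‖V i j‖ ≤ (2 + C * √5) * √β := by
  obtain ⟨s, hs⟩ : ∃ s : ℂ, s * s = G k k := IsAlgClosed.exists_eq_mul_self (G k k) |>.imp fun _ h => h.symm
  have hβ4 : 0 < β / 4 := by positivity
  have hGk : G k k ≠ 0 := by
    intro h0
    rw [h0, norm_zero] at hk
    linarith
  have hs0 : s ≠ 0 := by
    rintro rfl
    apply hGk
    rw [← hs, mul_zero]
  have hsn : √β / 2 ≤ ‖s‖ := by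
    have h1 : ‖s‖ ^ 2 = ‖G k k‖ := by rw [← hs, norm_mul, pow_two]
    apply le_of_sq_le_sq _ (norm_nonneg s)
    rw [h1, div_pow, Real.sq_sqrt hβ.le]
    linarith
  have hsqβ : 0 < √β := Real.sqrt_pos.mpr hβ
  obtain ⟨r, hr⟩ : ∃ r : Fin (n + 1) → ℂ, r = fun j => G k j / s := ⟨_, rfl⟩
  have hrb : ∀ j, ‖r j‖ ≤ 2 * √β := by
    intro j
    rw [hr]
    simp only [norm_div]
    rw [div_le_iff₀ (norm_pos_iff.mpr hs0)]
    calc ‖G k j‖ ≤ β := hGβ k j
      _ = 2 * √β * (√β / 2) := by
        have := Real.mul_self_sqrt hβ.le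
        linarith
      _ ≤ 2 * √β * ‖s‖ := by gcongr
  have hrr : ∀ i j, ‖r i * r j‖ ≤ 4 * β := by
    intro i j
    rw [norm_mul]
    calc ‖r i‖ * ‖r j‖ ≤ (2 * √β) * (2 * √β) := by
          gcongr
          · exact hrb i
          · exact hrb j
      _ = 4 * β := by
        have := Real.mul_self_sqrt hβ.le
        linarith
  obtain ⟨V', hV', hVb⟩ := hC (5 * β) (fun i j => G (k.succAbove i) (k.succAbove j) -
    r (k.succAbove i) * r (k.succAbove j)) (by positivity)
    (fun i j => by rw [hG, mul_comm]) (fun i j => by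
      refine (norm_sub_le _ _).trans ?_
      have h1 := hGβ (k.succAbove i) (k.succAbove j)
      have h2 := hrr (k.succAbove i) (k.succAbove j)
      linarith)
  obtain ⟨V, hV0, hVs⟩ : ∃ V : Matrix (Fin (n + 1)) (Fin (n + 1)) ℂ, (∀ j, V 0 j = r j) ∧
      ∀ a j, V (Fin.succ a) j = Fin.insertNth (α := fun _ => ℂ) k 0 (V' a) j :=
    ⟨fun m => Fin.cases r (fun a => Fin.insertNth (α := fun _ => ℂ) k 0 (V' a)) m, fun j => rfl, fun a j => rfl⟩
  refine ⟨V, ?_, ?_⟩
  · ext i j
    rw [Matrix.mul_apply, Fin.sum_univ_succ]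
    simp only [Matrix.transpose_apply, hV0, hVs]
    have hrk : r k = s := by
      rw [hr]
      simp only
      rw [← hs, mul_div_assoc, div_self hs0, mul_one]
    have hrj : ∀ j, r k * r j = G k j := by
      intro j
      rw [hrk, hr]
      simp only
      rw [mul_div_assoc']
      field_simp
    refine Fin.succAboveCases k ?_ (fun i' => ?_) i
    · simp [hrj]
    · refine Fin.succAboveCases k ?_ (fun j' => ?_) j
      · simp only [Fin.insertNth_apply_same, mul_zero, Finset.sum_const_zero, add_zero]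
        rw [mul_comm, hrj, hG]
      · simp only [Fin.insertNth_apply_succAbove]
        have h1 := congrFun (congrFun hV' i') j'
        rw [Matrix.mul_apply] at h1
        simp only [Matrix.transpose_apply] at h1
        rw [h1]
        ring
  · intro i j
    have h5 : √(5 * β) = √5 * √β := Real.sqrt_mul (by norm_num) β
    have hpos : 0 ≤ C * √5 * √β := by positivity
    refine Fin.cases ?_ (fun a => ?_) i
    · rw [hV0]
      have := hrb j
      linarith
    · rw [hVs]
      refine Fin.succAboveCases k ?_ (fun j' => ?_) j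
      · simp only [Fin.insertNth_apply_same, norm_zero]
        positivity
      · simp only [Fin.insertNth_apply_succAbove]
        have := hVb a j'
        rw [h5] at this
        linarith

/-- Symmetric matrices with bounded entries have factorizations `Vᵀ V` with bounded entries. -/
theorem exists_gram (n : ℕ) : ∃ C : ℝ, 0 ≤ C ∧ ∀ (β : ℝ) (G : Matrix (Fin n) (Fin n) ℂ), 0 ≤ β →
    (∀ i j, G i j = G j i) → (∀ i j, ‖G i j‖ ≤ β) →
      ∃ V : Matrix (Fin n) (Fin n) ℂ, Vᵀ * V = G ∧ ∀ i j, ‖V i j‖ ≤ C * √β := by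
  induction n with
  | zero => exact ⟨0, le_rfl, fun β G _ _ _ => ⟨0, by ext i; exact i.elim0, fun i => i.elim0⟩⟩
  | succ n ih =>
    obtain ⟨C, hC0, hC⟩ := ih
    refine ⟨4 * (2 + C * √5), by positivity, fun β₀ G hβ₀ hG hGβ₀ => ?_⟩
    -- the maximal entry
    obtain ⟨⟨i₀, j₀⟩, -, hmax⟩ := Finset.exists_max_image (Finset.univ : Finset (Fin (n + 1) × Fin (n + 1)))
      (fun p => ‖G p.1 p.2‖) ⟨(0, 0), Finset.mem_univ _⟩
    obtain ⟨β, hβ⟩ : ∃ β, β = ‖G i₀ j₀‖ := ⟨_, rfl⟩
    have hGβ : ∀ i j, ‖G i j‖ ≤ β := fun i j => by rw [hβ]; exact hmax (i, j) (Finset.mem_univ _)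
    have hββ₀ : β ≤ β₀ := by rw [hβ]; exact hGβ₀ _ _
    have hmono : √β ≤ √β₀ := Real.sqrt_le_sqrt hββ₀
    have hsq0 : 0 ≤ √β := Real.sqrt_nonneg _
    rcases (norm_nonneg (G i₀ j₀)).eq_or_lt with h0 | hpos
    · refine ⟨0, ?_, fun i j => by simp only [Matrix.zero_apply, norm_zero]; positivity⟩
      ext i j
      have h1 := hGβ i j
      rw [hβ, ← h0] at h1
      rw [norm_le_zero_iff.mp h1]
      simp
    rw [← hβ] at hpos
    by_cases hdiag : ∃ k, β / 4 ≤ ‖G k k‖
    · obtain ⟨k, hk⟩ := hdiag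
      obtain ⟨V, hV, hVb⟩ := gram_pivot hC0 hC hpos hG hGβ k hk
      refine ⟨V, hV, fun i j => (hVb i j).trans ?_⟩
      have : 0 ≤ (2 + C * √5) := by positivity
      nlinarith
    · push Not at hdiag
      have hij : i₀ ≠ j₀ := by
        rintro rfl
        have := hdiag i₀
        rw [← hβ] at this
        linarith
      -- change of basis
      obtain ⟨U, hU⟩ : ∃ U : Matrix (Fin (n + 1)) (Fin (n + 1)) ℂ, U = Matrix.transvection j₀ i₀ 1 := ⟨_, rfl⟩
      obtain ⟨U', hU'⟩ : ∃ U' : Matrix (Fin (n + 1)) (Fin (n + 1)) ℂ, U' = Matrix.transvection j₀ i₀ (-1) := ⟨_, rfl⟩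
      have hUU' : U * U' = 1 := by
        rw [hU, hU', Matrix.transvection_mul_transvection_same j₀ i₀ (Ne.symm hij)]
        simp [Matrix.transvection_zero]
      have hUb : ∀ (W : Matrix (Fin (n + 1)) (Fin (n + 1)) ℂ) (b : ℝ), (∀ i j, ‖W i j‖ ≤ b) →
          ∀ i j, ‖(W * U) i j‖ ≤ 2 * b := by
        intro W b hW i j
        by_cases hj : j = i₀
        · rw [hU, hj, Matrix.mul_transvection_apply_same]
          refine (norm_add_le _ _).trans ?_
          rw [one_mul]
          have := hW i i₀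
          have := hW i j₀
          linarith
        · rw [hU, Matrix.mul_transvection_apply_of_ne _ _ _ _ hj]
          have h1 := hW i j
          have h2 := norm_nonneg (W i j)
          linarith
      have hU'b : ∀ (W : Matrix (Fin (n + 1)) (Fin (n + 1)) ℂ) (b : ℝ), (∀ i j, ‖W i j‖ ≤ b) →
          ∀ i j, ‖(W * U') i j‖ ≤ 2 * b := by
        intro W b hW i j
        by_cases hj : j = i₀
        · rw [hU', hj, Matrix.mul_transvection_apply_same]
          refine (norm_add_le _ _).trans ?_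
          rw [neg_one_mul, norm_neg]
          have := hW i i₀
          have := hW i j₀
          linarith
        · rw [hU', Matrix.mul_transvection_apply_of_ne _ _ _ _ hj]
          have h1 := hW i j
          have h2 := norm_nonneg (W i j)
          linarith
      obtain ⟨G', hG'⟩ : ∃ G', G' = Uᵀ * G * U := ⟨_, rfl⟩
      have hGt : Gᵀ = G := by
        ext i j
        rw [Matrix.transpose_apply, hG]
      have hG's : ∀ i j, G' i j = G' j i := by
        intro i j
        have h1 : G'ᵀ = G' := by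
          rw [hG', Matrix.transpose_mul, Matrix.transpose_mul, Matrix.transpose_transpose, hGt, Matrix.mul_assoc]
        rw [← h1, Matrix.transpose_apply, h1]
      have hG'b : ∀ i j, ‖G' i j‖ ≤ 4 * β := by
        intro i j
        have h1 : ∀ i j, ‖(G * U) i j‖ ≤ 2 * β := hUb G β hGβ
        have h2 : ∀ i j, ‖((G * U)ᵀ * U) i j‖ ≤ 2 * (2 * β) := hUb _ _ (fun i j => by
          rw [Matrix.transpose_apply]
          exact h1 j i)
        have h3 : (G * U)ᵀ * U = G'ᵀ := by
          rw [hG', Matrix.transpose_mul, Matrix.transpose_mul, Matrix.transpose_mul, Matrix.transpose_transpose, hGt,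
            Matrix.mul_assoc]
        have h4 := h2 j i
        rw [h3, Matrix.transpose_apply] at h4
        linarith
      have hpiv : 4 * β / 4 ≤ ‖G' i₀ i₀‖ := by
        have h1 : ∀ i, (G * U) i i₀ = G i i₀ + G i j₀ := by
          intro i
          rw [hU, Matrix.mul_transvection_apply_same, one_mul]
        have h2 : G' i₀ i₀ = G i₀ i₀ + G i₀ j₀ + (G j₀ i₀ + G j₀ j₀) := by
          have h3 : G' = ((G * U)ᵀ * U)ᵀ := by
            rw [hG', Matrix.transpose_mul, Matrix.transpose_transpose, ← Matrix.mul_assoc]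
          rw [h3, Matrix.transpose_apply, hU, Matrix.mul_transvection_apply_same, one_mul, ← hU,
            Matrix.transpose_apply, Matrix.transpose_apply, h1, h1]
        have h3 : G j₀ i₀ = G i₀ j₀ := hG _ _
        have h4 : 2 * G i₀ j₀ = G' i₀ i₀ - G i₀ i₀ - G j₀ j₀ := by rw [h2, h3]; ring
        have h5 : 2 * β ≤ ‖G' i₀ i₀‖ + ‖G i₀ i₀‖ + ‖G j₀ j₀‖ := by
          have h6 : ‖2 * G i₀ j₀‖ = 2 * β := by rw [norm_mul, hβ]; norm_num
          rw [← h6, h4]
          refine (norm_sub_le _ _).trans ?_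
          have := norm_sub_le (G' i₀ i₀) (G i₀ i₀)
          linarith
        have := hdiag i₀
        have := hdiag j₀
        linarith
      obtain ⟨V, hV, hVb⟩ := gram_pivot hC0 hC (β := 4 * β) (by positivity) hG's hG'b i₀ hpiv
      refine ⟨V * U', ?_, fun i j => ?_⟩
      · rw [Matrix.transpose_mul]
        calc U'ᵀ * Vᵀ * (V * U') = U'ᵀ * (Vᵀ * V) * U' := by simp only [Matrix.mul_assoc]
          _ = (U * U')ᵀ * G * (U * U') := by
            rw [hV, hG', Matrix.transpose_mul]
            simp only [Matrix.mul_assoc]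
          _ = G := by rw [hUU', Matrix.transpose_one, Matrix.one_mul, Matrix.mul_one]
      · refine (hU'b V _ hVb i j).trans ?_
        have h4 : √(4 * β) = 2 * √β := by
          rw [Real.sqrt_mul (by norm_num), show (4 : ℝ) = 2 ^ 2 by norm_num, Real.sqrt_sq (by norm_num)]
        rw [h4]
        have : 0 ≤ (2 + C * √5) := by positivity
        nlinarith

end Pool.Agent.LCG
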