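import Pool.Agent.LCC.Stage

/-!
# LCG/Ind: algebraic independence from the transcendence degree
-/

namespace Pool.Agent.LCG

open Cardinal Pool.Agent.LCC

/-- The field generated by a family of real numbers. -/
noncomputable def fld {ι : Type} (y : ι → ℝ) : IntermediateField ℚ ℝ := IntermediateField.adjoin ℚ (Set.range y)

theorem mem_fld {ι : Type} (y : ι → ℝ) (i : ι) : y i ∈ fld y := IntermediateField.subset_adjoin _ _ ⟨i, rfl⟩

/-- The elements of the field `fld y` are algebraic over the ring generated by `y`. -/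
theorem fld_algebraic {ι : Type} (y : ι → ℝ) :
    Algebra.IsAlgebraic (Algebra.adjoin ℚ (Set.range fun i => (⟨y i, mem_fld y i⟩ : fld y))) (fld y) := by
  constructor
  rintro ⟨x, hx⟩
  refine IntermediateField.adjoin_induction ℚ (s := Set.range y)
    (p := fun x hx => IsAlgebraic (Algebra.adjoin ℚ (Set.range fun i => (⟨y i, mem_fld y i⟩ : fld y)))
      (⟨x, hx⟩ : fld y)) ?_ ?_ ?_ ?_ ?_ hx
  · rintro _ ⟨i, rfl⟩
    exact isAlgebraic_algebraMap (A := fld y)
      (⟨⟨y i, mem_fld y i⟩, Algebra.subset_adjoin ⟨i, rfl⟩⟩ :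
        Algebra.adjoin ℚ (Set.range fun i => (⟨y i, mem_fld y i⟩ : fld y)))
  · intro q
    exact isAlgebraic_algebraMap (A := fld y)
      (algebraMap ℚ (Algebra.adjoin ℚ (Set.range fun i => (⟨y i, mem_fld y i⟩ : fld y))) q)
  · intro a b ha hb h1 h2
    exact IsAlgebraic.add h1 h2
  · intro a ha h1
    exact IsAlgebraic.inv h1
  · intro a b ha hb h1 h2
    exact IsAlgebraic.mul h1 h2

/-- The family is algebraically independent if the transcendence degree is large. -/
theorem algInd_of_td {ι : Type} [Fintype ι] (y : ι → ℝ) (h : (Fintype.card ι : Cardinal) ≤ td (fld y)) :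
    AlgebraicIndependent ℚ y := by
  have := fld_algebraic y
  have h1 : IsTranscendenceBasis ℚ (fun i => (⟨y i, mem_fld y i⟩ : fld y)) := by
    apply Algebra.IsAlgebraic.isTranscendenceBasis_of_le_trdeg_of_finite
    rw [Cardinal.mk_fintype]
    exact h
  exact h1.1.map' (f := (fld y).val) (fld y).val.injective

/-- The transcendence degree is at most the number of generators. -/
theorem td_fld_le {ι : Type} [Fintype ι] (y : ι → ℝ) : td (fld y) ≤ Fintype.card ι := by
  have := fld_algebraic y
  have h1 := Algebra.IsAlgebraic.trdeg_le_cardinalMk ℚ (Set.range fun i => (⟨y i, mem_fld y i⟩ : fld y))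
  refine h1.trans ?_
  rw [← Cardinal.mk_fintype]
  exact Cardinal.mk_range_le

end Pool.Agent.LCG
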