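import Pool.Agent.LCG.Ind
import Pool.Agent.LCG.Collapse

/-!
# LCG/Lim: limits of the images of a group under field embeddings
-/

namespace Pool.Agent.LCG

open Matrix Filter Topology Pool.Agent.LCC
open scoped MatrixGroups commutatorElement

/-- The images of `γ` under the embeddings `τ k` converge to `M`. -/
def Lim (τ : ℕ → ℝ →+* ℂ) (l : Filter ℕ) (γ : SL(2, ℝ)) (M : Matrix (Fin 2) (Fin 2) ℂ) : Prop :=
  ∀ i j, Tendsto (fun k => τ k (γ i j)) l (𝓝 (M i j))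

variable {τ : ℕ → ℝ →+* ℂ} {l : Filter ℕ}

theorem Lim.mul {γ γ' : SL(2, ℝ)} {M M' : Matrix (Fin 2) (Fin 2) ℂ} (h : Lim τ l γ M) (h' : Lim τ l γ' M') :
    Lim τ l (γ * γ') (M * M') := by
  intro i j
  rw [Matrix.mul_apply, Fin.sum_univ_two]
  have h1 := ((h i 0).mul (h' 0 j)).add ((h i 1).mul (h' 1 j))
  refine h1.congr fun k => ?_
  rw [mul_entries, map_add, map_mul, map_mul]

theorem Lim.one : Lim τ l 1 1 := by
  intro i j
  rw [Matrix.SpecialLinearGroup.coe_one]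
  have h1 : ∀ k, τ k ((1 : Matrix (Fin 2) (Fin 2) ℝ) i j) = (1 : Matrix (Fin 2) (Fin 2) ℂ) i j := by
    intro k
    rw [Matrix.one_apply, Matrix.one_apply]
    split_ifs <;> simp
  simp only [h1]
  exact tendsto_const_nhds

theorem Lim.inv {γ : SL(2, ℝ)} {M : SL(2, ℂ)} (h : Lim τ l γ M) : Lim τ l γ⁻¹ ((M⁻¹ : SL(2, ℂ)) : Matrix _ _ ℂ) := by
  obtain ⟨g1, g2, g3, g4⟩ := inv_entries γ
  have hM : ((M⁻¹ : SL(2, ℂ)) : Matrix (Fin 2) (Fin 2) ℂ) = !![M 1 1, - M 0 1; - M 1 0, M 0 0] := by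
    rw [Matrix.SpecialLinearGroup.SL2_inv_expl]
    rfl
  rw [hM]
  intro i j
  fin_cases i <;> fin_cases j
  · show Tendsto (fun k => τ k ((γ⁻¹ : SL(2, ℝ)) 0 0)) l (𝓝 (M 1 1))
    rw [g1]
    exact h 1 1
  · show Tendsto (fun k => τ k ((γ⁻¹ : SL(2, ℝ)) 0 1)) l (𝓝 (- M 0 1))
    rw [g2]
    simpa using (h 0 1).neg
  · show Tendsto (fun k => τ k ((γ⁻¹ : SL(2, ℝ)) 1 0)) l (𝓝 (- M 1 0))
    rw [g3]
    simpa using (h 1 0).neg
  · show Tendsto (fun k => τ k ((γ⁻¹ : SL(2, ℝ)) 1 1)) l (𝓝 (M 0 0))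
    rw [g4]
    exact h 0 0

/-- The elements whose images converge to elements of `G`. -/
def limSub (τ : ℕ → ℝ →+* ℂ) (l : Filter ℕ) (G : Subgroup SL(2, ℂ)) : Subgroup SL(2, ℝ) where
  carrier := {γ | ∃ M ∈ G, Lim τ l γ M}
  mul_mem' := by
    rintro a b ⟨M, hM, h⟩ ⟨M', hM', h'⟩
    exact ⟨M * M', G.mul_mem hM hM', h.mul h'⟩
  one_mem' := ⟨1, G.one_mem, Lim.one⟩
  inv_mem' := by
    rintro a ⟨M, hM, h⟩
    exact ⟨M⁻¹, G.inv_mem hM, h.inv⟩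

theorem norm_dist_unit {z e : ℂ} (hz : z ≠ 0) (he : ‖e‖ = 1) :
    ‖z‖ + ‖z‖⁻¹ - 2 ≤ ‖z + z⁻¹ - (e + e⁻¹)‖ := by
  have he0 : e ≠ 0 := by
    rintro rfl
    norm_num at he
  have hpos : 0 < ‖z‖ := norm_pos_iff.mpr hz
  have h1 : z * (z + z⁻¹ - (e + e⁻¹)) = (z - e) * (z - e⁻¹) := by
    field_simp
    ring
  have h2 : ‖z‖ * ‖z + z⁻¹ - (e + e⁻¹)‖ = ‖z - e‖ * ‖z - e⁻¹‖ := by
    rw [← norm_mul, ← norm_mul, h1]
  have h3 : |‖z‖ - 1| ≤ ‖z - e‖ := by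
    have := abs_norm_sub_norm_le z e
    rwa [he] at this
  have h4 : |‖z‖ - 1| ≤ ‖z - e⁻¹‖ := by
    have := abs_norm_sub_norm_le z e⁻¹
    rwa [norm_inv, he, inv_one] at this
  have h5 : (‖z‖ - 1) ^ 2 ≤ ‖z‖ * ‖z + z⁻¹ - (e + e⁻¹)‖ := by
    rw [h2, ← sq_abs, pow_two]
    exact mul_le_mul h3 h4 (abs_nonneg _) (norm_nonneg _)
  have h6 : ‖z‖ * (‖z‖ + ‖z‖⁻¹ - 2) = (‖z‖ - 1) ^ 2 := by
    field_simp
    ring
  rw [← h6] at h5
  exact le_of_mul_le_mul_left h5 hpos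

theorem sq_log_le {x : ℝ} (hx : 0 < x) : Real.log x ^ 2 ≤ x + x⁻¹ - 2 := by
  have h1 : x + x⁻¹ = 2 * Real.cosh (Real.log x) := by
    rw [Real.cosh_log hx]
    ring
  have h2 : ∀ y : ℝ, 0 ≤ y → y ^ 2 ≤ 2 * Real.cosh y - 2 := by
    intro y hy
    have h3 := Real.cosh_two_mul (y / 2)
    rw [show 2 * (y / 2) = y by ring] at h3
    have h4 := Real.cosh_sq (y / 2)
    have h5 := Real.self_le_sinh_iff.mpr (show 0 ≤ y / 2 by positivity)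
    nlinarith
  rw [h1, ← sq_abs, ← Real.cosh_abs]
  exact h2 _ (abs_nonneg _)

/-- A group is collapsing if its images converge to a group whose traces are in `[-2, 2]`. -/
theorem collapsing_of_lim {Γ : Subgroup SL(2, ℝ)} [l.NeBot] {G : Subgroup SL(2, ℂ)}
    (hG : ∀ M ∈ G, ∃ e : ℂ, ‖e‖ = 1 ∧ (M : Matrix (Fin 2) (Fin 2) ℂ).trace = e + e⁻¹)
    (hΓ : Γ ≤ limSub τ l G) : Collapsing Γ := by
  intro F hF hFΓ δ hδ
  have hev : ∀ᶠ k in l, ∀ g ∈ F, ∀ x : ℝ, 1 < x → |tr g| = x + x⁻¹ → |Real.log ‖τ k x‖| ≤ δ := by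
    rw [Filter.eventually_all_finite hF]
    intro g hg
    obtain ⟨M, hM, hlim⟩ := hΓ (hFΓ g hg)
    obtain ⟨e, he, htr⟩ := hG M hM
    have h1 : Tendsto (fun k => τ k (tr g)) l (𝓝 (e + e⁻¹)) := by
      rw [← htr, Matrix.trace_fin_two]
      refine ((hlim 0 0).add (hlim 1 1)).congr fun k => ?_
      rw [tr_eq, map_add]
    have h2 := h1.eventually (Metric.ball_mem_nhds _ (show 0 < δ ^ 2 by positivity))
    filter_upwards [h2] with k hk x hx hxt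
    rw [dist_eq_norm] at hk
    have hx0 : τ k x ≠ 0 := by
      rw [Ne, map_eq_zero]
      linarith
    obtain ⟨e', he', h3⟩ : ∃ e' : ℂ, ‖e'‖ = 1 ∧ ‖τ k x + (τ k x)⁻¹ - (e' + e'⁻¹)‖ < δ ^ 2 := by
      have h4 : τ k x + (τ k x)⁻¹ = τ k |tr g| := by rw [hxt, map_add, map_inv₀]
      rw [h4]
      rcases abs_choice (tr g) with h | h
      · exact ⟨e, he, by rwa [h]⟩
      · refine ⟨-e, by rwa [norm_neg], ?_⟩
        have h5 : τ k (-tr g) - (-e + (-e)⁻¹) = -(τ k (tr g) - (e + e⁻¹)) := by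
          rw [map_neg, inv_neg]
          ring
        rw [h, h5, norm_neg]
        exact hk
    have h5 := norm_dist_unit hx0 he'
    have h6 := sq_log_le (norm_pos_iff.mpr hx0)
    exact abs_le_of_sq_le_sq (by linarith) hδ.le
  obtain ⟨k, hk⟩ := hev.exists
  exact ⟨τ k, hk⟩

end Pool.Agent.LCG
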