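import Pool.Agent.LCG.Lim

/-!
# LCG/Par: coordinates of matrices
-/

namespace Pool.Agent.LCG

open Matrix Filter Topology Pool.Agent.LCC
open scoped MatrixGroups commutatorElement

/-- The matrices in `SL(2, ℝ)` with entries in `M`. -/
def entSub (M : IntermediateField ℚ ℝ) : Subgroup SL(2, ℝ) where
  carrier := {γ | ∀ i j, γ i j ∈ M}
  mul_mem' := by
    intro a b ha hb i j
    rw [mul_entries]
    exact M.add_mem (M.mul_mem (ha i 0) (hb 0 j)) (M.mul_mem (ha i 1) (hb 1 j))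
  one_mem' := by
    intro i j
    rw [Matrix.SpecialLinearGroup.coe_one, Matrix.one_apply]
    split_ifs
    · exact M.one_mem
    · exact M.zero_mem
  inv_mem' := by
    intro a ha i j
    obtain ⟨g1, g2, g3, g4⟩ := inv_entries a
    fin_cases i <;> fin_cases j
    · show (a⁻¹ : SL(2, ℝ)) 0 0 ∈ M
      rw [g1]; exact ha 1 1
    · show (a⁻¹ : SL(2, ℝ)) 0 1 ∈ M
      rw [g2]; exact M.neg_mem (ha 0 1)
    · show (a⁻¹ : SL(2, ℝ)) 1 0 ∈ M
      rw [g3]; exact M.neg_mem (ha 1 0)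
    · show (a⁻¹ : SL(2, ℝ)) 1 1 ∈ M
      rw [g4]; exact ha 0 0

theorem entSub_mono {M M' : IntermediateField ℚ ℝ} (h : M ≤ M') : entSub M ≤ entSub M' :=
  fun _ hγ i j => h (hγ i j)

theorem tr_mem_of_entSub {M : IntermediateField ℚ ℝ} {γ : SL(2, ℝ)} (h : γ ∈ entSub M) : tr γ ∈ M := by
  rw [tr_eq]
  exact M.add_mem (h 0 0) (h 1 1)

/-- Three coordinates of a matrix. -/
noncomputable def par3 (g : SL(2, ℝ)) : Fin 3 → ℝ :=
  if g 0 0 = 0 then ![0, g 0 1, g 1 1] else ![g 0 0, g 0 1, g 1 0]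

/-- Two coordinates of a parabolic matrix. -/
noncomputable def par2 (g : SL(2, ℝ)) : Fin 2 → ℝ :=
  if g 1 0 = 0 then ![0, g 0 1] else ![g 1 0, (g 0 0 - tr g / 2) / g 1 0]

theorem par3_mem {M : IntermediateField ℚ ℝ} {g : SL(2, ℝ)} (h : ∀ k, par3 g k ∈ M) : g ∈ entSub M := by
  have hd := det_eq g
  by_cases h0 : g 0 0 = 0
  · have e : par3 g = ![0, g 0 1, g 1 1] := if_pos h0
    rw [e] at h
    have h1 : g 0 1 ∈ M := h 1
    have h2 : g 1 1 ∈ M := h 2
    rw [h0] at hd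
    have h01 : g 0 1 ≠ 0 := by
      intro h
      rw [h] at hd
      norm_num at hd
    have h3 : g 1 0 = -(g 0 1)⁻¹ := by
      field_simp
      linarith
    intro i j
    fin_cases i <;> fin_cases j
    · show g 0 0 ∈ M
      rw [h0]; exact M.zero_mem
    · exact h1
    · show g 1 0 ∈ M
      rw [h3]; exact M.neg_mem (M.inv_mem h1)
    · exact h2
  · have e : par3 g = ![g 0 0, g 0 1, g 1 0] := if_neg h0
    rw [e] at h
    have h1 : g 0 0 ∈ M := h 0
    have h2 : g 0 1 ∈ M := h 1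
    have h3 : g 1 0 ∈ M := h 2
    have h4 : g 1 1 = (1 + g 0 1 * g 1 0) / g 0 0 := by
      field_simp
      linarith
    intro i j
    fin_cases i <;> fin_cases j
    · exact h1
    · exact h2
    · exact h3
    · show g 1 1 ∈ M
      rw [h4]
      exact M.div_mem (M.add_mem M.one_mem (M.mul_mem h2 h3)) h1

theorem sign_of_sq {t : ℝ} (h : t ^ 2 = 4) : t = 2 ∨ t = -2 := by
  have : (t - 2) * (t + 2) = 0 := by linear_combination h
  rcases mul_eq_zero.mp this with h1 | h1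
  · left; linarith
  · right; linarith

theorem half_mem {M : IntermediateField ℚ ℝ} {t : ℝ} (h : t ^ 2 = 4) : t / 2 ∈ M := by
  rcases sign_of_sq h with h1 | h1
  · rw [h1]
    norm_num
  · rw [h1]
    norm_num

theorem par2_mem {M : IntermediateField ℚ ℝ} {g : SL(2, ℝ)} (ht : tr g ^ 2 = 4) (h : ∀ k, par2 g k ∈ M) :
    g ∈ entSub M := by
  have hd := det_eq g
  have hε := half_mem (M := M) ht
  obtain ⟨ε, hεd⟩ : ∃ ε, ε = tr g / 2 := ⟨_, rfl⟩
  rw [← hεd] at hε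
  have hε2 : ε ^ 2 = 1 := by rw [hεd]; linarith
  have htr : g 0 0 + g 1 1 = 2 * ε := by rw [← tr_eq, hεd]; ring
  by_cases h0 : g 1 0 = 0
  · have e : par2 g = ![0, g 0 1] := if_pos h0
    rw [e] at h
    have h1 : g 0 1 ∈ M := h 1
    rw [h0] at hd
    have h2 : g 0 0 = ε := by
      have : (g 0 0 - ε) ^ 2 = 0 := by
        linear_combination hε2 - hd + g 0 0 * htr
      have := pow_eq_zero_iff (two_ne_zero) |>.mp this
      linarith
    have h3 : g 1 1 = ε := by linarith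
    intro i j
    fin_cases i <;> fin_cases j
    · show g 0 0 ∈ M
      rw [h2]; exact hε
    · exact h1
    · show g 1 0 ∈ M
      rw [h0]; exact M.zero_mem
    · show g 1 1 ∈ M
      rw [h3]; exact hε
  · have e : par2 g = ![g 1 0, (g 0 0 - ε) / g 1 0] := by
      rw [hεd]
      exact if_neg h0
    rw [e] at h
    have h1 : g 1 0 ∈ M := h 0
    have h2 : (g 0 0 - ε) / g 1 0 ∈ M := h 1
    have h3 : g 0 0 ∈ M := by
      have : g 0 0 = (g 0 0 - ε) / g 1 0 * g 1 0 + ε := by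
        field_simp
        ring
      rw [this]
      exact M.add_mem (M.mul_mem h2 h1) hε
    have h4 : g 1 1 ∈ M := by
      have : g 1 1 = ε + ε - g 0 0 := by linarith
      rw [this]
      exact M.sub_mem (M.add_mem hε hε) h3
    have h5 : g 0 1 = (g 0 0 * g 1 1 - 1) / g 1 0 := by
      field_simp
      linarith
    intro i j
    fin_cases i <;> fin_cases j
    · exact h3
    · show g 0 1 ∈ M
      rw [h5]
      exact M.div_mem (M.sub_mem (M.mul_mem h3 h4) M.one_mem) h1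
    · exact h1
    · exact h4

/-- The group `{1, -1}`. -/
def pm : Subgroup SL(2, ℂ) where
  carrier := {M | M = 1 ∨ M = -1}
  mul_mem' := by
    rintro a b (rfl | rfl) (rfl | rfl)
    · left; simp
    · right; simp
    · right; simp
    · left; simp
  one_mem' := Or.inl rfl
  inv_mem' := by
    rintro a (rfl | rfl)
    · left; simp
    · right
      show (-1 : SL(2, ℂ))⁻¹ = -1
      rw [inv_eq_iff_mul_eq_one]
      simp

variable {τ : ℕ → ℝ →+* ℂ} {l : Filter ℕ}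

theorem par3_lim {g : SL(2, ℝ)} (h0 : par3 g 0 ≠ 0)
    (h : ∀ k, Tendsto (fun n => τ n (par3 g k)) l (𝓝 (if k = 0 then 1 else 0))) : g ∈ limSub τ l pm := by
  refine ⟨1, Or.inl rfl, ?_⟩
  have hd := det_eq g
  have h00 : g 0 0 ≠ 0 := by
    intro h1
    have e : par3 g = ![0, g 0 1, g 1 1] := if_pos h1
    rw [e] at h0
    exact h0 rfl
  have e : par3 g = ![g 0 0, g 0 1, g 1 0] := if_neg h00
  rw [e] at h
  have h1 : Tendsto (fun n => τ n (g 0 0)) l (𝓝 1) := h 0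
  have h2 : Tendsto (fun n => τ n (g 0 1)) l (𝓝 0) := h 1
  have h3 : Tendsto (fun n => τ n (g 1 0)) l (𝓝 0) := h 2
  have h4 : g 1 1 = (1 + g 0 1 * g 1 0) / g 0 0 := by
    field_simp
    linarith
  have h5 : Tendsto (fun n => τ n (g 1 1)) l (𝓝 1) := by
    have h6 := ((tendsto_const_nhds (x := (1 : ℂ))).add (h2.mul h3)).div h1 one_ne_zero
    rw [mul_zero, add_zero, div_one] at h6
    refine h6.congr fun n => ?_
    rw [h4, map_div₀, map_add, map_mul, map_one]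
    rfl
  intro i j
  fin_cases i <;> fin_cases j
  · exact h1
  · exact h2
  · exact h3
  · exact h5

theorem par2_lim {g : SL(2, ℝ)} (ht : tr g ^ 2 = 4) (h0 : par2 g 0 ≠ 0)
    (h : ∀ k, Tendsto (fun n => τ n (par2 g k)) l (𝓝 0)) :
    ∃ M : SL(2, ℂ), M ∈ pm ∧ Lim τ l g M ∧ (M : Matrix (Fin 2) (Fin 2) ℂ) = ((tr g / 2 : ℝ) : ℂ) • 1 := by
  have hd := det_eq g
  obtain ⟨ε, hεd⟩ : ∃ ε, ε = tr g / 2 := ⟨_, rfl⟩
  have hε2 : ε ^ 2 = 1 := by rw [hεd]; linarith
  have htr : g 0 0 + g 1 1 = 2 * ε := by rw [← tr_eq, hεd]; ring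
  have hεs : ε = 1 ∨ ε = -1 := by
    rcases sign_of_sq ht with h1 | h1
    · left; rw [hεd, h1]; norm_num
    · right; rw [hεd, h1]; norm_num
  have hτε : ∀ n, τ n ε = (ε : ℂ) := by
    intro n
    rcases hεs with h1 | h1
    · rw [h1]; simp
    · rw [h1]; simp
  have h10 : g 1 0 ≠ 0 := by
    intro h1
    have e : par2 g = ![0, g 0 1] := if_pos h1
    rw [e] at h0
    exact h0 rfl
  have e : par2 g = ![g 1 0, (g 0 0 - ε) / g 1 0] := by
    rw [hεd]
    exact if_neg h10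
  rw [e] at h
  have h1 : Tendsto (fun n => τ n (g 1 0)) l (𝓝 0) := h 0
  have h2 : Tendsto (fun n => τ n ((g 0 0 - ε) / g 1 0)) l (𝓝 0) := h 1
  have h3 : Tendsto (fun n => τ n (g 0 0)) l (𝓝 ε) := by
    have h6 := (h2.mul h1).add (tendsto_const_nhds (x := (ε : ℂ)))
    rw [mul_zero, zero_add] at h6
    refine h6.congr fun n => ?_
    rw [← map_mul, ← hτε n, ← map_add]
    congr 1
    field_simp
    ring
  have h4 : Tendsto (fun n => τ n (g 1 1)) l (𝓝 ε) := by
    have h6 := (tendsto_const_nhds (x := (2 * ε : ℂ))).sub h3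
    have h7 : (2 * ε : ℂ) - ε = ε := by ring
    rw [h7] at h6
    refine h6.congr fun n => ?_
    rw [← hτε n]
    have h8 : g 1 1 = 2 * ε - g 0 0 := by linarith
    rw [h8, map_sub, map_mul, map_ofNat]
  have h5 : Tendsto (fun n => τ n (g 0 1)) l (𝓝 0) := by
    have h6 := ((h2.mul h2).mul h1).neg
    rw [mul_zero, neg_zero] at h6
    refine h6.congr fun n => ?_
    rw [← map_mul, ← map_mul, ← map_neg]
    congr 1
    field_simp
    have h8 : g 1 1 = 2 * ε - g 0 0 := by linarith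
    rw [h8] at hd
    linear_combination hd - hε2
  have hlim : Lim τ l g ((ε : ℂ) • (1 : Matrix (Fin 2) (Fin 2) ℂ)) := by
    intro i j
    fin_cases i <;> fin_cases j
    · show Tendsto (fun n => τ n (g 0 0)) l (𝓝 (((ε : ℂ) • (1 : Matrix (Fin 2) (Fin 2) ℂ)) 0 0))
      simpa using h3
    · show Tendsto (fun n => τ n (g 0 1)) l (𝓝 (((ε : ℂ) • (1 : Matrix (Fin 2) (Fin 2) ℂ)) 0 1))
      simpa using h5
    · show Tendsto (fun n => τ n (g 1 0)) l (𝓝 (((ε : ℂ) • (1 : Matrix (Fin 2) (Fin 2) ℂ)) 1 0))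
      simpa using h1
    · show Tendsto (fun n => τ n (g 1 1)) l (𝓝 (((ε : ℂ) • (1 : Matrix (Fin 2) (Fin 2) ℂ)) 1 1))
      simpa using h4
  rw [← hεd]
  rcases hεs with h1 | h1
  · have e1 : (ε : ℂ) • (1 : Matrix (Fin 2) (Fin 2) ℂ) = ((1 : SL(2, ℂ)) : Matrix (Fin 2) (Fin 2) ℂ) := by
      rw [h1]; simp
    rw [e1] at hlim ⊢
    exact ⟨1, Or.inl rfl, hlim, rfl⟩
  · have e1 : (ε : ℂ) • (1 : Matrix (Fin 2) (Fin 2) ℂ) = ((-1 : SL(2, ℂ)) : Matrix (Fin 2) (Fin 2) ℂ) := by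
      rw [h1]; simp
    rw [e1] at hlim ⊢
    exact ⟨-1, Or.inr rfl, hlim, rfl⟩

end Pool.Agent.LCG
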