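import Pool.Agent.LCG.Coll

/-!
# LCG/Surface: surfaces with cusps
-/

namespace Pool.Agent.LCG

open Matrix Filter Topology Cardinal Pool.Agent.LCC
open scoped MatrixGroups commutatorElement

/-- A group generated by the standard generators of the fundamental group of a surface of genus `g` with `n`
punctures; the generators around the punctures are parabolic, and `A 0`, `B 0` have no common eigenvector and their
product is not elliptic (auxiliary form). -/
def CuspedAux (g n : ℕ) (Γ : Subgroup SL(2, ℝ)) : Prop :=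
  ∃ A B C : ℕ → SL(2, ℝ), Γ = Subgroup.closure {x | (∃ i < g, x = A i ∨ x = B i) ∨ ∃ j < n, x = C j} ∧
    ((List.range g).map fun i => ⁅A i, B i⁆).prod * ((List.range n).map C).prod = 1 ∧
    (∀ j < n, |tr (C j)| = 2 ∧ C j ≠ 1 ∧ C j ≠ -1) ∧ tr ⁅A 0, B 0⁆ ≠ 2 ∧ 2 ≤ |tr (A 0 * B 0)|

theorem noFix_of_comm {Γ : Subgroup SL(2, ℝ)} {a b : SL(2, ℝ)} (ha : a ∈ Γ) (hb : b ∈ Γ) (h : tr ⁅a, b⁆ ≠ 2) :
    NoFix Γ := by
  intro v hv
  by_contra hcon
  push Not at hcon
  obtain ⟨c, hc⟩ := hcon a ha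
  obtain ⟨d, hd⟩ := hcon b hb
  apply h
  have h1 : ((a : Mat) * b - (b : Mat) * a).det = 0 := by
    apply Matrix.exists_mulVec_eq_zero_iff.mp
    refine ⟨v, hv, ?_⟩
    rw [Matrix.sub_mulVec, ← Matrix.mulVec_mulVec, ← Matrix.mulVec_mulVec, hc, hd, Matrix.mulVec_smul,
      Matrix.mulVec_smul, hc, hd, smul_comm, sub_self]
  rw [det_comm_SL] at h1
  linarith

theorem exists_unipotent {Γ : Subgroup SL(2, ℝ)} {c : SL(2, ℝ)} (hc : c ∈ Γ) (ht : |tr c| = 2) (h1 : c ≠ 1)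
    (h2 : c ≠ -1) : ∃ u ∈ Γ, tr u = 2 ∧ u ≠ 1 := by
  rcases abs_choice (tr c) with h | h
  · exact ⟨c, hc, by rw [← h, ht], h1⟩
  · have htr : tr c = -2 := by linarith
    refine ⟨c ^ 2, Γ.pow_mem hc 2, by rw [tr_sq, htr]; norm_num, fun h3 => h2 ?_⟩
    have e : ∀ i j, c i 0 * c 0 j + c i 1 * c 1 j = (1 : Mat) i j := by
      intro i j
      rw [← mul_entries, ← pow_two, h3]
      rfl
    have hd := det_eq c
    rw [tr_eq] at htr
    have e00 := e 0 0
    have e01 := e 0 1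
    have e10 := e 1 0
    have e11 := e 1 1
    rw [one00] at e00
    rw [one01] at e01
    rw [one10] at e10
    rw [one11] at e11
    apply Subtype.ext
    apply mat_ext
    · show c 0 0 = -1
      linear_combination (-1 / 2 : ℝ) * e00 + c 0 0 / 2 * htr - hd / 2
    · show c 0 1 = -0
      linear_combination (-1 / 2 : ℝ) * e01 + c 0 1 / 2 * htr
    · show c 1 0 = -0
      linear_combination (-1 / 2 : ℝ) * e10 + c 1 0 / 2 * htr
    · show c 1 1 = -1
      linear_combination (-1 / 2 : ℝ) * e11 + c 1 1 / 2 * htr - hd / 2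

/-- The groups of generic surfaces of genus `g ≥ 1` with `n ≥ 1` cusps are collapsing. -/
theorem cusped_collapsing {g n : ℕ} (hg : 1 ≤ g) (hn : 1 ≤ n) {Γ : Subgroup SL(2, ℝ)} (hΓ : CuspedAux g n Γ)
    (htd : ((6 * g - 6 + 2 * n : ℕ) : Cardinal) ≤ Algebra.trdeg ℚ (kf Γ)) : Collapsing Γ := by
  obtain ⟨g, rfl⟩ : ∃ g', g = g' + 1 := ⟨g - 1, by omega⟩
  obtain ⟨n, rfl⟩ : ∃ n', n = n' + 1 := ⟨n - 1, by omega⟩
  obtain ⟨A, B, C, hcl, hrel, hpar, hirr, hhyp⟩ := hΓ
  obtain ⟨P, hP, x, y, ζ, hζ, hA, hB⟩ := exists_normal hirr hhyp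
  obtain ⟨A', hA'⟩ : ∃ A' : ℕ → SL(2, ℝ), A' = fun i => cj P hP (A i) := ⟨_, rfl⟩
  obtain ⟨B', hB'⟩ : ∃ B' : ℕ → SL(2, ℝ), B' = fun i => cj P hP (B i) := ⟨_, rfl⟩
  obtain ⟨C', hC'⟩ : ∃ C' : ℕ → SL(2, ℝ), C' = fun i => cj P hP (C i) := ⟨_, rfl⟩
  have hNF : NF g n A' B' C' x y ζ := by
    refine ⟨hζ, by rw [hA']; exact hA, by rw [hB']; exact hB, ?_, ?_⟩
    · have h1 := congrArg (cj P hP) hrel
      rw [map_one, map_mul, map_list_prod, map_list_prod, List.map_map, List.map_map, List.range_succ_eq_map,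
        List.range_succ, List.map_cons, List.prod_cons, List.map_append, List.prod_append, List.map_map] at h1
      rw [hA', hB', hC', WW]
      simp only [Function.comp_def, map_commutatorElement, List.map_cons, List.map_nil, List.prod_cons,
        List.prod_nil, mul_one] at h1
      rw [← h1]
      simp only [Nat.succ_eq_add_one, mul_assoc]
    · intro j hj
      rw [hC']
      show tr (cj P hP (C j)) ^ 2 = 4
      rw [tr_cj, ← sq_abs, (hpar j hj).1]
      norm_num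
  obtain ⟨E, hE⟩ : ∃ E, E = adj (K1 g n A' B' C' y ζ) x := ⟨_, rfl⟩
  -- the entries of the generators
  have hK1E : K1 g n A' B' C' y ζ ≤ E := by rw [hE]; exact le_adj _ _
  have hK0E : K0 g n A' B' C' ≤ E := K0_le_K1.trans hK1E
  have hxE : x ∈ E := by rw [hE]; exact mem_adj _ _
  have hyE : y ∈ E := hK1E (le_adj _ _ (mem_adj _ _))
  have hζE : ζ ∈ E := hK1E (mem_adj _ _)
  have hA0 : A' 0 ∈ entSub E := by
    obtain ⟨a1, a2, a3, a4⟩ := hNF.entA
    intro i j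
    fin_cases i <;> fin_cases j
    · show A' 0 0 0 ∈ E
      rw [a1]; exact hxE
    · show A' 0 0 1 ∈ E
      rw [a2]; exact neg_mem (one_mem _)
    · show A' 0 1 0 ∈ E
      rw [a3]; exact one_mem _
    · show A' 0 1 1 ∈ E
      rw [a4]; exact zero_mem _
  have hB0 : B' 0 ∈ entSub E := by
    obtain ⟨a1, a2, a3, a4⟩ := hNF.entB
    intro i j
    fin_cases i <;> fin_cases j
    · show B' 0 0 0 ∈ E
      rw [a1]; exact zero_mem _
    · show B' 0 0 1 ∈ E
      rw [a2]; exact hζE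
    · show B' 0 1 0 ∈ E
      rw [a3]; exact neg_mem (inv_mem hζE)
    · show B' 0 1 1 ∈ E
      rw [a4]; exact hyE
  have hAE : ∀ i < g + 1, A' i ∈ entSub E := by
    intro i hi
    rcases Nat.eq_zero_or_pos i with h0 | h0
    · rw [h0]; exact hA0
    · have h1 := entSub_mono hK0E (K0_A (n := n) (B := B') (C := C') (i - 1) (by omega))
      rwa [Nat.sub_add_cancel h0] at h1
  have hBE : ∀ i < g + 1, B' i ∈ entSub E := by
    intro i hi
    rcases Nat.eq_zero_or_pos i with h0 | h0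
    · rw [h0]; exact hB0
    · have h1 := entSub_mono hK0E (K0_B (n := n) (A := A') (C := C') (i - 1) (by omega))
      rwa [Nat.sub_add_cancel h0] at h1
  have hCE : ∀ j < n + 1, C' j ∈ entSub E := by
    intro j hj
    rcases Nat.lt_or_ge j n with h0 | h0
    · exact entSub_mono hK0E (hNF.K0_C j h0)
    · have h1 : j = n := by omega
      have h2 : C' n = (⁅A' 0, B' 0⁆ * WW g n A' B' C')⁻¹ := eq_inv_of_mul_eq_one_right hNF.rel
      rw [h1, h2]
      apply Subgroup.inv_mem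
      apply Subgroup.mul_mem
      · rw [commutatorElement_def]
        exact mul_mem (mul_mem (mul_mem hA0 hB0) (inv_mem hA0)) (inv_mem hB0)
      · exact entSub_mono hK0E hNF.K0_W
  have hmap : ∀ G : Subgroup SL(2, ℝ), (∀ i < g + 1, A' i ∈ G) → (∀ i < g + 1, B' i ∈ G) →
      (∀ j < n + 1, C' j ∈ G) → ∀ γ ∈ Γ, cj P hP γ ∈ G := by
    intro G h1 h2 h3 γ hγ
    have h4 : Γ ≤ G.comap (cj P hP) := by
      rw [hcl, Subgroup.closure_le]
      rintro z (⟨i, hi, rfl | rfl⟩ | ⟨j, hj, rfl⟩)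
      · have := h1 i hi
        rwa [hA'] at this
      · have := h2 i hi
        rwa [hB'] at this
      · have := h3 j hj
        rwa [hC'] at this
    exact h4 hγ
  have hkf : kf Γ ≤ E := by
    rw [kf, IntermediateField.adjoin_le_iff]
    rintro _ ⟨γ, hγ, rfl⟩
    have h1 := tr_mem_of_entSub (hmap _ hAE hBE hCE γ (sqSub_le Γ hγ))
    rwa [tr_cj] at h1
  have htd' : ((6 * g + 2 * n + 2 : ℕ) : Cardinal) ≤ td (adj (K1 g n A' B' C' y ζ) x) := by
    rw [← hE]
    refine le_trans ?_ (td_mono hkf)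
    have h1 : 6 * (g + 1) - 6 + 2 * (n + 1) = 6 * g + 2 * n + 2 := by omega
    rw [h1] at htd
    exact htd
  obtain ⟨τ, l, G, hl, hG, h1, h2, h3⟩ := hNF.collapsing htd'
  have hsub : Γ.map (cj P hP) ≤ limSub τ l G := by
    rintro _ ⟨γ, hγ, rfl⟩
    exact hmap _ h1 h2 h3 γ hγ
  have hcol : Collapsing (Γ.map (cj P hP)) := collapsing_of_lim hG hsub
  intro F hF hFΓ δ hδ
  obtain ⟨σ, hσ⟩ := hcol (cj P hP '' F) (hF.image _) (by
    rintro _ ⟨γ, hγ, rfl⟩
    exact ⟨γ, hFΓ γ hγ, rfl⟩) δ hδ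
  refine ⟨σ, fun γ hγ r hr hrt => hσ (cj P hP γ) ⟨γ, hγ, rfl⟩ r hr ?_⟩
  rw [tr_cj]
  exact hrt

end Pool.Agent.LCG
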