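import Pool.Agent.LCG.Conj0
import Pool.Agent.LCG.Surface

/-!
# LCG/Sphere: generic spheres with an even number of punctures are collapsing
-/

namespace Pool.Agent.LCG

open Matrix Filter Topology Cardinal Pool.Agent.LCC
open scoped MatrixGroups commutatorElement

/-- The coordinates of `C 2, …, C (N + 1)`. -/
noncomputable def pS (N : ℕ) (C : ℕ → SL(2, ℝ)) : Fin N × Fin 2 → ℝ := fun p => par2 (C (p.1 + 2)) p.2

/-- The product of `C 2, …, C (N + 1)`. -/
def WS (N : ℕ) (C : ℕ → SL(2, ℝ)) : SL(2, ℝ) := ((List.range N).map fun j => C (j + 2)).prod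

/-- The product of the signs of the traces of `C 2, …, C (N + 1)`. -/
noncomputable def qS (N : ℕ) (C : ℕ → SL(2, ℝ)) : ℝ := ((List.range N).map fun j => tr (C (j + 2)) / 2).prod

theorem WS_succ (N : ℕ) (C : ℕ → SL(2, ℝ)) : WS (N + 1) C = WS N C * C (N + 2) := by
  rw [WS, WS, List.range_succ, List.map_append, List.prod_append]
  simp

theorem qS_succ (N : ℕ) (C : ℕ → SL(2, ℝ)) : qS (N + 1) C = qS N C * (tr (C (N + 2)) / 2) := by
  rw [qS, qS, List.range_succ, List.map_append, List.prod_append]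
  simp

theorem WS_mem {N : ℕ} {C : ℕ → SL(2, ℝ)} {G : Subgroup SL(2, ℝ)} (h : ∀ j < N, C (j + 2) ∈ G) : WS N C ∈ G := by
  apply Subgroup.list_prod_mem
  intro x hx
  obtain ⟨i, hi, rfl⟩ := List.mem_map.mp hx
  exact h i (List.mem_range.mp hi)

/-- The coordinates lie in the field generated by the entries. -/
theorem par2_mem_of_ent {M : IntermediateField ℚ ℝ} {g : SL(2, ℝ)} (ht : tr g ^ 2 = 4) (h : g ∈ entSub M) (k : Fin 2) :
    par2 g k ∈ M := by
  by_cases h0 : g 1 0 = 0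
  · have e : par2 g = ![0, g 0 1] := if_pos h0
    rw [e]
    fin_cases k
    · exact M.zero_mem
    · exact h 0 1
  · have e : par2 g = ![g 1 0, (g 0 0 - tr g / 2) / g 1 0] := if_neg h0
    rw [e]
    fin_cases k
    · exact h 1 0
    · exact M.div_mem (M.sub_mem (h 0 0) (half_mem ht)) (h 1 0)

/-- Groups of punctured spheres in normal form: `N + 3` punctures. -/
structure NS (N : ℕ) (C : ℕ → SL(2, ℝ)) (s a : ℝ) : Prop where
  hs : s = 1 ∨ s = -1
  C0 : (C 0 : Mat) = (tr (C 0) / 2) • !![1, a; 0, 1]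
  C1 : (C 1 : Mat) = (tr (C 1) / 2) • !![1, 0; s * a, 1]
  rel : C 0 * C 1 * WS N C * C (N + 2) = 1
  par : ∀ j < N + 3, tr (C j) ^ 2 = 4
  sgn : tr (C 0) / 2 * (tr (C 1) / 2) * qS N C * (tr (C (N + 2)) / 2) = 1

section

variable {N : ℕ} {C : ℕ → SL(2, ℝ)} {s a : ℝ}

theorem half_sq {t : ℝ} (h : t ^ 2 = 4) : (t / 2) ^ 2 = 1 := by linarith

theorem NS.ent0 (h : NS N C s a) : C 0 0 0 = tr (C 0) / 2 ∧ C 0 0 1 = tr (C 0) / 2 * a ∧ C 0 1 0 = 0 ∧
    C 0 1 1 = tr (C 0) / 2 := by
  have h0 := h.C0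
  have e := fun i j => congrFun (congrFun h0 i) j
  refine ⟨?_, ?_, ?_, ?_⟩
  · simpa using e 0 0
  · simpa using e 0 1
  · simpa using e 1 0
  · simpa using e 1 1

theorem NS.ent1 (h : NS N C s a) : C 1 0 0 = tr (C 1) / 2 ∧ C 1 0 1 = 0 ∧ C 1 1 0 = tr (C 1) / 2 * (s * a) ∧
    C 1 1 1 = tr (C 1) / 2 := by
  have h0 := h.C1
  have e := fun i j => congrFun (congrFun h0 i) j
  refine ⟨?_, ?_, ?_, ?_⟩
  · simpa using e 0 0
  · simpa using e 0 1
  · simpa using e 1 0
  · simpa using e 1 1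

/-- the quadratic equation -/
theorem NS.eqn (h : NS N C s a) :
    s * (WS N C) 0 0 * a ^ 2 + ((WS N C) 1 0 + s * (WS N C) 0 1) * a + ((WS N C) 0 0 + (WS N C) 1 1 -
      tr (C 0) / 2 * (tr (C 1) / 2) * tr (C (N + 2))) = 0 := by
  have h1 : tr (C 0 * C 1 * WS N C) = tr (C (N + 2)) := by
    have h2 : C 0 * C 1 * WS N C = (C (N + 2))⁻¹ := eq_inv_of_mul_eq_one_left h.rel
    obtain ⟨g1, g2, g3, g4⟩ := inv_entries (C (N + 2))
    rw [h2, tr_eq, tr_eq, g1, g4]
    ring
  obtain ⟨a1, a2, a3, a4⟩ := h.ent0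
  obtain ⟨b1, b2, b3, b4⟩ := h.ent1
  have e0 := half_sq (h.par 0 (by omega))
  have e1 := half_sq (h.par 1 (by omega))
  rw [← h1, tr_eq (C 0 * C 1 * WS N C)]
  simp only [mul_entries, a1, a2, a3, a4, b1, b2, b3, b4]
  generalize tr (C 0) / 2 = ε at *
  generalize tr (C 1) / 2 = η at *
  have e2 : ε * η * (ε * η) = 1 := by
    calc ε * η * (ε * η) = ε ^ 2 * η ^ 2 := by ring
      _ = 1 := by rw [e0, e1, one_mul]
  linear_combination (-(s * a ^ 2 * (WS N C) 0 0 + a * (WS N C) 1 0 + s * a * (WS N C) 0 1 + (WS N C) 0 0 +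
    (WS N C) 1 1)) * e2

/-- The field generated by the coordinates. -/
noncomputable abbrev KS (N : ℕ) (C : ℕ → SL(2, ℝ)) : IntermediateField ℚ ℝ := fld (pS N C)

theorem KS_C (hpar : ∀ j < N + 3, tr (C j) ^ 2 = 4) (j : ℕ) (hj : j < N) : C (j + 2) ∈ entSub (KS N C) :=
  par2_mem (hpar (j + 2) (by omega)) fun k => by
    have h1 := mem_fld (pS N C) (⟨j, hj⟩, k)
    have h2 : pS N C (⟨j, hj⟩, k) = par2 (C (j + 2)) k := by simp [pS]
    rwa [h2] at h1

theorem KS_W (hpar : ∀ j < N + 3, tr (C j) ^ 2 = 4) : WS N C ∈ entSub (KS N C) := WS_mem (KS_C hpar)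

/-- The coordinates are independent. -/
theorem NS.ind (h : NS N C s a) (hN : 1 ≤ N) (htd : ((2 * N : ℕ) : Cardinal) ≤ td (adj (KS N C) a)) :
    AlgebraicIndependent ℚ (pS N C) := by
  have hW := KS_W h.par
  have hsK : s ∈ KS N C := by
    rcases h.hs with h1 | h1
    · rw [h1]; exact one_mem _
    · rw [h1]; exact neg_mem (one_mem _)
  have heK : tr (C 0) / 2 * (tr (C 1) / 2) * tr (C (N + 2)) ∈ KS N C := by
    have h1 := half_mem (M := KS N C) (h.par (N + 2) (by omega))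
    have h2 : tr (C (N + 2)) = tr (C (N + 2)) / 2 + tr (C (N + 2)) / 2 := by ring
    refine mul_mem (mul_mem (half_mem (h.par 0 (by omega))) (half_mem (h.par 1 (by omega)))) ?_
    rw [h2]
    exact add_mem h1 h1
  have c1 : s * (WS N C) 0 0 ∈ KS N C := mul_mem hsK (hW 0 0)
  have c2 : (WS N C) 1 0 + s * (WS N C) 0 1 ∈ KS N C := add_mem (hW 1 0) (mul_mem hsK (hW 0 1))
  have c3 : (WS N C) 0 0 + (WS N C) 1 1 - tr (C 0) / 2 * (tr (C 1) / 2) * tr (C (N + 2)) ∈ KS N C :=
    sub_mem (add_mem (hW 0 0) (hW 1 1)) heK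
  have hs0 : s ≠ 0 := by
    rcases h.hs with h1 | h1 <;> rw [h1] <;> norm_num
  have hcard : Fintype.card (Fin N × Fin 2) = 2 * N := by
    rw [Fintype.card_prod, Fintype.card_fin, Fintype.card_fin, mul_comm]
  apply algInd_of_td
  rw [hcard]
  show ((2 * N : ℕ) : Cardinal) ≤ td (KS N C)
  by_cases h00 : (WS N C) 0 0 = 0
  · by_cases hβ : (WS N C) 1 0 + s * (WS N C) 0 1 = 0
    · -- the word is one of finitely many matrices
      exfalso
      have heq := h.eqn
      rw [hβ, h00, mul_zero, zero_mul, zero_mul, zero_add, zero_add, zero_add] at heq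
      have hd := det_eq (WS N C)
      rw [h00, zero_mul, zero_sub] at hd
      have h10 : (WS N C) 1 0 = - (s * (WS N C) 0 1) := by linarith
      rw [h10] at hd
      have h01 : (WS N C) 0 1 ^ 2 = s := by
        rcases h.hs with h1 | h1
        · rw [h1] at hd ⊢
          linarith
        · rw [h1] at hd ⊢
          linarith
      have hs1 : s = 1 := by
        rcases h.hs with h1 | h1
        · exact h1
        · rw [h1] at h01
          nlinarith [sq_nonneg ((WS N C) 0 1)]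
      have h01' : (WS N C) 0 1 = 1 ∨ (WS N C) 0 1 = -1 := by
        rw [hs1] at h01
        have : ((WS N C) 0 1 - 1) * ((WS N C) 0 1 + 1) = 0 := by linear_combination h01
        rcases mul_eq_zero.mp this with h1 | h1
        · left; linarith
        · right; linarith
      obtain ⟨M, rfl⟩ : ∃ M, N = M + 1 := ⟨N - 1, by omega⟩
      have hparM : ∀ j < M + 3, tr (C j) ^ 2 = 4 := fun j hj => h.par j (by omega)
      have hWM : WS (M + 1) C ∈ entSub (KS M C) := by
        have h01K : (WS (M + 1) C) 0 1 ∈ KS M C := by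
          rcases h01' with h1 | h1
          · rw [h1]; exact one_mem _
          · rw [h1]; exact neg_mem (one_mem _)
        intro i j
        fin_cases i <;> fin_cases j
        · show (WS (M + 1) C) 0 0 ∈ KS M C
          rw [h00]; exact zero_mem _
        · exact h01K
        · show (WS (M + 1) C) 1 0 ∈ KS M C
          rw [h10, hs1, one_mul]; exact neg_mem h01K
        · show (WS (M + 1) C) 1 1 ∈ KS M C
          have h1 := half_mem (M := KS M C) (h.par (M + 1 + 2) (by omega))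
          have h2 : (WS (M + 1) C) 1 1 = tr (C 0) / 2 * (tr (C 1) / 2) * (tr (C (M + 1 + 2)) / 2 +
              tr (C (M + 1 + 2)) / 2) := by linear_combination heq
          rw [h2]
          exact mul_mem (mul_mem (half_mem (h.par 0 (by omega))) (half_mem (h.par 1 (by omega)))) (add_mem h1 h1)
      have hlast : C (M + 2) ∈ entSub (KS M C) := by
        have h1 : C (M + 2) = (WS M C)⁻¹ * WS (M + 1) C := by rw [WS_succ, inv_mul_cancel_left]
        rw [h1]
        exact mul_mem (inv_mem (KS_W hparM)) hWM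
      have hle : KS (M + 1) C ≤ KS M C := by
        show IntermediateField.adjoin ℚ _ ≤ _
        rw [IntermediateField.adjoin_le_iff]
        rintro _ ⟨⟨⟨j, hj⟩, k⟩, rfl⟩
        show par2 (C (j + 2)) k ∈ KS M C
        rcases Nat.lt_or_ge j M with h1 | h1
        · exact mem_fld (pS M C) (⟨j, h1⟩, k)
        · have h2 : j = M := by omega
          rw [h2]
          exact par2_mem_of_ent (h.par (M + 2) (by omega)) hlast k
      have h1 : td (adj (KS (M + 1) C) a) ≤ td (KS M C) + 1 :=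
        (td_adj_le _ _).trans (add_le_add (td_mono hle) le_rfl)
      have h2 : td (KS M C) ≤ ((2 * M : ℕ) : Cardinal) := by
        have h3 := td_fld_le (pS M C)
        rwa [Fintype.card_prod, Fintype.card_fin, Fintype.card_fin, mul_comm] at h3
      have h3 : ((2 * (M + 1) : ℕ) : Cardinal) ≤ ((2 * M : ℕ) : Cardinal) + 1 :=
        htd.trans (h1.trans (add_le_add h2 le_rfl))
      have h4 : 2 * (M + 1) ≤ 2 * M + 1 := by exact_mod_cast h3
      omega
    · -- `a` lies in the field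
      refine htd.trans (td_adj_of_algebraic ?_)
      have hx : a ∈ KS N C := by
        have h2 : a = -((WS N C) 0 0 + (WS N C) 1 1 - tr (C 0) / 2 * (tr (C 1) / 2) * tr (C (N + 2))) /
            ((WS N C) 1 0 + s * (WS N C) 0 1) := by
          rw [eq_div_iff hβ]
          linear_combination h.eqn - s * a ^ 2 * h00
        rw [h2]
        exact div_mem (neg_mem c3) c2
      exact isAlgebraic_algebraMap (⟨a, hx⟩ : KS N C)
  · exact htd.trans (td_adj_of_algebraic (isAlgebraic_of_quadratic c1 c2 c3 (mul_ne_zero hs0 h00) h.eqn))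

theorem lim_WS {τ : ℕ → ℝ →+* ℂ} {l : Filter ℕ}
    (h : ∀ j < N, Lim τ l (C (j + 2)) (((tr (C (j + 2)) / 2 : ℝ) : ℂ) • 1)) :
    Lim τ l (WS N C) (((qS N C : ℝ) : ℂ) • 1) := by
  induction N with
  | zero =>
    have h1 : WS 0 C = 1 := by simp [WS]
    have h2 : qS 0 C = 1 := by simp [qS]
    rw [h1, h2]
    simpa using Lim.one
  | succ N ih =>
    have h1 := (ih fun j hj => h j (by omega)).mul (h N (by omega))
    rw [WS_succ, qS_succ]
    convert h1 using 1
    rw [Complex.ofReal_mul, Matrix.smul_mul, Matrix.one_mul, smul_smul]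

theorem qS_sq (h : ∀ j < N, tr (C (j + 2)) ^ 2 = 4) : qS N C ^ 2 = 1 := by
  induction N with
  | zero => simp [qS]
  | succ N ih =>
    rw [qS_succ, mul_pow, ih fun j hj => h j (by omega), half_sq (h N (by omega)), one_mul]

theorem NS.collapsing (h : NS N C s a) (hind : AlgebraicIndependent ℚ (pS N C)) :
    ∃ (τ : ℕ → ℝ →+* ℂ) (l : Filter ℕ), l.NeBot ∧ ∀ j < N + 3, C j ∈ limSub τ l pm := by
  obtain ⟨τ, hτ⟩ := exists_seq hind (fun _ => 0)
  obtain ⟨l, hl⟩ : ∃ l : Ultrafilter ℕ, l = hyperfilter ℕ := ⟨_, rfl⟩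
  have hle : (l : Filter ℕ) ≤ atTop := by rw [hl]; exact Nat.hyperfilter_le_atTop
  have hC : ∀ j < N, ∃ M : SL(2, ℂ), M ∈ pm ∧ Lim τ l (C (j + 2)) M ∧
      (M : Matrix (Fin 2) (Fin 2) ℂ) = ((tr (C (j + 2)) / 2 : ℝ) : ℂ) • 1 := by
    intro j hj
    apply par2_lim (h.par (j + 2) (by omega))
    · have h1 := hind.ne_zero (⟨j, hj⟩, 0)
      exact h1
    · intro k
      exact (hτ (⟨j, hj⟩, k)).mono_left hle
  have hCpm : ∀ j < N, C (j + 2) ∈ limSub τ l pm := fun j hj => by
    obtain ⟨M, hM, hlim, -⟩ := hC j hj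
    exact ⟨M, hM, hlim⟩
  have hW : Lim τ l (WS N C) (((qS N C : ℝ) : ℂ) • 1) := lim_WS fun j hj => by
    obtain ⟨M, -, hlim, hM⟩ := hC j hj
    rwa [hM] at hlim
  have hq2 : qS N C ^ 2 = 1 := qS_sq fun j (hj : j < N) => h.par (j + 2) (by omega)
  have w00 : Tendsto (fun k => τ k ((WS N C) 0 0)) l (𝓝 (qS N C : ℂ)) := by simpa using hW 0 0
  have w01 : Tendsto (fun k => τ k ((WS N C) 0 1)) l (𝓝 0) := by simpa using hW 0 1
  have w10 : Tendsto (fun k => τ k ((WS N C) 1 0)) l (𝓝 0) := by simpa using hW 1 0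
  have w11 : Tendsto (fun k => τ k ((WS N C) 1 1)) l (𝓝 (qS N C : ℂ)) := by simpa using hW 1 1
  have e0 := half_sq (h.par 0 (by omega))
  have e1 := half_sq (h.par 1 (by omega))
  have e2 := half_sq (h.par (N + 2) (by omega))
  have heT : tr (C 0) / 2 * (tr (C 1) / 2) * tr (C (N + 2)) = 2 * qS N C := by
    have h1 := h.sgn
    have h2 : tr (C 0) / 2 * (tr (C 1) / 2) * tr (C (N + 2)) =
        (tr (C 0) / 2 * (tr (C 1) / 2) * qS N C * (tr (C (N + 2)) / 2)) * (2 * qS N C) := by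
      linear_combination (-tr (C 0) / 2 * (tr (C 1) / 2) * tr (C (N + 2))) * hq2
    rw [h2, h1, one_mul]
  have hsn : ∀ k, τ k s = (s : ℂ) := by
    intro k
    rcases h.hs with h1 | h1
    · rw [h1]; simp
    · rw [h1]; simp
  have hqn : ∀ k, τ k (qS N C) = (qS N C : ℂ) := by
    intro k
    have h1 : (qS N C - 1) * (qS N C + 1) = 0 := by linear_combination hq2
    rcases mul_eq_zero.mp h1 with h2 | h2
    · have : qS N C = 1 := by linarith
      rw [this]; simp
    · have : qS N C = -1 := by linarith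
      rw [this]; simp
  -- the coefficients
  have hα : Tendsto (fun k => τ k (s * (WS N C) 0 0)) l (𝓝 ((s : ℂ) * qS N C)) := by
    have h1 := (tendsto_const_nhds (x := (s : ℂ))).mul w00
    refine h1.congr fun k => ?_
    rw [map_mul, hsn]
  have hβ : Tendsto (fun k => τ k ((WS N C) 1 0 + s * (WS N C) 0 1)) l (𝓝 0) := by
    have h1 := w10.add ((tendsto_const_nhds (x := (s : ℂ))).mul w01)
    rw [mul_zero, add_zero] at h1
    refine h1.congr fun k => ?_
    rw [map_add, map_mul, hsn]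
  have hγ : Tendsto (fun k => τ k ((WS N C) 0 0 + (WS N C) 1 1 -
      tr (C 0) / 2 * (tr (C 1) / 2) * tr (C (N + 2)))) l (𝓝 0) := by
    have h1 := (w00.add w11).sub (tendsto_const_nhds (x := (2 * qS N C : ℂ)))
    have h2 : (qS N C : ℂ) + qS N C - 2 * qS N C = 0 := by ring
    rw [h2] at h1
    refine h1.congr fun k => ?_
    rw [heT, map_sub, map_add, map_mul, map_ofNat, hqn]
  have hqn1 : ‖(qS N C : ℂ)‖ = 1 := by
    rw [Complex.norm_real, Real.norm_eq_abs]
    have h1 : |qS N C| ^ 2 = 1 := by rw [sq_abs, hq2]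
    nlinarith [abs_nonneg (qS N C)]
  have hsn1 : ‖(s : ℂ)‖ = 1 := by
    rcases h.hs with h1 | h1 <;> rw [h1] <;> simp
  have hbd : ∀ᶠ k in (l : Filter ℕ), ‖τ k a‖ ≤ 5 := by
    have k1 := hα.norm.eventually (lt_mem_nhds (show (1 : ℝ) / 2 < ‖(s : ℂ) * qS N C‖ by
      rw [norm_mul, hsn1, hqn1]; norm_num))
    have k2 := hβ.norm.eventually (gt_mem_nhds (show ‖(0 : ℂ)‖ < 1 by simp))
    have k3 := hγ.norm.eventually (gt_mem_nhds (show ‖(0 : ℂ)‖ < 5 by simp))
    filter_upwards [k1, k2, k3] with k k1 k2 k3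
    refine norm_root_le k1.le k2.le k3.le ?_
    have h1 := congrArg (τ k) h.eqn
    rw [map_zero, map_add, map_add, map_mul _ (s * _), map_mul _ (_ + _), map_pow] at h1
    exact h1
  obtain ⟨ai, -, hai⟩ := (isCompact_closedBall (0 : ℂ) 5).ultrafilter_le_nhds (l.map fun k => τ k a) (by
    rw [Ultrafilter.coe_map, le_principal_iff, mem_map]
    filter_upwards [hbd] with k hk
    rw [Set.mem_preimage, mem_closedBall_zero_iff]
    exact hk)
  have ha : Tendsto (fun k => τ k a) l (𝓝 ai) := hai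
  have heq : (s : ℂ) * qS N C * ai ^ 2 + 0 * ai + 0 = 0 := by
    have h1 := ((hα.mul (ha.pow 2)).add (hβ.mul ha)).add hγ
    refine tendsto_nhds_unique h1 ?_
    have h2 : ∀ k, τ k (s * (WS N C) 0 0) * τ k a ^ 2 + τ k ((WS N C) 1 0 + s * (WS N C) 0 1) * τ k a +
        τ k ((WS N C) 0 0 + (WS N C) 1 1 - tr (C 0) / 2 * (tr (C 1) / 2) * tr (C (N + 2))) = 0 := by
      intro k
      have h1 := congrArg (τ k) h.eqn
      rw [map_zero, map_add, map_add, map_mul _ (s * _), map_mul _ (_ + _), map_pow] at h1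
      exact h1
    simp only [h2]
    exact tendsto_const_nhds
  have hai0 : ai = 0 := by
    rw [zero_mul, add_zero, add_zero] at heq
    rcases mul_eq_zero.mp heq with h1 | h1
    · rw [← norm_eq_zero, norm_mul, hsn1, hqn1] at h1
      norm_num at h1
    · simpa using h1
  rw [hai0] at ha
  have hhalf : ∀ {t : ℝ}, t ^ 2 = 4 → ∀ k, τ k (t / 2) = ((t / 2 : ℝ) : ℂ) := by
    intro t ht k
    rcases sign_of_sq ht with h1 | h1
    · rw [h1]; norm_num
    · rw [h1]; norm_num
  have hpmM : ∀ {t : ℝ}, t ^ 2 = 4 → ∃ M : SL(2, ℂ), M ∈ pm ∧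
      (M : Matrix (Fin 2) (Fin 2) ℂ) = ((t / 2 : ℝ) : ℂ) • 1 := by
    intro t ht
    rcases sign_of_sq ht with h1 | h1
    · exact ⟨1, Or.inl rfl, by rw [h1]; simp⟩
    · exact ⟨-1, Or.inr rfl, by rw [h1]; simp⟩
  have hC0 : C 0 ∈ limSub τ l pm := by
    obtain ⟨M, hM, hMe⟩ := hpmM (h.par 0 (by omega))
    refine ⟨M, hM, ?_⟩
    rw [hMe]
    obtain ⟨a1, a2, a3, a4⟩ := h.ent0
    have hh := hhalf (h.par 0 (by omega))
    intro i j
    fin_cases i <;> fin_cases j
    · show Tendsto (fun k => τ k (C 0 0 0)) l _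
      simp only [a1, hh]
      simp
    · show Tendsto (fun k => τ k (C 0 0 1)) l _
      simp only [a2, map_mul, hh]
      simpa using (tendsto_const_nhds (x := ((tr (C 0) / 2 : ℝ) : ℂ))).mul ha
    · show Tendsto (fun k => τ k (C 0 1 0)) l _
      simp only [a3, map_zero]
      simp
    · show Tendsto (fun k => τ k (C 0 1 1)) l _
      simp only [a4, hh]
      simp
  have hC1 : C 1 ∈ limSub τ l pm := by
    obtain ⟨M, hM, hMe⟩ := hpmM (h.par 1 (by omega))
    refine ⟨M, hM, ?_⟩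
    rw [hMe]
    obtain ⟨a1, a2, a3, a4⟩ := h.ent1
    have hh := hhalf (h.par 1 (by omega))
    intro i j
    fin_cases i <;> fin_cases j
    · show Tendsto (fun k => τ k (C 1 0 0)) l _
      simp only [a1, hh]
      simp
    · show Tendsto (fun k => τ k (C 1 0 1)) l _
      simp only [a2, map_zero]
      simp
    · show Tendsto (fun k => τ k (C 1 1 0)) l _
      simp only [a3, map_mul, hh, hsn]
      simpa using (tendsto_const_nhds (x := ((tr (C 1) / 2 : ℝ) : ℂ))).mul
        ((tendsto_const_nhds (x := (s : ℂ))).mul ha)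
    · show Tendsto (fun k => τ k (C 1 1 1)) l _
      simp only [a4, hh]
      simp
  refine ⟨τ, l, inferInstance, fun j hj => ?_⟩
  rcases Nat.lt_or_ge j 1 with h1 | h1
  · have : j = 0 := by omega
    rw [this]; exact hC0
  rcases Nat.lt_or_ge j 2 with h2 | h2
  · have : j = 1 := by omega
    rw [this]; exact hC1
  rcases Nat.lt_or_ge (j - 2) N with h3 | h3
  · have h4 := hCpm (j - 2) h3
    rwa [Nat.sub_add_cancel h2] at h4
  · have h4 : j = N + 2 := by omega
    have h5 : C (N + 2) = (C 0 * C 1 * WS N C)⁻¹ := eq_inv_of_mul_eq_one_right h.rel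
    rw [h4, h5]
    exact inv_mem (mul_mem (mul_mem hC0 hC1) (WS_mem hCpm))

end

/-- A group generated by the standard generators of the fundamental group of a sphere with `n` punctures; the
generators are parabolic, the product of the signs of their traces is `(-1) ^ n` (as for the groups of hyperbolic
punctured spheres), and the first two generators have no common eigenvector (auxiliary form). -/
def SphereAux (n : ℕ) (Γ : Subgroup SL(2, ℝ)) : Prop :=
  ∃ C : ℕ → SL(2, ℝ), Γ = Subgroup.closure {x | ∃ j < n, x = C j} ∧ ((List.range n).map C).prod = 1 ∧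
    (∀ j < n, |tr (C j)| = 2 ∧ C j ≠ 1 ∧ C j ≠ -1) ∧
    ((List.range n).map fun j => tr (C j) / 2).prod = (-1) ^ n ∧ tr ⁅C 0, C 1⁆ ≠ 2

theorem range_split (N : ℕ) {G : Type*} [Monoid G] (f : ℕ → G) :
    ((List.range (N + 3)).map f).prod = f 0 * f 1 * ((List.range N).map fun j => f (j + 2)).prod * f (N + 2) := by
  rw [List.range_succ, List.range_succ_eq_map, List.range_succ_eq_map]
  simp [Function.comp_def, mul_assoc]

theorem sphere_collapsing {n : ℕ} (hn : 4 ≤ n) (heven : Even n) {Γ : Subgroup SL(2, ℝ)} (hΓ : SphereAux n Γ)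
    (htd : ((2 * n - 6 : ℕ) : Cardinal) ≤ Algebra.trdeg ℚ (kf Γ)) : Collapsing Γ := by
  obtain ⟨N, rfl⟩ : ∃ N, n = N + 3 := ⟨n - 3, by omega⟩
  obtain ⟨C, hcl, hrel, hpar, hsgn, hirr⟩ := hΓ
  have hpar' : ∀ j < N + 3, tr (C j) ^ 2 = 4 := by
    intro j hj
    rw [← sq_abs, (hpar j hj).1]
    norm_num
  obtain ⟨P, hP, s, a, hs, hC0, hC1⟩ := exists_normal0 (hpar' 0 (by omega)) (hpar' 1 (by omega)) hirr
  obtain ⟨C', hC'⟩ : ∃ C' : ℕ → SL(2, ℝ), C' = fun i => cj P hP (C i) := ⟨_, rfl⟩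
  have htr : ∀ j, tr (C' j) = tr (C j) := by
    intro j
    rw [hC']
    exact tr_cj P hP (C j)
  have hNS : NS N C' s a := by
    refine ⟨hs, ?_, ?_, ?_, ?_, ?_⟩
    · rw [htr, hC']
      exact hC0
    · rw [htr, hC']
      exact hC1
    · have h1 := congrArg (cj P hP) hrel
      rw [map_one, map_list_prod, List.map_map, range_split] at h1
      rw [hC']
      exact h1
    · intro j hj
      rw [htr]
      exact hpar' j hj
    · rw [range_split, heven.neg_one_pow] at hsgn
      rw [qS]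
      simp only [htr]
      exact hsgn
  obtain ⟨E, hE⟩ : ∃ E, E = adj (KS N C') a := ⟨_, rfl⟩
  have hKE : KS N C' ≤ E := by rw [hE]; exact le_adj _ _
  have haE : a ∈ E := by rw [hE]; exact mem_adj _ _
  have hsE : s ∈ E := by
    rcases hs with h1 | h1
    · rw [h1]; exact one_mem _
    · rw [h1]; exact neg_mem (one_mem _)
  have hE0 : C' 0 ∈ entSub E := by
    obtain ⟨a1, a2, a3, a4⟩ := hNS.ent0
    have h1 := half_mem (M := E) (hNS.par 0 (by omega))
    intro i j
    fin_cases i <;> fin_cases j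
    · show C' 0 0 0 ∈ E
      rw [a1]; exact h1
    · show C' 0 0 1 ∈ E
      rw [a2]; exact mul_mem h1 haE
    · show C' 0 1 0 ∈ E
      rw [a3]; exact zero_mem _
    · show C' 0 1 1 ∈ E
      rw [a4]; exact h1
  have hE1 : C' 1 ∈ entSub E := by
    obtain ⟨a1, a2, a3, a4⟩ := hNS.ent1
    have h1 := half_mem (M := E) (hNS.par 1 (by omega))
    intro i j
    fin_cases i <;> fin_cases j
    · show C' 1 0 0 ∈ E
      rw [a1]; exact h1
    · show C' 1 0 1 ∈ E
      rw [a2]; exact zero_mem _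
    · show C' 1 1 0 ∈ E
      rw [a3]; exact mul_mem h1 (mul_mem hsE haE)
    · show C' 1 1 1 ∈ E
      rw [a4]; exact h1
  have hCE : ∀ j < N + 3, C' j ∈ entSub E := by
    intro j hj
    rcases Nat.lt_or_ge j 1 with h1 | h1
    · have : j = 0 := by omega
      rw [this]; exact hE0
    rcases Nat.lt_or_ge j 2 with h2 | h2
    · have : j = 1 := by omega
      rw [this]; exact hE1
    rcases Nat.lt_or_ge (j - 2) N with h3 | h3
    · have h4 := entSub_mono hKE (KS_C hNS.par (j - 2) h3)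
      rwa [Nat.sub_add_cancel h2] at h4
    · have h4 : j = N + 2 := by omega
      have h5 : C' (N + 2) = (C' 0 * C' 1 * WS N C')⁻¹ := eq_inv_of_mul_eq_one_right hNS.rel
      rw [h4, h5]
      exact inv_mem (mul_mem (mul_mem hE0 hE1) (entSub_mono hKE (KS_W hNS.par)))
  have hmap : ∀ G : Subgroup SL(2, ℝ), (∀ j < N + 3, C' j ∈ G) → ∀ γ ∈ Γ, cj P hP γ ∈ G := by
    intro G h3 γ hγ
    have h4 : Γ ≤ G.comap (cj P hP) := by
      rw [hcl, Subgroup.closure_le]
      rintro z ⟨j, hj, rfl⟩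
      have := h3 j hj
      rwa [hC'] at this
    exact h4 hγ
  have hkf : kf Γ ≤ E := by
    rw [kf, IntermediateField.adjoin_le_iff]
    rintro _ ⟨γ, hγ, rfl⟩
    have h1 := tr_mem_of_entSub (hmap _ hCE γ (sqSub_le Γ hγ))
    rwa [tr_cj] at h1
  have htd' : ((2 * N : ℕ) : Cardinal) ≤ td (adj (KS N C') a) := by
    rw [← hE]
    refine le_trans ?_ (td_mono hkf)
    have h1 : 2 * (N + 3) - 6 = 2 * N := by omega
    rw [h1] at htd
    exact htd
  obtain ⟨τ, l, hl, h3⟩ := hNS.collapsing (hNS.ind (by omega) htd')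
  have hsub : Γ.map (cj P hP) ≤ limSub τ l pm := by
    rintro _ ⟨γ, hγ, rfl⟩
    exact hmap _ h3 γ hγ
  have hcol : Collapsing (Γ.map (cj P hP)) := collapsing_of_lim (fun M hM => su2_trace (pm_le_su2 hM)) hsub
  intro F hF hFΓ δ hδ
  obtain ⟨σ, hσ⟩ := hcol (cj P hP '' F) (hF.image _) (by
    rintro _ ⟨γ, hγ, rfl⟩
    exact ⟨γ, hFΓ γ hγ, rfl⟩) δ hδ
  refine ⟨σ, fun γ hγ r hr hrt => hσ (cj P hP γ) ⟨γ, hγ, rfl⟩ r hr ?_⟩
  rw [tr_cj]
  exact hrt

end Pool.Agent.LCG
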