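import Pool.Agent.LCC.Geo

/-!
# LCG/Svarc: word lengths of powers in a cocompact group
-/

namespace Pool.Agent.LCG

open UpperHalfPlane Pool.Agent.LCC
open scoped MatrixGroups

/-- The group of a closed hyperbolic surface: discrete, cocompact, non-abelian, and all non-trivial elements are
hyperbolic. -/
structure CompactSurface (Γ : Subgroup SL(2, ℝ)) : Prop where
  cocompact : ∃ K : Set ℍ, IsCompact K ∧ ∀ z : ℍ, ∃ γ ∈ Γ, γ • z ∈ K
  discrete : ∀ K : Set ℍ, IsCompact K → {γ | γ ∈ Γ ∧ ∃ z ∈ K, γ • z ∈ K}.Finite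
  hyperbolic : ∀ γ ∈ Γ, γ ≠ 1 → 2 < |tr γ|
  nonabelian : ∃ a ∈ Γ, ∃ b ∈ Γ, a * b ≠ b * a

theorem prod_telescope {G : Type*} [Group G] (δ : ℕ → G) (m : ℕ) :
    ((List.range m).map fun j => (δ j)⁻¹ * δ (j + 1)).prod = (δ 0)⁻¹ * δ m := by
  induction m with
  | zero => simp
  | succ m ih => rw [List.range_succ, List.map_append, List.prod_append, ih]; simp [mul_assoc]

/-- Powers of an element which translates by `ℓ` are conjugate to words of length about `N ℓ`. -/
theorem exists_words {Γ : Subgroup SL(2, ℝ)} (hΓ : CompactSurface Γ) :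
    ∃ S : Set SL(2, ℝ), S.Finite ∧ (∀ s ∈ S, s ∈ Γ) ∧ ∀ w ∈ Γ, ∀ ℓ : ℝ, 0 < ℓ → |tr w| = 2 * Real.cosh (ℓ / 2) →
      ∀ N : ℕ, ∃ h ∈ Γ, ∃ L : List SL(2, ℝ), (∀ s ∈ L, s ∈ S) ∧ (L.length : ℝ) ≤ N * ℓ + 1 ∧
        h⁻¹ * w ^ N * h = L.prod := by
  obtain ⟨K, hK, hKΓ⟩ := hΓ.cocompact
  obtain ⟨R, hR⟩ := hK.isBounded.subset_closedBall I
  have hcover : ∀ z : ℍ, ∃ γ ∈ Γ, dist (γ • I) z ≤ R := by
    intro z
    obtain ⟨γ, hγ, hz⟩ := hKΓ z
    refine ⟨γ⁻¹, Γ.inv_mem hγ, ?_⟩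
    have h1 : dist (γ • z) I ≤ R := hR hz
    rw [← dist_smul γ (γ⁻¹ • I) z, smul_smul, mul_inv_cancel, one_smul, dist_comm]
    exact h1
  choose δ hδΓ hδ using hcover
  refine ⟨{γ | γ ∈ Γ ∧ dist I (γ • I) ≤ 2 * R + 1}, ?_, fun s hs => hs.1, ?_⟩
  · refine (hΓ.discrete (Metric.closedBall I (2 * R + 1)) (isCompact_closedBall I _)).subset ?_
    rintro γ ⟨hγ, hd⟩
    refine ⟨hγ, I, ?_, ?_⟩
    · rw [Metric.mem_closedBall, dist_self]
      exact dist_nonneg.trans hd
    · rw [Metric.mem_closedBall, dist_comm]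
      exact hd
  · intro w hw ℓ hℓ htr N
    obtain ⟨c, hc, hwc⟩ := translates_of_tr hℓ htr
    have hpow : ∀ (n : ℕ) (t : ℝ), w ^ n • c t = c (t + n * ℓ) := by
      intro n
      induction n with
      | zero => intro t; simp
      | succ n ih =>
        intro t
        rw [pow_succ, mul_smul, hwc, ih]
        congr 1
        push_cast
        ring
    obtain ⟨n, hn⟩ : ∃ n : ℕ, n = ⌊(N : ℝ) * ℓ⌋₊ := ⟨_, rfl⟩
    have hNℓ : 0 ≤ (N : ℝ) * ℓ := by positivity
    have hn1 : (n : ℝ) ≤ N * ℓ := by rw [hn]; exact Nat.floor_le hNℓ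
    have hn2 : (N : ℝ) * ℓ < n + 1 := by rw [hn]; exact Nat.lt_floor_add_one _
    obtain ⟨e, he⟩ : ∃ e : ℕ → SL(2, ℝ), e = fun j => if j ≤ n then δ (c j) else w ^ N * δ (c 0) := ⟨_, rfl⟩
    have he0 : e 0 = δ (c 0) := by rw [he]; simp
    have hen : e (n + 1) = w ^ N * δ (c 0) := by
      rw [he]
      simp
    have heΓ : ∀ j, e j ∈ Γ := by
      intro j
      rw [he]
      simp only
      split_ifs
      · exact hδΓ _
      · exact Γ.mul_mem (Γ.pow_mem hw N) (hδΓ _)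
    -- the points
    have hpt : ∀ j ≤ n + 1, ∃ t : ℝ, dist (e j • I) (c t) ≤ R ∧ (j ≤ n → t = j) ∧ (j = n + 1 → t = N * ℓ) := by
      intro j hj
      by_cases hjn : j ≤ n
      · refine ⟨j, ?_, fun _ => rfl, fun h => by omega⟩
        rw [he]
        simp only [if_pos hjn]
        exact hδ _
      · refine ⟨N * ℓ, ?_, fun h => absurd h hjn, fun _ => rfl⟩
        have : j = n + 1 := by omega
        rw [this, hen, mul_smul]
        have h1 := hpow N 0
        rw [zero_add] at h1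
        rw [← h1, dist_smul]
        exact hδ _
    have hmem : ∀ j < n + 1, (e j)⁻¹ * e (j + 1) ∈ Γ ∧ dist I (((e j)⁻¹ * e (j + 1)) • I) ≤ 2 * R + 1 := by
      intro j hj
      refine ⟨Γ.mul_mem (Γ.inv_mem (heΓ j)) (heΓ _), ?_⟩
      rw [mul_smul, ← dist_smul (e j) I, smul_smul, mul_inv_cancel, one_smul]
      obtain ⟨t, h1, ht, -⟩ := hpt j (by omega)
      obtain ⟨t', h1', ht', ht''⟩ := hpt (j + 1) (by omega)
      have h2 : dist (c t) (c t') ≤ 1 := by
        rw [hc.dist_eq, Real.dist_eq, ht (by omega)]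
        rcases Nat.lt_or_ge j n with h3 | h3
        · rw [ht' (by omega)]
          push_cast
          rw [show (j : ℝ) - (j + 1) = -1 by ring]
          norm_num
        · have h4 : j = n := by omega
          rw [ht'' (by omega), h4, abs_le]
          constructor <;> linarith
      have h3 : dist (e j • I) (e (j + 1) • I) ≤ dist (e j • I) (c t) + dist (c t) (c t') +
          dist (c t') (e (j + 1) • I) := dist_triangle4 _ _ _ _
      rw [dist_comm (c t')] at h3
      linarith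
    refine ⟨δ (c 0), hδΓ _, (List.range (n + 1)).map fun j => (e j)⁻¹ * e (j + 1), ?_, ?_, ?_⟩
    · intro s hs
      obtain ⟨j, hj, rfl⟩ := List.mem_map.mp hs
      exact hmem j (List.mem_range.mp hj)
    · rw [List.length_map, List.length_range]
      push_cast
      linarith
    · rw [prod_telescope, he0, hen, mul_assoc]

end Pool.Agent.LCG
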